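import Pool.Agent.MP_1a6d78_lc.PL.Gad

/-! PROJECT GN (genus `g`): maps of darts.  The cell `c` has the tail `2 c` and the head `2 c + 1`;
the dart `d` is the side `2 d` of the map of ports. -/

namespace Pool.Agent.MP_1a6d78_lc.GN

open Classical ED PR PL

noncomputable section

/-! ### First returns -/

/-- `y` is the first point with `P` after `x`. -/
inductive Fr (f : ℕ → ℕ) (P : ℕ → Prop) : ℕ → ℕ → Prop
  | stop {x : ℕ} : P (f x) → Fr f P x (f x)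
  | go {x y : ℕ} : ¬P (f x) → Fr f P (f x) y → Fr f P x y

/-- `f` and `g` have the same first return to `P`. -/
def Fe (N : ℕ) (P : ℕ → Prop) (f g : ℕ → ℕ) : Prop :=
  ∀ x < N, P x → ∃ y, Fr f P x y ∧ Fr g P x y

/-- The number of classes that meet `P`. -/
def ncp (N : ℕ) (P : ℕ → Prop) (r : ℕ → ℕ → Prop) : ℕ := ncl N P fun a b => r a b ∧ P b

/-- The number of classes. -/
def nc (N : ℕ) (r : ℕ → ℕ → Prop) : ℕ := ncl N (fun _ => True) r

/-! ### Maps -/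

/-- The edges of the cells with `A`. -/
def ed (A : ℕ → Prop) (d : ℕ) : ℕ := if A (d / 2) then fl d else d

/-- The faces of the submap `A`, the vertices after the contraction of `A`. -/
def fc (σ : ℕ → ℕ) (A : ℕ → Prop) (d : ℕ) : ℕ := σ (ed A d)

/-- Directed walks that use the cells with `A`. -/
def Rc (n : ℕ) (σ : ℕ → ℕ) (A : ℕ → Prop) : ℕ → ℕ → Prop :=
  Relation.ReflTransGen fun a b => a < 2 * n ∧ (b = σ a ∨ (a % 2 = 0 ∧ A (a / 2) ∧ b = a + 1))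

/-- Twice the genus of the submap `A`. -/
def gn (n : ℕ) (σ : ℕ → ℕ) (A : ℕ → Prop) : ℤ := gen (2 * n) σ (ed A)

/-- The face of `d` is a directed cycle. -/
def Un (σ : ℕ → ℕ) (A : ℕ → Prop) (d : ℕ) : Prop := ∀ t, (fc σ A)^[t] d % 2 = d % 2

/-- A map whose alive cells are those with `A`. -/
structure Lv (n : ℕ) (σ : ℕ → ℕ) (A : ℕ → Prop) : Prop where
  pm : Pm (2 * n) σ
  lt : ∀ c, A c → c < n
  fx : ∀ d < 2 * n, ¬A (d / 2) → σ d = d

/-- One round; `T` is the set of the cells that are contracted now or later. -/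
structure Op (n : ℕ) (σ σ' : ℕ → ℕ) (A A' T : ℕ → Prop) : Prop where
  lv : Lv n σ' A'
  sub : ∀ c, A' c → A c
  tsub : ∀ c, T c → A c
  fe : Fe (2 * n) (fun d => A' (d / 2) ∧ ¬T (d / 2)) (fc σ T) (fc σ' fun c => T c ∧ A' c)
  con : ∀ d < 2 * n, Conn (2 * n) σ (ed T) d (σ' d)
  cyc : ∀ c, T c → Rc n σ A (2 * c + 1) (2 * c)
  del : ∀ c, A c → ¬A' c → ¬T c → ¬Rc n σ A (2 * c + 1) (2 * c)
  un : ∀ d < 2 * n, A' (d / 2) → Un σ A d → Un σ' A' d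
  unT : ∀ c, T c → A' c → Un σ' A' (2 * c) ∨ Un σ' A' (2 * c + 1)
  gn : gn n σ' A' ≤ gn n σ A

/-- The rotation of the darts of a map of ports. -/
def tr (lk : ℕ → ℕ) (d : ℕ) : ℕ :=
  if lk (2 * d) = 2 * d then d else (4 * (lk (2 * d) / 4) + (lk (2 * d) + 3) % 4) / 2

/-- A cut along rings, `X` holds one dart of every cell of a ring. -/
structure DCut (n : ℕ) (σ σ' : ℕ → ℕ) (A X T : ℕ → Prop) : Prop where
  al : ∀ d, X d → A (d / 2)
  one : ∀ d, X d → ¬X (fl d)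
  tx : ∀ c, T c → X (2 * c) ∨ X (2 * c + 1)
  nx : ∀ d, X d → X (ed T (σ d))
  par : (∀ d e, X d → X e → d % 2 = e % 2) ∨ ∀ d e, X d → X e → σ d % 2 = σ e % 2
  on : ∀ d, X d → Fr (fun e => ed T (σ e)) (fun e => T (e / 2) ↔ T (d / 2)) d (ed T (σ' d))
  off : ∀ d < 2 * n, ¬X d → σ' d = σ d

/-! ### Connectivity with a table of `g` darts -/

/-- The edges below the edge of `d`. -/
def lo (γ : ℕ → ℕ) (d e : ℕ) : ℕ := if min e (γ e) < min d (γ d) then γ e else e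

/-- The edges that join two faces of the submap of the smaller edges. -/
def t0 (N : ℕ) (ρ γ : ℕ → ℕ) (d : ℕ) : ℕ := if Sc N (fun e => ρ (lo γ d e)) d (γ d) then d else γ d

/-- `τ` without the listed edges. -/
def dl (g : ℕ) (τ : ℕ → ℕ) (l : List ℕ) (d : ℕ) : ℕ :=
  if ∃ i < g, gt l i = d ∨ gt l i = τ d then d else τ d

/-- The first edge with two faces. -/
def nb (N : ℕ) (ρ τ : ℕ → ℕ) : ℕ := lst (N + 1) fun d => d = N ∨ ¬Sc N (fun e => ρ (τ e)) d (τ d)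

def tbl (N g : ℕ) (ρ τ : ℕ → ℕ) : ℕ → List ℕ :=
  itr (fun i l => tab g fun e => if e = i then nb N ρ (dl g τ l) else gt l e) (tab g fun _ => N)

/-- Connectivity in a map of genus at most `g`. -/
def cn (N g : ℕ) (ρ γ : ℕ → ℕ) (a b : ℕ) : Prop :=
  Sc N (fun e => ρ (dl g (t0 N ρ γ) (tbl N g ρ (t0 N ρ γ) g) e)) a b

/-! ### The top map -/

/-- The component `K` has positive genus. -/
def ps (N : ℕ) (ρ γ : ℕ → ℕ) (K : ℕ → Prop) : Prop :=
  ncl N K (Sc N γ) + ncl N K (Sc N fun d => ρ (γ d)) + ncl N K (Sc N ρ) < 2 + cnt N K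

/-- The corner after the tail of `c` is not the only one of its kind at its vertex (tail, head) or
in its face (tail, tail). -/
def sad (n : ℕ) (σ : ℕ → ℕ) (A : ℕ → Prop) (c : ℕ) : Prop :=
  ∃ e < n, e ≠ c ∧ σ (2 * e) % 2 = σ (2 * c) % 2 ∧
    if σ (2 * c) % 2 = 1 then Sc (2 * n) σ (2 * c) (2 * e)
    else Sc (2 * n) (fc σ A) (2 * c + 1) (2 * e + 1)

/-- One step forward: the head of a cell whose tail is before a head at the vertex of `d`. -/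
def fw (n : ℕ) (σ : ℕ → ℕ) (d : ℕ) : ℕ :=
  if ∃ e < n, σ (2 * e) % 2 = 1 ∧ Sc (2 * n) σ d (2 * e) then
    2 * lst n (fun e => σ (2 * e) % 2 = 1 ∧ Sc (2 * n) σ d (2 * e)) + 1 else d

/-! ### Histories -/

/-- The maps of the rounds; `C` decides connectivity. -/
structure Hs where
  n : ℕ
  σ : ℕ → ℕ → ℕ
  A : ℕ → ℕ → Prop
  T : ℕ → ℕ → Prop
  C : (ℕ → ℕ) → (ℕ → ℕ) → ℕ → ℕ → Prop

namespace Hs

variable (H : Hs)

structure Ok (L : ℕ) : Prop where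
  lv : Lv H.n (H.σ 0) (H.A 0)
  op : ∀ k < L, Op H.n (H.σ k) (H.σ (k + 1)) (H.A k) (H.A (k + 1)) (H.T k)
  hc : ∀ ρ γ, Pm (2 * H.n) ρ → Iv (2 * H.n) γ → gen (2 * H.n) ρ γ ≤ gn H.n (H.σ 0) (H.A 0) →
    ∀ a < 2 * H.n, ∀ b, H.C ρ γ a b ↔ Conn (2 * H.n) ρ γ a b

/-- The component of `c` in the map `k` has positive genus. -/
def pos (k c : ℕ) : Prop :=
  ps (2 * H.n) (H.σ k) (ed (H.A k)) (H.C (H.σ k) (ed (H.A k)) (2 * c))

/-- The core. -/
def Co (k c : ℕ) : Prop := H.A k c ∧ ∀ j < k + 1, H.pos j c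

/-- Deleted in the core. -/
def D (k c : ℕ) : Prop := ∃ j < k, H.Co j c ∧ ¬H.A (j + 1) c ∧ ¬H.T j c

/-- Contracted in the core, now or later. -/
def Y (k c : ℕ) : Prop := ∃ j < k, H.Co j c ∧ H.T j c

def G (k c : ℕ) : Prop := H.A 0 c ∧ ¬H.D k c

def S (k c : ℕ) : Prop := H.G k c ∧ (¬H.Co k c ∨ H.Y k c)

/-- The classes of the heads (`b = 1`) or tails (`b = 0`) of the cells with `P`. -/
def Yp (k : ℕ) (P : ℕ → Prop) (b x : ℕ) : Prop :=
  ∃ c < H.n, P c ∧ H.C (H.σ 0) (ed (H.S k)) (2 * c + b) x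

/-- The cells with `P` may be deleted; `z` is the target (`b = 1`) or the source (`b = 0`). -/
def Free (k : ℕ) (P : ℕ → Prop) (b z : ℕ) : Prop :=
  ¬H.Yp k P b z ∧ ∀ c < H.n, H.Co k c → ¬H.Y k c → H.Yp k P b (2 * c + (1 - b)) → P c

/-- All deletions in the core are free. -/
def Fre (L s t : ℕ) : Prop :=
  ∀ k < L, ∀ c, H.Co k c → ¬H.A (k + 1) c → ¬H.T k c →
    ∃ P : ℕ → Prop, P c ∧ (H.Free k P 1 t ∨ H.Free k P 0 s)

/-- A family of basins `P x` of poles `x` with `X` in the core. -/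
structure Bas (k : ℕ) (X : ℕ → Prop) (P : ℕ → ℕ → Prop) (b : ℕ) : Prop where
  hb : b < 2
  co : ∀ x c, X x → P x c → H.Co k c
  cl : ∀ x c e, X x → P x c → H.A k e → Sc (2 * H.n) (H.σ k) (2 * c + b) (2 * e + (1 - b)) → P x e
  ac : ∀ x c, X x → P x c → ¬Rc H.n (H.σ k) (H.A k) (2 * c + 1) (2 * c)
  inj : ∀ x y c e, X x → X y → P x c → P y e → Sc (2 * H.n) (H.σ k) (2 * c + b) (2 * e + b) → x = y

variable (L s t : ℕ)

/-- The starts of the walks of the top map. -/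
def St (d : ℕ) : Prop :=
  H.Co L (d / 2) ∧ (sad H.n (H.σ L) (H.A L) (d / 2) ∨ ∀ e < d, ¬H.C (H.σ L) (ed (H.A L)) d e)

def Yl (c e : ℕ) : Prop := H.Y L e ∧ e ≤ c

/-- The contraction of `c` lowers the genus. -/
def dr (c : ℕ) : Prop :=
  H.Y L c ∧ ¬Sc (2 * H.n) (fc (H.σ 0) (H.Yl L c)) (2 * c) (2 * c + 1) ∧
    H.C (fc (H.σ 0) (H.Yl L c)) (ed fun e => H.G L e ∧ ¬H.Yl L c e) (2 * c) (2 * c + 1)

/-- The items. -/
def It (d : ℕ) : Prop := H.St L d ∨ (d % 2 = 0 ∧ H.dr L (d / 2)) ∨ d = s ∨ d = t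

/-- The walk of the item `i`. -/
def wk (i j : ℕ) : ℕ := it (2 * H.n) (fw H.n (H.σ L)) j i

/-- Blobs. -/
def bl (a b : ℕ) : Prop := H.C (H.σ 0) (ed (H.Y L)) a b

def U (x : ℕ) : Prop := ∃ i < 2 * H.n, H.It L s t i ∧ ∃ j < 2 * H.n, H.bl L (H.wk L i j) x

/-- The plane rest. -/
def B (c : ℕ) : Prop := H.G L c ∧ ¬H.U L s t (2 * c) ∧ ¬H.U L s t (2 * c + 1)

end Hs

/-! ### Pointers -/

/-- `J` walks `w e` of length `R`, blobs `bl`, reachability `bb` in the rest. -/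
structure Pt where
  n : ℕ
  A : ℕ → Prop
  J : ℕ
  R : ℕ
  w : ℕ → ℕ → ℕ
  bl : ℕ → ℕ → Prop
  bb : ℕ → ℕ → Prop
  s : ℕ

namespace Pt

variable (Q : Pt)

def src (l : List ℕ) (x : ℕ) : Prop :=
  Q.bl Q.s x ∨ ∃ e < Q.J, ∃ j < Q.R, gt l e ≤ j ∧ Q.bl (Q.w e j) x

def hit (l : List ℕ) (y : ℕ) : Prop :=
  Q.src l y ∨ ∃ c < Q.n, Q.A c ∧ Q.bl (2 * c + 1) y ∧ (Q.src l (2 * c) ∨
    ∃ e < Q.n, Q.A e ∧ Q.src l (2 * e) ∧ Q.bb (2 * e + 1) (2 * c))

def upd (l : List ℕ) : List ℕ := tab Q.J fun e => lst (Q.R + 1) fun j => j = Q.R ∨ Q.hit l (Q.w e j)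

def fin : List ℕ := itr (fun _ l => Q.upd l) (tab Q.J fun _ => Q.R) (Q.J * Q.R + 1)

end Pt

/-- The pointers of a history. -/
def Hs.pt (H : Hs) (L s t J : ℕ) (bb : ℕ → ℕ → Prop) : Pt where
  n := H.n
  A := H.A 0
  J := J
  R := 2 * H.n
  w e := H.wk L (sel (2 * H.n) (H.It L s t) e)
  bl := H.bl L
  bb := bb
  s := s

end

end Pool.Agent.MP_1a6d78_lc.GN
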