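import Pool.Agent.MP_1a6d78_lc.GN.Bas
import Pool.Agent.MP_1a6d78_lc.PS.Geo
import Pool.Agent.MP_1a6d78_lc.SC.OSub

/-! PROJECT GN: the statements of the rows. -/

namespace Pool.Agent.MP_1a6d78_lc.GN

open Classical ED PR PL

noncomputable section

/-- `γ` moves only points with `P`. -/
def Su (N : ℕ) (P : ℕ → Prop) (γ : ℕ → ℕ) : Prop := Iv N γ ∧ ∀ d < N, ¬P d → γ d = d

/-- `K` is closed under `f` in both directions. -/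
def Cd (N : ℕ) (K : ℕ → Prop) (f : ℕ → ℕ) : Prop := ∀ d < N, K (f d) ↔ K d

/-- The edges with `K`. -/
def rs (K : ℕ → Prop) (γ : ℕ → ℕ) (d : ℕ) : ℕ := if K d then γ d else d

/-- FR: first returns. -/
structure FrK : Prop where
  uniq : ∀ {f P x y z}, Fr f P x y → Fr f P x z → y = z
  ex : ∀ {N f P x}, Pm N f → x < N → P x → ∃ y, Fr f P x y
  fin : ∀ {f P x y}, Fr f P x y → P y
  ind : ∀ {f P x y} {Q : ℕ → Prop}, (∀ a, Q a → Q (f a)) → Q x → Fr f P x y → Q y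
  cg : ∀ {f g P P' x y} {Q : ℕ → Prop}, (∀ a, Q a → Q (f a)) → (∀ a, Q a → f a = g a) →
    (∀ a, Q a → (P a ↔ P' a)) → Q x → Fr f P x y → Fr g P' x y
  mono : ∀ {N f g P P'}, Pm N f → Pm N g → (∀ a < N, P' a → P a) → Fe N P f g → Fe N P' f g
  comp : ∀ {N f g P γ}, Pm N f → Pm N g → Su N P γ → Fe N P f g →
    Fe N P (fun d => f (γ d)) fun d => g (γ d)
  trans : ∀ {N f g h P}, Fe N P f g → Fe N P g h → Fe N P f h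
  sc : ∀ {N f g P a b}, Pm N f → Pm N g → Fe N P f g → a < N → P a → P b → Sc N f a b → Sc N g a b
  conn : ∀ {N f g P γ a b}, Pm N f → Pm N g → Su N P γ → Fe N P f g → a < N → P a → P b →
    Conn N f γ a b → Conn N g γ a b
  gen : ∀ {N f g P γ}, Pm N f → Pm N g → Su N P γ → Fe N P f g → gen N f γ = gen N g γ
  cd : ∀ {N f g P γ}, Pm N f → Pm N g → Su N P γ → Fe N P f g →
    nc N (Sc N fun d => f (γ d)) + nc N (Sc N g) = nc N (Sc N fun d => g (γ d)) + nc N (Sc N f)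
  ncg : ∀ {N} {P : ℕ → Prop} {r r' : ℕ → ℕ → Prop},
    (∀ a < N, ∀ b < N, P a → P b → (r a b ↔ r' a b)) → ncp N P r = ncp N P r'
  dif : ∀ {n σ} {S Z : ℕ → Prop}, Pm (2 * n) σ → (∀ c, S c → ¬Z c) →
    gn n σ (fun c => S c ∨ Z c) + 2 * ncp (2 * n) (fun d => Z (d / 2)) (Conn (2 * n) σ (ed S)) +
      ncp (2 * n) (fun d => Z (d / 2)) (Sc (2 * n) (fc σ fun c => S c ∨ Z c)) =
    gn n σ S + 2 * ncp (2 * n) (fun d => Z (d / 2)) (Conn (2 * n) σ (ed fun c => S c ∨ Z c)) +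
      cnt n Z + ncp (2 * n) (fun d => Z (d / 2)) (Sc (2 * n) (fc σ S))

/-- GEN A: the genus under changes of edges. -/
structure GnA : Prop where
  nonneg : ∀ {N ρ γ}, Pm N ρ → Iv N γ → 0 ≤ gen N ρ γ
  even : ∀ {N ρ γ}, Pm N ρ → Iv N γ → gen N ρ γ % 2 = 0
  dual : ∀ {N ρ γ}, Pm N ρ → Iv N γ → gen N (fun d => ρ (γ d)) γ = gen N ρ γ
  cg : ∀ {N ρ ρ' γ γ'}, Pm N ρ → Iv N γ → (∀ d < N, ρ d = ρ' d) → (∀ d < N, γ d = γ' d) →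
    gen N ρ γ = gen N ρ' γ'
  mono : ∀ {N ρ γ β}, Pm N ρ → Iv N γ → Iv N β → Sb N γ β → gen N ρ γ ≤ gen N ρ β
  con1 : ∀ {N ρ γ a b}, Pm N ρ → Iv N γ → a < N → b < N → a ≠ b → γ a = a → γ b = b →
    gen N ρ (fun d => γ (sw a b d)) = gen N (fun d => ρ (sw a b d)) γ +
      if Conn N (fun d => ρ (sw a b d)) γ a b ∧ ¬Sc N (fun d => ρ (sw a b d)) a b then 2 else 0
  conm : ∀ {n σ} {S Z : ℕ → Prop}, Pm (2 * n) σ → (∀ c, S c → ¬Z c) →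
    gn n (fc σ S) Z ≤ gn n σ fun c => S c ∨ Z c
  sub : ∀ {N ρ ρ' γ β}, Pm N ρ → Pm N ρ' → Iv N γ → Iv N β → Sb N γ β →
    (∀ x < N, Conn N ρ γ x (ρ' x)) →
    nc N (Conn N ρ γ) + nc N (Conn N ρ' β) ≤ nc N (Conn N ρ' γ) + nc N (Conn N ρ β)

/-- GEN B: the genus of unions of components. -/
structure GnB : Prop where
  loc : ∀ {N ρ γ K}, Pm N ρ → Iv N γ → Cd N K ρ → Cd N K γ →
    gen N ρ (rs K γ) = 2 * ncl N K (Conn N ρ γ) + cnt N K - ncl N K (Sc N γ) -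
      ncl N K (Sc N fun d => ρ (γ d)) - ncl N K (Sc N ρ)
  add : ∀ {N ρ γ K}, Pm N ρ → Iv N γ → Cd N K ρ → Cd N K γ →
    gen N ρ γ = gen N ρ (rs K γ) + gen N ρ (rs (fun d => ¬K d) γ)
  comp : ∀ {N ρ γ K}, Pm N ρ → Iv N γ → Cd N K ρ → Cd N K γ →
    (∀ a < N, K a → cnt N (Conn N ρ γ a) + 1 ≤ ncl N (Conn N ρ γ a) (Sc N γ) +
      ncl N (Conn N ρ γ a) (Sc N fun d => ρ (γ d)) + ncl N (Conn N ρ γ a) (Sc N ρ)) →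
    gen N ρ (rs K γ) = 0
  few : ∀ {N ρ γ}, Pm N ρ → Iv N γ →
    (2 * cnt N (fun a => ps N ρ γ (Conn N ρ γ a) ∧ ∀ e < a, ¬Conn N ρ γ a e) : ℤ) ≤ gen N ρ γ

structure GnK : Prop extends GnA, GnB

/-- OPS: the four kinds of rounds. -/
structure OpK : Prop where
  id : ∀ {n σ A}, Lv n σ A → Op n σ σ A A fun _ => False
  del : ∀ {n σ σ' A A'}, Lv n σ A → Lv n σ' A' → (∀ c, A' c → A c) →
    (∀ d < 2 * n, A' (d / 2) → Fr σ (fun e => A' (e / 2)) d (σ' d)) →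
    (∀ c, A c → ¬A' c → ¬Rc n σ A (2 * c + 1) (2 * c)) → Op n σ σ' A A' fun _ => False
  con : ∀ {n σ σ' A A'}, Lv n σ A → Lv n σ' A' → (∀ c, A' c → A c) →
    (∀ d < 2 * n, A' (d / 2) → Fr (fc σ fun c => A c ∧ ¬A' c) (fun e => A' (e / 2)) d (σ' d)) →
    (∀ c, A c → ¬A' c → Rc n σ A (2 * c + 1) (2 * c)) → Op n σ σ' A A' fun c => A c ∧ ¬A' c
  cut : ∀ {n σ σ' A X T}, Lv n σ A → Lv n σ' A → DCut n σ σ' A X T → Op n σ σ' A A T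

/-- The port of entry of a cell that a ring of type `i` passes by an odd side. -/
def ct (i : ℕ) : ℕ := (i + 3 + 2 * (i % 2)) % 4

/-- PORT A: from ports to darts. -/
structure PoK : Prop where
  lv : ∀ {n al lk}, PL.Ok n al lk → (∀ c, al c → c < n) → Lv n (tr lk) al
  lam : ∀ {n ρ}, Pm (2 * n) ρ → ∀ d < 2 * n, tr (lam n ρ) d = ρ d
  rc : ∀ {n al lk a b}, PL.Ok n al lk → a < 2 * n → al (a / 2) →
    (Rc n (tr lk) al a b ↔ Rch n lk 0 (2 * a) (2 * b))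
  cyc : ∀ {n al lk c}, PL.Ok n al lk → c < n → al c →
    (Rc n (tr lk) al (2 * c + 1) (2 * c) ↔ Cyc n lk 0 c)
  vx : ∀ {n al lk a b}, PL.Ok n al lk → a < 2 * n → al (a / 2) →
    (Sc (2 * n) (tr lk) a b ↔ Sc (4 * n) (fun p => r3 (lk p)) (2 * a) (2 * b))
  fa : ∀ {n al lk a b}, PL.Ok n al lk → a < 2 * n → al (a / 2) →
    (Sc (2 * n) (fc (tr lk) al) a b ↔ Sc (4 * n) (fun p => r3 (lk p)) (2 * a + 1) (2 * b + 1))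
  cn : ∀ {n al lk a b}, PL.Ok n al lk → a < 2 * n → al (a / 2) →
    (Conn (2 * n) (tr lk) (ed al) a b ↔ Conn (4 * n) r4 lk (2 * a) (2 * b))
  med : ∀ {n al lk}, PL.Ok n al lk → gen (4 * n) r4 lk = gn n (tr lk) al

/-- PORT B: kills and cuts are rounds. -/
structure PoR : Prop where
  k0 : ∀ {n k al al' lk lk'}, PL.Ok n al lk → PL.Ok n al' lk' → (∀ c, al c → c < n) →
    (∀ c, al' c → al c) → (∀ p < 4 * n, al' (p / 4) → Cv lk (sm k) al' p (lk' p)) → k % 2 = 0 →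
    (∀ d < n, al d → ¬al' d → ¬Cyc n lk 0 d) → Op n (tr lk) (tr lk') al al' fun _ => False
  k1 : ∀ {n k al al' lk lk'}, PL.Ok n al lk → PL.Ok n al' lk' → (∀ c, al c → c < n) →
    (∀ c, al' c → al c) → (∀ p < 4 * n, al' (p / 4) → Cv lk (sm k) al' p (lk' p)) → k % 2 = 1 →
    (∀ d < n, al d → ¬al' d → Cyc n lk 0 d) → Op n (tr lk) (tr lk') al al' fun c => al c ∧ ¬al' c
  cut : ∀ {n i al lk lk' R en}, PL.Ok n al lk → (∀ c, al c → c < n) → IsCut n lk lk' i R en →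
    Op n (tr lk) (tr lk') al al fun c => R c ∧ en c = ct i

/-- CN -/
def CnS : Prop :=
  ∀ (N g : ℕ) (ρ γ : ℕ → ℕ), Pm N ρ → Iv N γ → gen N ρ γ ≤ 2 * g →
    ∀ a < N, ∀ b, cn N g ρ γ a b ↔ Conn N ρ γ a b

/-- CNC -/
def CnC : Prop :=
  ∀ (κ g : List Bool → ℕ) (N a b : List Bool → Env → ℕ) (ρ γ : List Bool → Env → ℕ → ℕ),
    (∀ x, g x ≤ κ x) → (Cn κ fun x _ => g x) → Cn κ N → F1 κ ρ → F1 κ γ → Cn κ a → Cn κ b →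
      PR.Cp κ fun x e => cn (N x e) (g x) (ρ x e) (γ x e) (a x e) (b x e)

/-- HIS: first facts on histories. -/
structure HiK (H : Hs) (L : ℕ) : Prop where
  lv : ∀ k ≤ L, Lv H.n (H.σ k) (H.A k)
  sub : ∀ k ≤ L, ∀ j ≤ k, ∀ c, H.A k c → H.A j c
  gle : ∀ k ≤ L, gn H.n (H.σ k) (H.A k) ≤ gn H.n (H.σ 0) (H.A 0)
  cA : ∀ k ≤ L, ∀ a < 2 * H.n,
    H.C (H.σ k) (ed (H.A k)) a = Conn (2 * H.n) (H.σ k) (ed (H.A k)) a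
  c0 : ∀ X : ℕ → Prop, (∀ c, X c → H.A 0 c) → ∀ a < 2 * H.n,
    H.C (H.σ 0) (ed X) a = Conn (2 * H.n) (H.σ 0) (ed X) a
  c1 : ∀ X Z : ℕ → Prop, (∀ c, X c → H.A 0 c) → (∀ c, Z c → H.A 0 c ∧ ¬X c) → ∀ a < 2 * H.n,
    H.C (fc (H.σ 0) X) (ed Z) a = Conn (2 * H.n) (fc (H.σ 0) X) (ed Z) a
  lift : ∀ k ≤ L, ∀ a b, Rc H.n (H.σ k) (H.A k) a b → Rc H.n (H.σ 0) (H.A 0) a b
  yg : ∀ k ≤ L, ∀ c, H.Y k c → H.G k c
  un : ∀ k ≤ L, ∀ c, H.Y k c → H.A k c →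
    Un (H.σ k) (H.A k) (2 * c) ∨ Un (H.σ k) (H.A k) (2 * c + 1)
  blob : ∀ k ≤ L, ∀ a b, Conn (2 * H.n) (H.σ 0) (ed (H.Y k)) a b → Rc H.n (H.σ 0) (H.A 0) a b
  clo : ∀ k ≤ L, ∀ a < 2 * H.n, ∀ b, H.Co k (a / 2) →
    Conn (2 * H.n) (H.σ k) (ed (H.A k)) a b → H.Co k (b / 2)
  few : ∀ k ≤ L, (2 * cnt (2 * H.n) (fun d => H.Co k (d / 2) ∧
    ∀ e < d, ¬Conn (2 * H.n) (H.σ k) (ed (H.A k)) d e) : ℤ) ≤ gn H.n (H.σ 0) (H.A 0)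
  sound : ∀ s t, H.Fre L s t → s < 2 * H.n → Rc H.n (H.σ 0) (H.A 0) s t →
    Rc H.n (H.σ 0) (H.G L) s t

def HiS : Prop := ∀ (H : Hs) (L : ℕ), H.Ok L → HiK H L

/-- The map `k` on the core and the frozen plane pieces. -/
structure Hyb (H : Hs) (k : ℕ) (π : ℕ → ℕ) (Z : ℕ → Prop) : Prop where
  lv : Lv H.n π Z
  co : ∀ c, H.Co k c → Z c
  eq : ∀ d < 2 * H.n, H.Co k (d / 2) → π d = H.σ k d
  part : ∀ c, H.G k c ↔ Z c ∨ H.Y k c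
  fe : Fe (2 * H.n) (fun d => Z (d / 2) ∧ ¬H.Y k (d / 2)) (fc (H.σ 0) (H.Y k))
    (fc π fun c => H.Y k c ∧ Z c)
  con : ∀ d < 2 * H.n, Conn (2 * H.n) (H.σ 0) (ed (H.Y k)) d (π d)
  fz : gn H.n π (fun c => Z c ∧ ¬H.Co k c) = 0

/-- HYB -/
def HyS : Prop := ∀ (H : Hs) (L : ℕ), H.Ok L → ∀ k ≤ L, ∃ π Z, Hyb H k π Z

/-- COUNT -/
def CoS : Prop :=
  ∀ (H : Hs) (L k m b z : ℕ) (X : ℕ → Prop) (P : ℕ → ℕ → Prop), H.Ok L → k ≤ L → H.Bas k X P b →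
    (cnt m (fun x => X x ∧ ¬H.Free k (P x) b z) : ℤ) ≤ 2 * gn H.n (H.σ 0) (H.A 0) + 1

/-- TOP -/
def TopS : Prop :=
  ∀ (n : ℕ) (σ : ℕ → ℕ) (A K W : ℕ → Prop), Lv n σ A → (∀ c, K c → A c) →
    Cd (2 * n) (fun d => K (d / 2)) σ → Cd (2 * n) W σ → (∀ d < 2 * n, W d → W (fw n σ d)) →
    (∀ c, K c → sad n σ A c → W (2 * c) ∧ W (2 * c + 1)) →
    (∀ d < 2 * n, K (d / 2) → (∀ e < d, ¬Conn (2 * n) σ (ed A) d e) → W d) →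
      gn n σ (fun c => K c ∧ ¬W (2 * c) ∧ ¬W (2 * c + 1)) = 0

/-- DROP: contraction of the cells of `Y` one by one. -/
structure DrK (n : ℕ) (σ : ℕ → ℕ) (G Y : ℕ → Prop) (dr : ℕ → Prop) : Prop where
  few : (2 * cnt n dr : ℤ) ≤ gn n σ G
  pl : ∀ U : ℕ → Prop, Cd (2 * n) U σ → Cd (2 * n) U (ed Y) → (∀ c < n, dr c → U (2 * c)) →
    gn n σ (fun c => G c ∧ ¬U (2 * c) ∧ ¬U (2 * c + 1)) =
      gn n (fc σ fun c => Y c ∧ ¬U (2 * c)) fun c => (G c ∧ ¬U (2 * c) ∧ ¬U (2 * c + 1)) ∧ ¬Y c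

def DrS : Prop :=
  ∀ (n : ℕ) (σ : ℕ → ℕ) (G Y : ℕ → Prop), Pm (2 * n) σ → (∀ c, Y c → G c) →
    DrK n σ G Y fun c => Y c ∧ ¬Sc (2 * n) (fc σ fun e => Y e ∧ e ≤ c) (2 * c) (2 * c + 1) ∧
      Conn (2 * n) (fc σ fun e => Y e ∧ e ≤ c) (ed fun e => G e ∧ ¬(Y e ∧ e ≤ c)) (2 * c) (2 * c + 1)

/-- PLANE -/
def PlS : Prop :=
  ∀ (H : Hs) (L s t : ℕ), H.Ok L → gn H.n (H.σ 0) (H.B L s t) = 0 ∧
    (cnt (2 * H.n) (H.It L s t) : ℤ) ≤ 2 * cnt H.n (fun c => H.Co L c ∧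
      sad H.n (H.σ L) (H.A L) c) + gn H.n (H.σ 0) (H.A 0) + 2

structure Pt.Ok (Q : Pt) (σ : ℕ → ℕ) : Prop where
  pm : Pm (2 * Q.n) σ
  s : Q.s < 2 * Q.n
  w : ∀ e j, Q.w e j < 2 * Q.n →
    Q.w e (j + 1) < 2 * Q.n ∧ Rc Q.n σ Q.A (Q.w e j) (Q.w e (j + 1))
  bl : ∀ a < 2 * Q.n, ∀ b, Q.bl a b → b < 2 * Q.n ∧ Rc Q.n σ Q.A a b
  bb : ∀ a < 2 * Q.n, ∀ b < 2 * Q.n, Q.bb a b → Rc Q.n σ Q.A a b

/-- PTR -/
structure PtK (Q : Pt) (σ : ℕ → ℕ) : Prop where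
  sound : ∀ t, Q.src Q.fin t → Rc Q.n σ Q.A Q.s t
  full : ∀ G U : ℕ → Prop, Eqv (2 * Q.n) Q.bl → (∀ a < 2 * Q.n, Q.bl a (σ a)) →
    (∀ c, G c → Q.A c) → Cd (2 * Q.n) U σ →
    (∀ x < 2 * Q.n, U x → ∃ e < Q.J, ∃ j < Q.R, Q.w e j < 2 * Q.n ∧ Q.bl (Q.w e j) x) →
    (∀ a < 2 * Q.n, ∀ b < 2 * Q.n,
      Rc Q.n σ (fun c => G c ∧ ¬U (2 * c) ∧ ¬U (2 * c + 1)) a b → Q.bb a b) →
    U Q.s → ∀ t, U t → Rc Q.n σ G Q.s t → Q.src Q.fin t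

def PtS : Prop := ∀ (Q : Pt) (σ : ℕ → ℕ), Q.Ok σ → PtK Q σ

/-- PTQ: the pointers in the calculus with calls; only `bb` calls. -/
def PtQ : Prop :=
  ∀ (κ q β J : List Bool → ℕ) (n R s t : List Bool → Env → ℕ) (A : List Bool → Env → ℕ → Prop)
    (w : List Bool → Env → ℕ → ℕ → ℕ) (bl : List Bool → Env → ℕ → ℕ → Prop)
    (bb : List Bool → Orc → Env → ℕ → ℕ → Prop), (∀ x, J x ≤ κ x) → (Cn κ fun x _ => J x) →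
    Cn κ n → Cn κ R → Cn κ s → Cn κ t → P1 κ A → F2 κ w → R2 κ bl →
    (SC.Pq κ q β fun x g ρ => bb x g (tl (tl ρ)) (hd (ρ 1)) (hd (ρ 0))) →
    (∀ x ρ, n x ρ ≤ q x ∧ R x ρ + 1 ≤ q x ∧ J x * R x ρ + 1 ≤ q x) → (∀ x, J x ≤ q x) →
      SC.Pq κ q β fun x g ρ =>
        (Pt.mk (n x ρ) (A x ρ) (J x) (R x ρ) (w x ρ) (bl x ρ) (bb x g ρ) (s x ρ)).src
          (Pt.mk (n x ρ) (A x ρ) (J x) (R x ρ) (w x ρ) (bl x ρ) (bb x g ρ) (s x ρ)).fin (t x ρ)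

/-- A computable history. -/
structure HsC (κ g : List Bool → ℕ) (H : List Bool → Env → Hs) : Prop where
  le : ∀ x, g x ≤ κ x
  hg : Cn κ fun x _ => g x
  n : Cn κ fun x ρ => (H x ρ).n
  σ : F2 κ fun x ρ => (H x ρ).σ
  A : R2 κ fun x ρ => (H x ρ).A
  T : R2 κ fun x ρ => (H x ρ).T
  C : ∀ x ρ, (H x ρ).C = cn (2 * (H x ρ).n) (g x)

/-- PROG -/
structure PgK (κ : List Bool → ℕ) (H : List Bool → Env → Hs) : Prop where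
  Co : R2 κ fun x ρ => (H x ρ).Co
  Y : R2 κ fun x ρ => (H x ρ).Y
  G : R2 κ fun x ρ => (H x ρ).G
  Free : ∀ (k b z : List Bool → Env → ℕ) (P : List Bool → Env → ℕ → Prop), Cn κ k → Cn κ b →
    Cn κ z → P1 κ P → PR.Cp κ fun x ρ => (H x ρ).Free (k x ρ) (P x ρ) (b x ρ) (z x ρ)
  top : ∀ L s t : List Bool → Env → ℕ, Cn κ L → Cn κ s → Cn κ t →
    (P1 κ fun x ρ => (H x ρ).It (L x ρ) (s x ρ) (t x ρ)) ∧
    (P1 κ fun x ρ => (H x ρ).B (L x ρ) (s x ρ) (t x ρ)) ∧ (R2 κ fun x ρ => (H x ρ).bl (L x ρ)) ∧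
    F2 κ fun x ρ e => (H x ρ).wk (L x ρ)
      (sel (2 * (H x ρ).n) ((H x ρ).It (L x ρ) (s x ρ) (t x ρ)) e)

def PgS : Prop := ∀ κ g H, HsC κ g H → PgK κ H

/-- The theorem of the block. -/
def MainS : Prop :=
  ∀ (H : Hs) (L s t J : ℕ) (bb : ℕ → ℕ → Prop), H.Ok L → H.Fre L s t → s < 2 * H.n → t < 2 * H.n →
    cnt (2 * H.n) (H.It L s t) ≤ J →
    (∀ a < 2 * H.n, ∀ b < 2 * H.n, bb a b ↔ Rc H.n (H.σ 0) (H.B L s t) a b) →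
      ((H.pt L s t J bb).src (H.pt L s t J bb).fin t ↔ Rc H.n (H.σ 0) (H.A 0) s t)

end

end Pool.Agent.MP_1a6d78_lc.GN
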