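import Pool.Agent.MP_1a6d78_lc.GN.Spec

/-! PROJECT GN, row CN: connectivity in a map of genus at most `g` with a table of `g` darts. -/

namespace Pool.Agent.MP_1a6d78_lc.GN

open Classical ED PR PL

namespace CnP

variable {N a b m : ℕ} {ρ γ β β' f f' τ : ℕ → ℕ}

theorem ncg (p : Pm N f) (e : ∀ d < N, f d = f' d) : nc N (Sc N f) = nc N (Sc N f') :=
  nclK.congr (GEN.sc_congr p.1 e)

theorem mg (p : Pm N f) (ha : a < N) (hb : b < N) (e : ∀ d < N, f (sw a b d) = f' d)
    (h : ¬Sc N f a b) : nc N (Sc N f') + 1 = nc N (Sc N f) ∧ Sc N f' a b := by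
  refine ⟨?_, Sc.congr (swapK.pm p ha hb).1 e ha ((swapK.merge p ha hb h a ha b hb).2
    (Or.inr (Or.inl ⟨Sc.refl _ ha, Sc.refl _ hb⟩)))⟩
  rw [← ncg (swapK.pm p ha hb) e]
  exact nclK.merge p.eqv ha hb trivial trivial h (fun _ _ _ _ _ _ => trivial)
    (swapK.merge p ha hb h)

/-- The deletion of one edge. -/
theorem edge (p : Pm N ρ) (q : Iv N β) (ha : a < N) (h : β a ≠ a)
    (e : ∀ d < N, β' d = del β a d) :
    Iv N β' ∧ nc N (Sc N β) + 1 = nc N (Sc N β') ∧
    (¬Sc N (fun d => ρ (β' d)) a (β a) →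
      nc N (Sc N fun d => ρ (β d)) + 1 = nc N (Sc N fun d => ρ (β' d))) ∧
    (Sc N (fun d => ρ (β' d)) a (β a) →
      nc N (Sc N fun d => ρ (β' d)) + 1 = nc N (Sc N fun d => ρ (β d))) ∧
    (¬Sc N (fun d => ρ (β d)) a (β a) → Sc N (fun d => ρ (β' d)) a (β a)) := by
  have hb := (q a ha).1
  have q' : Iv N β' := fun d hd => by
    rw [e d hd, e _ (q.del ha d hd).1]; exact q.del ha d hd
  have sl : ∀ d < N, sw a (β a) d < N := fun d hd => by unfold sw; split_ifs <;> assumption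
  have e1 : ∀ d < N, β' (sw a (β a) d) = β d := fun d hd => by rw [e _ (sl d hd), del_sw q ha]
  have e2 : ∀ d < N, β (sw a (β a) d) = β' d := fun d hd => by rw [e d hd, del_eq q ha]
  have m2 := mg (f' := fun d => ρ (β' d)) (p.comp q.pm) ha hb fun d hd => by rw [e2 d hd]
  refine ⟨q', (mg q'.pm ha hb e1 fun k => h (GEN.fix q'.pm.1 ha (by rw [e a ha, del_a]) k)).1,
    fun k => (mg (p.comp q'.pm) ha hb (fun d hd => by rw [e1 d hd]) k).1, fun k => (m2 fun u => ?_).1,
    fun k => (m2 k).2⟩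
  exact swapK.split (p.comp q'.pm) ha hb h.symm k
    (u.congr (p.comp q.pm).1 (fun d hd => by rw [e1 d hd]) ha)

/-- The edges of `β` below `m`. -/
noncomputable def cut (γ β : ℕ → ℕ) (m e : ℕ) : ℕ := if min e (γ e) < m then β e else e

theorem cut_iv (q : Iv N γ) (r : Iv N β) (s : Sb N β γ) (m : ℕ) : Iv N (cut γ β m) := fun d hd => by
  by_cases h : min d (γ d) < m
  · rw [cut, if_pos h, cut, if_pos]
    · exact r d hd
    · rcases s d hd with e | e <;> rw [e]
      · exact h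
      · rwa [(q d hd).2, min_comm]
  · rw [cut, if_neg h, cut, if_neg h]
    exact ⟨hd, rfl⟩

theorem cut0 (q : Iv N γ) (r : Iv N β) (s : Sb N β γ) (h : ¬(m < N ∧ m < γ m ∧ β m ≠ m)) :
    ∀ d < N, cut γ β m d = cut γ β (m + 1) d := fun d hd => by
  have := q d hd
  by_cases k : min d (γ d) = m
  · rw [cut, cut, if_neg (by omega), if_pos (by omega)]
    by_contra u
    have e := (s d hd).resolve_left fun e => u e.symm
    by_cases v : d = m
    · subst v
      exact h ⟨hd, by omega, fun e => u e.symm⟩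
    · obtain rfl : γ d = m := by omega
      refine h ⟨this.1, by omega, ?_⟩
      rw [← e, (r d hd).2]
      exact u
  · exact if_congr (by omega) rfl rfl

theorem cut1 (q : Iv N γ) (hm : m < N) (h : m < γ m) (e : β m = γ m) :
    cut γ β (m + 1) m = γ m ∧ ∀ d < N, cut γ β m d = del (cut γ β (m + 1)) m d := by
  have e0 : cut γ β (m + 1) m = γ m := by rw [cut, if_pos (by omega), e]
  refine ⟨e0, fun d hd => ?_⟩
  have := q d hd
  have := q m hm
  rw [del, e0]
  split_ifs with k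
  · rcases k with rfl | rfl <;> exact if_neg (by omega)
  · refine if_congr ⟨by omega, fun u => ?_⟩ rfl rfl
    have : γ d ≠ m := fun v => k (Or.inr (by rw [← v]; omega))
    omega

theorem sb (γ : ℕ → ℕ) : Sb N γ γ := fun _ _ => Or.inr rfl

theorem t0_sb : Sb N (t0 N ρ γ) γ := fun d _ => by
  unfold t0
  split_ifs
  exacts [Or.inl rfl, Or.inr rfl]

theorem lo_eq (d : ℕ) : lo γ d = cut γ γ (min d (γ d)) := rfl

theorem t0_iv (p : Pm N ρ) (q : Iv N γ) : Iv N (t0 N ρ γ) := fun d hd => by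
  by_cases h : Sc N (fun e => ρ (lo γ d e)) d (γ d)
  · rw [t0, if_pos h, t0, if_pos h]
    exact ⟨hd, rfl⟩
  · rw [t0, if_neg h, t0, if_neg]
    · exact q d hd
    · rw [lo_eq, (q d hd).2, min_comm]
      exact fun k => h (k.symm (p.comp (cut_iv q q (sb γ) _).pm) (q d hd).1)

theorem t0_conn (p : Pm N ρ) (q : Iv N γ) (m : ℕ) :
    ∀ d < N, min d (γ d) < m → Conn N ρ (t0 N ρ γ) d (γ d) := by
  induction m with
  | zero => exact fun _ _ h => absurd h (Nat.not_lt_zero _)
  | succ m ih =>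
    intro d hd h
    by_cases k : Sc N (fun e => ρ (lo γ d e)) d (γ d)
    · refine (k.conn p (cut_iv q q (sb γ) _) hd).le fun a ha => ?_
      unfold cut
      split_ifs with u
      · exact ih a ha (by omega)
      · exact Conn.refl _ _ _ _
    · have := Conn.gam ρ (t0 N ρ γ) hd
      rwa [t0, if_neg k] at this

theorem t0_cnt (p : Pm N ρ) (q : Iv N γ) (m : ℕ) :
    2 * nc N (Sc N (cut γ (t0 N ρ γ) m)) + nc N (Sc N ρ) = nc N (Sc N id) +
      nc N (Sc N fun d => ρ (cut γ γ m d)) + nc N (Sc N (cut γ γ m)) := by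
  have r := t0_iv p q
  induction m with
  | zero =>
    have z : ∀ β, cut γ β 0 = id := fun β => funext fun d => if_neg (Nat.not_lt_zero _)
    rw [z, z, show (fun d => ρ (id d)) = ρ from rfl]
    omega
  | succ m ih =>
    by_cases h : m < N ∧ m < γ m
    · obtain ⟨e0, e1⟩ := cut1 (β := γ) q h.1 h.2 rfl
      obtain ⟨-, a1, a2, a3, -⟩ := edge p (cut_iv q q (sb γ) (m + 1)) h.1 (by omega) e1
      rw [e0] at a2 a3
      have l : lo γ m = cut γ γ m := by rw [lo_eq, min_eq_left h.2.le]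
      by_cases k : Sc N (fun d => ρ (cut γ γ m d)) m (γ m)
      · have := ncg (cut_iv q r t0_sb m).pm (cut0 q r t0_sb fun u => u.2.2 (by rw [t0, l, if_pos k]))
        have := a3 k
        omega
      · obtain ⟨f0, f1⟩ := cut1 (β := t0 N ρ γ) q h.1 h.2 (by rw [t0, l, if_neg k])
        have := (edge p (cut_iv q r t0_sb (m + 1)) h.1 (by omega) f1).2.1
        have := a2 k
        omega
    · have c := cut0 (m := m) q q (sb γ) fun u => h ⟨u.1, u.2.1⟩
      rw [← ncg (cut_iv q r t0_sb m).pm (cut0 q r t0_sb fun u => h ⟨u.1, u.2.1⟩),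
        ← ncg (cut_iv q q (sb γ) m).pm c, ← ncg (f' := fun d => ρ (cut γ γ (m + 1) d))
          (p.comp (cut_iv q q (sb γ) m).pm) fun d hd => by rw [c d hd]]
      exact ih

theorem t0_le (G : GnK) (p : Pm N ρ) (q : Iv N γ) {g : ℕ} (h : gen N ρ γ ≤ 2 * g) :
    (∀ x y, Conn N ρ (t0 N ρ γ) x y ↔ Conn N ρ γ x y) ∧
      nc N (Sc N fun d => ρ (t0 N ρ γ d)) ≤ nc N (Conn N ρ (t0 N ρ γ)) + g := by
  have r := t0_iv p q
  have c : ∀ x y, Conn N ρ (t0 N ρ γ) x y ↔ Conn N ρ γ x y := fun x y =>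
    ⟨Conn.mono t0_sb, Conn.le fun a ha => t0_conn p q N a ha (by omega)⟩
  have z : ∀ β, ∀ d < N, cut γ β N d = β d := fun β d hd => if_pos (by omega)
  have k := t0_cnt p q N
  rw [ncg (cut_iv q r t0_sb N).pm (z _), ncg (cut_iv q q (sb γ) N).pm (z _),
    ncg (f' := fun d => ρ (γ d)) (p.comp (cut_iv q q (sb γ) N).pm) fun d hd => by rw [z _ d hd]] at k
  have k0 := GEN.zero nclK p
  have k1 := G.nonneg p r
  have k2 : nc N (Conn N ρ (t0 N ρ γ)) = nc N (Conn N ρ γ) := nclK.congr fun x _ y _ => c x y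
  have k3 : nc N (Sc N id) = N := cnt_congr (Q := fun _ => True) (fun d hd => ⟨fun _ => trivial,
    fun _ => ⟨trivial, fun e _ u => (GEN.fix (γ := id) (fun _ v => v) hd rfl u).ge⟩⟩) |>.trans
      (by simp [cnt])
  unfold gen at h k1
  unfold nc at *
  exact ⟨c, by omega⟩

theorem one (p : Pm N ρ) (q : Iv N β) (h : ∀ d < N, Sc N (fun d => ρ (β d)) d (β d)) (ha : a < N)
    (k : Conn N ρ β a b) : Sc N (fun d => ρ (β d)) a b := by
  have f := p.comp q.pm
  have st : ∀ x y, x < N → Sc N (fun d => ρ (β d)) x y →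
      (Sc N (fun d => ρ (β d)) a x ↔ Sc N (fun d => ρ (β d)) a y) := fun x y hx u =>
    ⟨fun v => v.trans f.1 ha u, fun v => v.trans f.1 ha (u.symm f hx)⟩
  refine (Conn.ind (r := fun x y => Sc N (fun d => ρ (β d)) a x ↔ Sc N (fun d => ρ (β d)) a y)
    ⟨fun _ => Iff.rfl, Iff.symm, Iff.trans⟩ (fun x hx => st _ _ hx ?_)
    (fun x hx => st _ _ hx (h x hx)) k).1 (Sc.refl _ ha)
  have := (h x hx).trans f.1 hx (Sc.step f.1 (q x hx).1)
  rwa [(q x hx).2] at this

theorem eqc (p : Pm N ρ) (q : Iv N β) (h : nc N (Sc N fun d => ρ (β d)) ≤ nc N (Conn N ρ β))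
    (ha : a < N) (k : Conn N ρ β a b) : Sc N (fun d => ρ (β d)) a b := by
  have f := p.comp q.pm
  have hb := Conn.lt p q k ha
  have mn : ∀ x < N, ∃ u < N, Sc N (fun d => ρ (β d)) x u ∧ ∀ e < N, Conn N ρ β u e → u ≤ e :=
    fun x hx => by
      obtain ⟨h1, h2⟩ := lst_spec (P := Sc N (fun d => ρ (β d)) x) ⟨x, hx, Sc.refl _ hx⟩
      refine ⟨_, h1, h2, by_contra fun u => absurd h (not_le.2 (cnt_lt
        (fun d hd v => ⟨trivial, fun e he w => v.2 e he (w.conn p q hd)⟩) h1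
        ⟨trivial, fun e he w => lst_le he (h2.trans f.1 hx w)⟩ fun v => u v.2))⟩
  obtain ⟨u, u1, u2, u3⟩ := mn a ha
  obtain ⟨v, v1, v2, v3⟩ := mn b hb
  have c := ((u2.conn p q ha).symm.trans k).trans (v2.conn p q hb)
  obtain rfl : u = v := le_antisymm (u3 v v1 c) (v3 u u1 c.symm)
  exact u2.trans f.1 ha (v2.symm f hb)

theorem gtab {n e : ℕ} (f : ℕ → ℕ) (h : e < n) : gt (tab n f) e = f e := by
  simp [gt, tab, List.getD_eq_getElem?_getD, h]

theorem table (p : Pm N ρ) (q : Iv N τ) (g i : ℕ) (hi : i ≤ g) {δ : ℕ → ℕ}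
    (hδ : δ = dl g τ (tbl N g ρ τ i)) : (∀ e < g, i ≤ e → gt (tbl N g ρ τ i) e = N) ∧ Iv N δ ∧
      (∀ x y, Conn N ρ τ x y → Conn N ρ δ x y) ∧ ((∀ d < N, Sc N (fun d => ρ (δ d)) d (δ d)) ∨
        nc N (Sc N fun d => ρ (δ d)) + i ≤ nc N (Sc N fun d => ρ (τ d))) := by
  induction i generalizing δ with
  | zero =>
    have t : ∀ e < g, gt (tbl N g ρ τ 0) e = N := fun e he => gtab _ he
    have e : ∀ d < N, τ d = δ d := fun d hd => by
      rw [hδ, dl, if_neg]
      rintro ⟨i, hi, u⟩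
      have := (q d hd).1
      rw [t i hi] at u
      omega
    exact ⟨fun e he _ => t e he, fun d hd => by rw [← e d hd, ← e _ (q d hd).1]; exact q d hd,
      fun _ _ => Conn.mono fun d hd => Or.inr (e d hd),
      Or.inr (ncg (p.comp q.pm) fun d hd => by rw [e d hd]).ge⟩
  | succ i ih =>
    obtain ⟨δ0, h0⟩ : ∃ δ0, δ0 = dl g τ (tbl N g ρ τ i) := ⟨_, rfl⟩
    obtain ⟨i1, i2, i3, i4⟩ := ih (by omega) h0
    have t : ∀ e < g, gt (tbl N g ρ τ (i + 1)) e =
        if e = i then nb N ρ δ0 else gt (tbl N g ρ τ i) e := fun e he => h0 ▸ gtab _ he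
    have e : ∀ d < N, δ d = if nb N ρ δ0 = d ∨ nb N ρ δ0 = τ d then d else δ0 d := fun d hd => by
      have := (q d hd).1
      rw [hδ, dl]
      by_cases k : nb N ρ δ0 = d ∨ nb N ρ δ0 = τ d
      · rw [if_pos k, if_pos ⟨i, hi, by rwa [t i hi, if_pos rfl]⟩]
      · rw [if_neg k, h0, dl]
        refine if_congr (exists_congr fun j => and_congr_right fun hj => ?_) rfl rfl
        rw [t j hj]
        split_ifs with u
        · rw [i1 j hj u.ge]
          exact iff_of_false k (by omega)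
        · rfl
    refine ⟨fun j hj u => by rw [t j hj, if_neg (by omega), i1 j hj (by omega)], ?_⟩
    obtain ⟨n1, n2⟩ := lst_spec (n := N + 1)
      (P := fun d => d = N ∨ ¬Sc N (fun e => ρ (δ0 e)) d (δ0 d)) ⟨N, by omega, Or.inl rfl⟩
    change nb N ρ δ0 < _ at n1
    change nb N ρ δ0 = _ ∨ ¬Sc N _ (nb N ρ δ0) (δ0 (nb N ρ δ0)) at n2
    by_cases ha : nb N ρ δ0 < N
    · generalize nb N ρ δ0 = a at *
      have ns := n2.resolve_left ha.ne
      have ne : δ0 a ≠ a := fun u => ns (by rw [u]; exact Sc.refl _ ha)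
      have ea : δ0 a = τ a := by
        rw [h0, dl] at ne ⊢
        split_ifs at ne ⊢
        exacts [absurd rfl ne, rfl]
      have e' : ∀ d < N, δ d = del δ0 a d := fun d hd => by
        rw [e d hd, del, ea]
        exact if_congr (or_congr eq_comm ⟨fun u => by rw [u, (q d hd).2],
          fun u => by rw [u, (q a ha).2]⟩) rfl rfl
      obtain ⟨a0, -, -, a3, a4⟩ := edge p i2 ha ne e'
      have c := (a4 ns).conn p a0 ha
      refine ⟨a0, fun x y u => (i3 x y u).le fun d hd => ?_, Or.inr ?_⟩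
      · by_cases k : d = a ∨ d = δ0 a
        · rcases k with rfl | rfl
          · exact c
          · rw [(i2 a ha).2]; exact c.symm
        · have := Conn.gam ρ δ hd
          rwa [e' d hd, del, if_neg k] at this
      · have := i4.resolve_left fun u => ns (u a ha)
        have := a3 (a4 ns)
        omega
    · have e' : ∀ d < N, δ0 d = δ d := fun d hd => by
        have := (q d hd).1
        rw [e d hd, if_neg (by omega)]
      refine ⟨fun d hd => by rw [← e' d hd, ← e' _ (i2 d hd).1]; exact i2 d hd,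
        fun x y u => (i3 x y u).mono fun d hd => Or.inr (e' d hd), Or.inl fun d hd => ?_⟩
      rw [← e' d hd]
      refine Sc.congr (p.comp i2.pm).1 (fun d hd => by rw [e' d hd]) hd (by_contra fun u => ha ?_)
      exact (lst_le (n := N + 1) (by omega) (Or.inr u)).trans_lt hd

end CnP

open CnP

theorem cnS : GnK → CnS := by
  intro G N g ρ γ p q h a ha b
  obtain ⟨c, k⟩ := t0_le G p q h
  obtain ⟨-, i2, i3, i4⟩ := table p (t0_iv p q) g g le_rfl rfl
  have s : Sb N (dl g (t0 N ρ γ) (tbl N g ρ (t0 N ρ γ) g)) (t0 N ρ γ) := fun d _ => by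
    unfold dl
    split_ifs
    exacts [Or.inl rfl, Or.inr rfl]
  refine ⟨fun u => (c a b).1 ((Sc.conn p i2 ha u).mono s), fun u => ?_⟩
  have v := i3 a b ((c a b).2 u)
  rcases i4 with i4 | i4
  · exact one p i2 i4 ha v
  · refine eqc p i2 ?_ ha v
    have : nc N (Conn N ρ (dl g (t0 N ρ γ) (tbl N g ρ (t0 N ρ γ) g))) =
        nc N (Conn N ρ (t0 N ρ γ)) := nclK.congr fun x _ y _ => ⟨Conn.mono s, i3 x y⟩
    omega

end Pool.Agent.MP_1a6d78_lc.GN
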