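import Pool.Agent.MP_1a6d78_lc.GN.Spec

/-! PROJECT GN, row DROP: contraction of the cells of `Y` one by one. -/

namespace Pool.Agent.MP_1a6d78_lc.GN

open Classical ED PR PL

namespace Drop

variable {n m c d : ℕ} {σ : ℕ → ℕ} {A B G Y U : ℕ → Prop}

/-- The contraction of `c` lowers the genus. -/
def Dp (n : ℕ) (σ : ℕ → ℕ) (G Y : ℕ → Prop) (c : ℕ) : Prop :=
  Y c ∧ ¬Sc (2 * n) (fc σ fun e => Y e ∧ e ≤ c) (2 * c) (2 * c + 1) ∧
    Conn (2 * n) (fc σ fun e => Y e ∧ e ≤ c) (ed fun e => G e ∧ ¬(Y e ∧ e ≤ c)) (2 * c) (2 * c + 1)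

theorem ed_sw (h1 : ¬A m) (h2 : B m) (h : ∀ e, e ≠ m → (A e ↔ B e)) (d : ℕ) :
    ed A (sw (2 * m) (2 * m + 1) d) = ed B d := by
  have e0 : 2 * m / 2 = m := by omega
  have e1 : (2 * m + 1) / 2 = m := by omega
  unfold sw
  split_ifs with u v
  · rw [u, ed_neg (by rwa [e1]), ed_pos (by rwa [e0]), fl0]
  · rw [v, ed_neg (by rwa [e0]), ed_pos (by rwa [e1]), fl1]
  · exact ed_cg (h _ (by omega))

theorem key (K : GnK) (p : Pm (2 * n) σ) (h : ∀ c < n, Y c → G c) (m : ℕ) (hm : m ≤ n) :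
    gn n σ G = gn n (fc σ fun e => Y e ∧ e < m) (fun e => G e ∧ ¬(Y e ∧ e < m)) +
      2 * cnt m (Dp n σ G Y) := by
  induction m with
  | zero =>
    have : cnt 0 (Dp n σ G Y) = 0 := rfl
    rw [this, Nat.cast_zero, mul_zero, add_zero]
    exact K.cg p (ed_iv n G) (fun d _ => by rw [fc, ed_neg (by simp)]) fun d _ => ed_cg (by simp)
  | succ m ih =>
    rw [ih (by omega), cnt_succ]
    simp only [Nat.lt_succ_iff]
    by_cases u : Y m
    · have := K.con1 (a := 2 * m) (b := 2 * m + 1) (fc_pm p fun e => Y e ∧ e < m)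
        (ed_iv n fun e => G e ∧ ¬(Y e ∧ e ≤ m)) (by omega) (by omega) (by omega)
        (ed_neg fun v => v.2 (by rw [show 2 * m / 2 = m by omega]; exact ⟨u, le_rfl⟩))
        (ed_neg fun v => v.2 (by rw [show (2 * m + 1) / 2 = m by omega]; exact ⟨u, le_rfl⟩))
      have e1 : (fun d => ed (fun e => G e ∧ ¬(Y e ∧ e ≤ m)) (sw (2 * m) (2 * m + 1) d)) =
          ed fun e => G e ∧ ¬(Y e ∧ e < m) :=
        funext (ed_sw (fun v => v.2 ⟨u, le_rfl⟩) ⟨h m (by omega) u, fun v => by omega⟩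
          fun e v => by rw [show e ≤ m ↔ e < m by omega])
      have e2 : (fun d => fc σ (fun e => Y e ∧ e < m) (sw (2 * m) (2 * m + 1) d)) =
          fc σ fun e => Y e ∧ e ≤ m :=
        funext fun d => congrArg σ (ed_sw (fun v => by omega) ⟨u, le_rfl⟩
          (fun e v => by rw [show e ≤ m ↔ e < m by omega]) d)
      rw [e1, e2] at this
      unfold gn
      rw [this]
      by_cases v : Dp n σ G Y m
      · rw [if_pos v, if_pos ⟨v.2.2, v.2.1⟩]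
        push_cast
        ring
      · rw [if_neg v, if_neg fun w => v ⟨u, w.2, w.1⟩]
        push_cast
        ring
    · have e : ∀ e, Y e ∧ e ≤ m ↔ Y e ∧ e < m := fun e =>
        and_congr_right fun v => ⟨fun w => lt_of_le_of_ne w fun x => u (x ▸ v), le_of_lt⟩
      rw [if_neg fun w => u w.1]
      simp only [e, add_zero]

theorem u_ed (hY : Cd (2 * n) U (ed Y)) (h : ∀ c, A c → Y c) (hd : d < 2 * n) :
    U (ed A d) ↔ U d := by
  by_cases u : A (d / 2)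
  · rw [ed_pos u, ← ed_pos (h _ u)]
    exact hY d hd
  · rw [ed_neg u]

theorem u_fc (hσ : Cd (2 * n) U σ) (hY : Cd (2 * n) U (ed Y)) (h : ∀ c, A c → Y c)
    (hd : d < 2 * n) : U (fc σ A d) ↔ U d :=
  (hσ _ (ed_lt A hd)).trans (u_ed hY h hd)

theorem off (hY : Cd (2 * n) U (ed Y)) (hd : d < 2 * n) (u : ¬U d) :
    fc σ (fun e => (Y e ∧ ¬U (2 * e)) ∧ e ≤ c) d = fc σ (fun e => Y e ∧ e ≤ c) d := by
  refine congrArg σ (ed_cg (and_congr_left fun _ => and_iff_left_of_imp fun v w => u ?_))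
  have := hY d hd
  rw [ed_pos v, fl] at this
  split_ifs at this with e
  · rwa [show 2 * (d / 2) = d by omega] at w
  · exact this.1 (by rwa [show 2 * (d / 2) = d - 1 by omega] at w)

theorem lift (p : Pm (2 * n) σ) (hσ : Cd (2 * n) U σ) (hY : Cd (2 * n) U (ed Y)) (hc : c < n)
    (h : Dp n σ (fun c => G c ∧ ¬U (2 * c) ∧ ¬U (2 * c + 1)) (fun c => Y c ∧ ¬U (2 * c)) c) :
    Dp n σ G Y c := by
  obtain ⟨⟨h1, h2⟩, h3, h4⟩ := h
  have q := fc_pm p fun e => (Y e ∧ ¬U (2 * e)) ∧ e ≤ c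
  have a0 : 2 * c < 2 * n := by omega
  refine ⟨h1, fun s => h3 (Sc.ind (fc_pm p _).1 (Q := fun d => ¬U d ∧ Sc _ _ _ d) a0
    ⟨h2, Sc.refl _ a0⟩ (fun d hd k => ⟨fun w => k.1 ((u_fc hσ hY (fun _ v => v.1) hd).1 w),
      off hY hd k.1 ▸ k.2.trans q.1 a0 (Sc.step q.1 hd)⟩) s).2, ?_⟩
  refine (Conn.ind (r := fun x y => (U x ↔ U y) ∧ (¬U x → Conn _ _ _ x y))
    ⟨fun x => ⟨Iff.rfl, fun _ => Conn.refl _ _ _ x⟩,
      fun k => ⟨k.1.symm, fun v => (k.2 fun w => v (k.1.1 w)).symm⟩,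
      fun k l => ⟨k.1.trans l.1, fun v => (k.2 v).trans (l.2 fun w => v (k.1.2 w))⟩⟩
    (fun a ha => ⟨(u_fc hσ hY (fun _ v => v.1.1) ha).symm, fun v => ?_⟩) (fun a ha => ?_) h4).2 h2
  · rw [off hY ha v]
    exact Conn.rho _ _ ha
  · by_cases v : (G (a / 2) ∧ ¬U (2 * (a / 2)) ∧ ¬U (2 * (a / 2) + 1)) ∧
        ¬((Y (a / 2) ∧ ¬U (2 * (a / 2))) ∧ a / 2 ≤ c)
    · have w : ∀ x, x / 2 = a / 2 → ¬U x := fun x e => by
        rcases (show x = 2 * (a / 2) ∨ x = 2 * (a / 2) + 1 by omega) with e | e <;> rw [e]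
        exacts [v.1.2.1, v.1.2.2]
      refine ⟨iff_of_false (w a rfl) (w _ (ed_div _ a)), fun _ => ?_⟩
      rw [ed_cg (B := fun e => G e ∧ ¬(Y e ∧ e ≤ c))
        (iff_of_true v ⟨v.1.1, fun x => v.2 ⟨⟨x.1, v.1.2.1⟩, x.2⟩⟩)]
      exact Conn.gam _ _ ha
    · rw [ed_neg v]
      exact ⟨Iff.rfl, fun _ => Conn.refl _ _ _ a⟩

end Drop

open Drop in
theorem drS : GnK → DrS := by
  intro K n σ G Y p h
  refine ⟨?_, fun U hσ hY hd => ?_⟩
  · have := K.nonneg (fc_pm p fun e => Y e ∧ e < n) (ed_iv n fun e => G e ∧ ¬(Y e ∧ e < n))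
    rw [key K p (fun c _ => h c) n le_rfl]
    exact le_add_of_nonneg_left this
  · rw [key (Y := fun c => Y c ∧ ¬U (2 * c)) K p (fun c hc v => ⟨h c v.1, v.2, fun w => v.2
      ((hY _ (by omega)).1 (by
        rwa [ed_pos (by rw [show 2 * c / 2 = c by omega]; exact v.1), fl0]))⟩) n le_rfl]
    have : cnt n (Dp n σ (fun c => G c ∧ ¬U (2 * c) ∧ ¬U (2 * c + 1))
        fun c => Y c ∧ ¬U (2 * c)) = 0 :=
      Finset.card_eq_zero.2 (Finset.filter_eq_empty_iff.2 fun c hc v =>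
        v.1.2 (hd c (Finset.mem_range.1 hc) (lift p hσ hY (Finset.mem_range.1 hc) v)))
    rw [this, Nat.cast_zero, mul_zero, add_zero]
    exact K.cg (fc_pm p _) (ed_iv n _)
      (fun d hd => congrArg σ (ed_cg (and_iff_left (by omega)))) fun d hd =>
      ed_cg (and_congr_right fun v => not_congr ⟨fun w => w.1.1, fun w => ⟨⟨w, v.2.1⟩, by omega⟩⟩)

end Pool.Agent.MP_1a6d78_lc.GN
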