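import Pool.Agent.MP_1a6d78_lc.GN.Spec

/-! PROJECT GN, row GENA: the genus under changes of edges. -/

namespace Pool.Agent.MP_1a6d78_lc.GN

open Classical ED PR PL

namespace GenA

variable {N a b : ℕ} {ρ ρ' γ γ' β : ℕ → ℕ}

theorem cle (h1 : ∀ x < N, Conn N ρ' γ' x (ρ x)) (h2 : ∀ x < N, Conn N ρ' γ' x (γ x))
    (h : Conn N ρ γ a b) : Conn N ρ' γ' a b :=
  Conn.ind ⟨Conn.refl N ρ' γ', Conn.symm, Conn.trans⟩ h1 h2 h

theorem ccg (e : ∀ d < N, ρ d = ρ' d) (e' : ∀ d < N, γ d = γ' d) :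
    Conn N ρ γ a b ↔ Conn N ρ' γ' a b :=
  ⟨cle (fun x k => (e x k).symm ▸ Conn.rho ρ' γ' k) fun x k => (e' x k).symm ▸ Conn.gam ρ' γ' k,
    cle (fun x k => e x k ▸ Conn.rho ρ γ k) fun x k => e' x k ▸ Conn.gam ρ γ k⟩

theorem cdu (q : Iv N γ) : Conn N (fun d => ρ (γ d)) γ a b ↔ Conn N ρ γ a b := by
  refine ⟨cle (fun x k => (Conn.gam ρ γ k).trans (Conn.rho ρ γ (q x k).1))
    fun x k => Conn.gam ρ γ k, cle (fun x k => ?_) fun x k => Conn.gam _ γ k⟩
  have h := Conn.rho (fun d => ρ (γ d)) γ (q x k).1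
  rw [(q x k).2] at h
  exact (Conn.gam _ γ k).trans h

theorem cg (p : Pm N ρ) (q : Iv N γ) (e : ∀ d < N, ρ d = ρ' d) (e' : ∀ d < N, γ d = γ' d) :
    gen N ρ γ = gen N ρ' γ' := by
  have h1 : ncl N (fun _ => True) (Conn N ρ γ) = ncl N (fun _ => True) (Conn N ρ' γ') :=
    nclK.congr fun _ _ _ _ => ccg e e'
  have h2 : ncl N (fun _ => True) (Sc N γ) = ncl N (fun _ => True) (Sc N γ') :=
    nclK.congr (GEN.sc_congr q.pm.1 e')
  have h3 : ncl N (fun _ => True) (Sc N fun d => ρ (γ d)) =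
      ncl N (fun _ => True) (Sc N fun d => ρ' (γ' d)) :=
    nclK.congr (GEN.sc_congr (p.comp q.pm).1 fun d k => by rw [e _ (q d k).1, e' d k])
  have h4 : ncl N (fun _ => True) (Sc N ρ) = ncl N (fun _ => True) (Sc N ρ') :=
    nclK.congr (GEN.sc_congr p.1 e)
  unfold gen
  rw [h1, h2, h3, h4]

theorem dual (p : Pm N ρ) (q : Iv N γ) : gen N (fun d => ρ (γ d)) γ = gen N ρ γ := by
  have h1 : ncl N (fun _ => True) (Conn N (fun d => ρ (γ d)) γ) =
      ncl N (fun _ => True) (Conn N ρ γ) := nclK.congr fun _ _ _ _ => cdu q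
  have h2 : ncl N (fun _ => True) (Sc N ρ) =
      ncl N (fun _ => True) (Sc N fun d => ρ (γ (γ d))) :=
    nclK.congr (GEN.sc_congr p.1 fun d k => by rw [(q d k).2])
  unfold gen
  beta_reduce
  rw [h1, h2]
  ring

/-- Induction: add the edges of `β` one by one. -/
theorem up {P : (ℕ → ℕ) → Prop} (hβ : Iv N β) (h0 : ∀ γ, Iv N γ → (∀ d < N, γ d = β d) → P γ)
    (h1 : ∀ γ a, Iv N γ → a < N → γ a = a → γ (β a) = β a → a ≠ β a →
      P (fun d => γ (sw a (β a) d)) → P γ) : ∀ γ, Iv N γ → Sb N γ β → P γ := by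
  intro γ
  induction hm : cnt N (fun d => γ d ≠ β d) using Nat.strong_induction_on generalizing γ with
  | _ m ih =>
    intro q s
    by_cases h : ∀ d < N, γ d = β d
    · exact h0 γ q h
    simp only [not_forall] at h
    obtain ⟨a, ha, h⟩ := h
    have ea : γ a = a := (s a ha).resolve_right h
    have eb := GEN.fix_partner q hβ s ha ea
    refine h1 γ a q ha ea eb (fun e => h (ea.trans e))
      (ih _ ?_ _ rfl (q.add ha (hβ a ha).1 ea eb) (GEN.add_sb q hβ s ha ea))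
    rw [← hm]
    refine cnt_lt (a := a) (fun d _ k e => k ?_) ha h (by simp [sw, eb])
    by_cases h1 : d = a
    · exact absurd (h1 ▸ e) h
    by_cases h2 : d = β a
    · subst h2
      simp [sw, h1, ea, (hβ a ha).2]
    simpa [sw, h1, h2] using e

theorem mono (p : Pm N ρ) (q : Iv N γ) (hβ : Iv N β) (s : Sb N γ β) : gen N ρ γ ≤ gen N ρ β :=
  GEN.mono swapK nclK p hβ _ γ rfl q s

theorem nonneg (p : Pm N ρ) (q : Iv N γ) : 0 ≤ gen N ρ γ :=
  GEN.zero nclK p ▸ mono p (fun _ k => ⟨k, rfl⟩) q fun _ _ => Or.inl rfl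

theorem even (p : Pm N ρ) (q : Iv N β) : gen N ρ β % 2 = 0 := by
  have h := up (P := fun γ => gen N ρ γ % 2 = gen N ρ β % 2) q
    (fun γ g e => by rw [GEN.congr nclK p g e]) (fun γ a g ha ea eb ne ih => by
      obtain ⟨h1, h2⟩ := GEN.one swapK nclK p g ha (q a ha).1 ne ea eb
      by_cases k : Sc N (fun d => ρ (γ d)) a (β a) ∨ ¬Conn N ρ γ a (β a)
      · rw [← h1 k]; exact ih
      · have := h2 (fun e => k (Or.inl e)) (by_contra fun e => k (Or.inr e))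
        omega) id (fun _ k => ⟨k, rfl⟩) fun _ _ => Or.inl rfl
  rw [GEN.zero nclK p] at h
  omega

theorem com (q : Iv N γ) (ea : γ a = a) (eb : γ b = b) {d : ℕ} (hd : d < N) :
    γ (sw a b (γ d)) = sw a b d := by
  by_cases h1 : d = a
  · simp [sw, h1, ea, eb]
  by_cases h2 : d = b
  · subst h2; simp [sw, h1, ea, eb]
  have k1 : γ d ≠ a := fun e => h1 (by rw [← (q d hd).2, e, ea])
  have k2 : γ d ≠ b := fun e => h2 (by rw [← (q d hd).2, e, eb])
  simp [sw, h1, h2, k1, k2, q d hd]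

theorem con1 (p : Pm N ρ) (q : Iv N γ) (ha : a < N) (hb : b < N) (ne : a ≠ b) (ea : γ a = a)
    (eb : γ b = b) : gen N ρ (fun d => γ (sw a b d)) = gen N (fun d => ρ (sw a b d)) γ +
      if Conn N (fun d => ρ (sw a b d)) γ a b ∧ ¬Sc N (fun d => ρ (sw a b d)) a b then 2 else 0 := by
  have q' := q.add ha hb ea eb
  have p' : Pm N fun d => ρ (γ (sw a b d)) := p.comp q'.pm
  have e : ∀ d < N, ρ (γ (sw a b (γ d))) = ρ (sw a b d) := fun d k => by rw [com q ea eb k]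
  obtain ⟨h1, h2⟩ := GEN.one swapK nclK p' q ha hb ne ea eb
  have k1 : gen N (fun d => ρ (γ (sw a b d))) γ = gen N (fun d => ρ (sw a b d)) γ :=
    (dual p' q).symm.trans (cg (p'.comp q.pm) q e fun _ _ => rfl)
  have k2 : Conn N (fun d => ρ (γ (sw a b d))) γ a b ↔ Conn N (fun d => ρ (sw a b d)) γ a b :=
    (cdu (ρ := fun d => ρ (γ (sw a b d))) q).symm.trans (ccg e fun _ _ => rfl)
  have k3 : Sc N (fun d => ρ (γ (sw a b (γ d)))) a b ↔ Sc N (fun d => ρ (sw a b d)) a b :=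
    GEN.sc_congr (p'.comp q.pm).1 e a ha b hb
  rw [← dual p q']
  split_ifs with h
  · rw [← k1]
    exact h2 (fun u => h.2 (k3.1 u)) (k2.2 h.1)
  · rw [add_zero, ← k1]
    refine h1 (or_iff_not_imp_left.2 fun u v => h ⟨k2.1 v, fun w => u (k3.2 w)⟩)

theorem conm {n : ℕ} {σ : ℕ → ℕ} {S Z : ℕ → Prop} (p : Pm (2 * n) σ) (h : ∀ c, S c → ¬Z c) :
    gn n (fc σ S) Z ≤ gn n σ fun c => S c ∨ Z c := by
  have q := ed_iv n fun c => S c ∨ Z c
  have p' := p.comp q.pm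
  have k1 : gn n (fc σ S) Z = gen (2 * n) (fun d => σ (ed (fun c => S c ∨ Z c) d)) (ed Z) :=
    (cg (fc_pm p S) (ed_iv n Z) (fun d _ => by rw [← ed_or h, ed_ed, fc]) fun _ _ => rfl).trans
      (dual p' (ed_iv n Z))
  rw [k1]
  exact (mono p' (ed_iv n Z) q (ed_sb fun _ => Or.inr)).trans (dual p q).le

theorem c1 (p : Pm N ρ) (q : Iv N γ) (ha : a < N) (hb : b < N) (ea : γ a = a) (eb : γ b = b)
    (h : ¬Conn N ρ γ a b) : nc N (Conn N ρ fun d => γ (sw a b d)) + 1 = nc N (Conn N ρ γ) :=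
  nclK.merge (Conn.eqv N ρ γ) ha hb trivial trivial h (fun _ _ _ _ _ _ => trivial)
    (nclK.add p q ha hb ea eb)

theorem c2 (p : Pm N ρ) (q : Iv N γ) (ha : a < N) (hb : b < N) (ea : γ a = a) (eb : γ b = b)
    (h : Conn N ρ γ a b) : nc N (Conn N ρ fun d => γ (sw a b d)) = nc N (Conn N ρ γ) :=
  nclK.congr fun x hx y hy => (nclK.add p q ha hb ea eb x hx y hy).trans
    ⟨fun k => k.elim id fun k => k.elim (fun k => k.1.trans (h.trans k.2))
      fun k => k.1.trans (h.symm.trans k.2), Or.inl⟩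

theorem sub (p : Pm N ρ) (p' : Pm N ρ') (q : Iv N γ) (hβ : Iv N β) (s : Sb N γ β) :
    (∀ x < N, Conn N ρ γ x (ρ' x)) →
      nc N (Conn N ρ γ) + nc N (Conn N ρ' β) ≤ nc N (Conn N ρ' γ) + nc N (Conn N ρ β) := by
  refine up (P := fun γ => (∀ x < N, Conn N ρ γ x (ρ' x)) →
    nc N (Conn N ρ γ) + nc N (Conn N ρ' β) ≤ nc N (Conn N ρ' γ) + nc N (Conn N ρ β)) hβ
    (fun γ _ e _ => ?_) (fun γ a g ha ea eb _ ih h => ?_) γ q s
  · have h1 : nc N (Conn N ρ γ) = nc N (Conn N ρ β) :=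
      nclK.congr fun _ _ _ _ => ccg (fun _ _ => rfl) e
    have h2 : nc N (Conn N ρ' γ) = nc N (Conn N ρ' β) :=
      nclK.congr fun _ _ _ _ => ccg (fun _ _ => rfl) e
    omega
  · have hb := (hβ a ha).1
    have k := ih fun x hx => (nclK.add p g ha hb ea eb x hx _ (p'.1 x hx)).2 (Or.inl (h x hx))
    by_cases u : Conn N ρ' γ a (β a)
    · have k1 := c2 p' g ha hb ea eb u
      have k2 := c2 p g ha hb ea eb (cle h (fun _ v => Conn.gam ρ γ v) u)
      omega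
    · have k1 := c1 p' g ha hb ea eb u
      by_cases v : Conn N ρ γ a (β a)
      · have k2 := c2 p g ha hb ea eb v
        omega
      · have k2 := c1 p g ha hb ea eb v
        omega

end GenA

theorem gnA : GnA :=
  ⟨GenA.nonneg, GenA.even, GenA.dual, GenA.cg, GenA.mono, GenA.con1, GenA.conm, GenA.sub⟩

end Pool.Agent.MP_1a6d78_lc.GN
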