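import Pool.Agent.MP_1a6d78_lc.GN.Spec

/-! PROJECT GN: the genus of unions of components. -/

namespace Pool.Agent.MP_1a6d78_lc.GN

open Classical ED PR PL

namespace GenB

variable {N a : ℕ} {ρ γ γ' f g : ℕ → ℕ} {K K' : ℕ → Prop} {r r' : ℕ → ℕ → Prop}

/-- The part of the genus that lives on `K`. -/
noncomputable def gl (N : ℕ) (ρ γ : ℕ → ℕ) (K : ℕ → Prop) : ℤ :=
  2 * ncl N K (Conn N ρ γ) + cnt N K - ncl N K (Sc N γ) - ncl N K (Sc N fun d => ρ (γ d)) -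
    ncl N K (Sc N ρ)

theorem ncl_cg (h : ∀ x < N, K x → ∀ y, r x y ↔ r' x y) : ncl N K r = ncl N K r' :=
  cnt_congr fun x hx => and_congr_right fun k => forall₂_congr fun y _ => by rw [h x hx k]

theorem ncl_cgK (h : ∀ x < N, K x ↔ K' x) : ncl N K r = ncl N K' r :=
  cnt_congr fun x hx => and_congr_left' (h x hx)

theorem ncl_sp (N : ℕ) (K Q : ℕ → Prop) (r : ℕ → ℕ → Prop) :
    ncl N K r = ncl N (fun d => Q d ∧ K d) r + ncl N (fun d => ¬Q d ∧ K d) r := by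
  unfold ncl
  simp only [and_assoc]
  exact cnt_split _ _ _

theorem gl_cgK (h : ∀ x < N, K x ↔ K' x) : gl N ρ γ K = gl N ρ γ K' := by
  simp only [gl, ncl_cgK h, cnt_congr h]

theorem gl_sp (K Q : ℕ → Prop) :
    gl N ρ γ K = gl N ρ γ (fun d => Q d ∧ K d) + gl N ρ γ fun d => ¬Q d ∧ K d := by
  simp only [gl, ncl_sp N K Q, cnt_split N K Q]
  push_cast
  ring

theorem gen_top : gen N ρ γ = gl N ρ γ fun _ => True := by simp [gen, gl, cnt]

theorem gen_eq (K : ℕ → Prop) : gen N ρ γ = gl N ρ γ K + gl N ρ γ fun d => ¬K d := by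
  rw [gen_top, gl_sp _ K]
  simp only [and_true]

theorem sc_le (hf : ∀ d < N, f d < N) (hg : ∀ d < N, g d < N) (c : Cd N K f)
    (e : ∀ d < N, K d → f d = g d) (ha : a < N) (k : K a) {b : ℕ} (h : Sc N f a b) : Sc N g a b :=
  (Sc.ind (Q := fun d => K d ∧ Sc N g a d) hf ha ⟨k, Sc.refl g ha⟩ (fun d hd u =>
    ⟨(c d hd).2 u.1, u.2.trans hg ha (e d hd u.1 ▸ Sc.step hg hd)⟩) h).2

theorem conn_le (p : Pm N ρ) (q : Iv N γ) (c : Cd N K ρ) (c' : Cd N K γ)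
    (e : ∀ d < N, K d → γ d = γ' d) (ha : a < N) (k : K a) {b : ℕ} (h : Conn N ρ γ a b) :
    Conn N ρ γ' a b :=
  (Conn.ind (r := fun x y => (x < N ∧ K x ↔ y < N ∧ K y) ∧ (x < N ∧ K x → Conn N ρ γ' x y))
    ⟨fun x => ⟨Iff.rfl, fun _ => Conn.refl _ _ _ x⟩,
      fun u => ⟨u.1.symm, fun v => (u.2 (u.1.2 v)).symm⟩,
      fun u v => ⟨u.1.trans v.1, fun w => (u.2 w).trans (v.2 (u.1.1 w))⟩⟩
    (fun d hd => ⟨and_congr (iff_of_true hd (p.1 d hd)) (c d hd).symm, fun _ => Conn.rho _ _ hd⟩)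
    (fun d hd => ⟨and_congr (iff_of_true hd (q d hd).1) (c' d hd).symm,
      fun u => e d hd u.2 ▸ Conn.gam _ _ hd⟩) h).2 ⟨ha, k⟩

theorem gl_cg (p : Pm N ρ) (q : Iv N γ) (q' : Iv N γ') (c : Cd N K ρ) (c' : Cd N K γ)
    (e : ∀ d < N, K d → γ d = γ' d) : gl N ρ γ K = gl N ρ γ' K := by
  have c2 : Cd N K γ' := fun d hd => ⟨fun u => by
    have h1 := (q' d hd).1
    have h2 := (c' _ h1).2 u
    rwa [e _ h1 u, (q' d hd).2] at h2, fun u => e d hd u ▸ (c' d hd).2 u⟩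
  have e' : ∀ d < N, K d → γ' d = γ d := fun d hd u => (e d hd u).symm
  have s : ∀ {f g : ℕ → ℕ}, Pm N f → Pm N g → Cd N K f → Cd N K g → (∀ d < N, K d → f d = g d) →
      ncl N K (Sc N f) = ncl N K (Sc N g) := fun pf pg cf cg h =>
    ncl_cg fun x hx k y => ⟨sc_le pf.1 pg.1 cf h hx k,
      sc_le pg.1 pf.1 cg (fun d hd u => (h d hd u).symm) hx k⟩
  rw [gl, gl, ncl_cg fun x hx k y => ⟨conn_le p q c c' e hx k, conn_le p q' c c2 e' hx k⟩,
    s q.pm q'.pm c' c2 e, s (p.comp q.pm) (p.comp q'.pm)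
      (fun d hd => (c _ (q d hd).1).trans (c' d hd)) (fun d hd => (c _ (q' d hd).1).trans (c2 d hd))
      fun d hd u => by rw [e d hd u]]

theorem gl_id (p : Pm N ρ) (K : ℕ → Prop) : gl N ρ (fun d => d) K = 0 := by
  have h1 : ncl N K (Conn N ρ fun d => d) = ncl N K (Sc N ρ) :=
    ncl_cg fun x hx _ y => ⟨fun h =>
      (Conn.ind (r := fun x y => (x < N ↔ y < N) ∧ (x < N → Sc N ρ x y))
        ⟨fun x => ⟨Iff.rfl, Sc.refl ρ⟩, fun u => ⟨u.1.symm, fun v => (u.2 (u.1.2 v)).symm p (u.1.2 v)⟩,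
          fun u v => ⟨u.1.trans v.1, fun w => (u.2 w).trans p.1 w (v.2 (u.1.1 w))⟩⟩
        (fun d hd => ⟨iff_of_true hd (p.1 d hd), fun _ => Sc.step p.1 hd⟩)
        (fun d _ => ⟨Iff.rfl, Sc.refl ρ⟩) h).2 hx, Sc.conn' _ p hx⟩
  have h2 : ncl N K (Sc N fun d => d) = cnt N K :=
    cnt_congr fun x hx => and_iff_left fun y _ h =>
      Sc.ind (Q := fun d => x ≤ d) (fun _ u => u) hx le_rfl (fun _ _ u => u) h
  rw [gl, h1, h2]
  ring

theorem rs_iv (q : Iv N γ) (c : Cd N K γ) : Iv N (rs K γ) := fun d hd => by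
  unfold rs
  by_cases k : K d
  · rw [if_pos k, if_pos ((c d hd).2 k)]
    exact q d hd
  · rw [if_neg k, if_neg k]
    exact ⟨hd, rfl⟩

theorem cd_not (c : Cd N K f) : Cd N (fun d => ¬K d) f := fun d hd => not_congr (c d hd)

theorem loc (p : Pm N ρ) (q : Iv N γ) (c : Cd N K ρ) (c' : Cd N K γ) :
    gen N ρ (rs K γ) = gl N ρ γ K := by
  rw [gen_eq K, ← gl_cg p q (rs_iv q c') c c' fun d _ u => (if_pos u).symm,
    ← gl_cg (γ := fun d => d) p (fun d hd => ⟨hd, rfl⟩) (rs_iv q c') (cd_not c)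
      (fun _ _ => Iff.rfl) fun d _ u => (if_neg u).symm, gl_id p, add_zero]

theorem cd_rho (a : ℕ) : Cd N (Conn N ρ γ a) ρ := fun _ hd =>
  ⟨fun u => u.trans (Conn.rho ρ γ hd).symm, fun u => u.trans (Conn.rho ρ γ hd)⟩

theorem cd_gam (a : ℕ) : Cd N (Conn N ρ γ a) γ := fun _ hd =>
  ⟨fun u => u.trans (Conn.gam ρ γ hd).symm, fun u => u.trans (Conn.gam ρ γ hd)⟩

theorem cnt_one {P : ℕ → Prop} (h : ∀ x < N, ∀ y < N, P x → P y → x ≤ y) : cnt N P ≤ 1 := by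
  have := cnt_inj (m := 1) (P := P) (Q := fun _ => True) (fun _ => 0)
    (fun _ (_ : _ < N) _ => ⟨one_pos, trivial⟩)
    fun x hx y hy u v _ => le_antisymm (h x hx y hy u v) (h y hy x hx v u)
  exact this.trans (cnt_le _ _)

theorem ncl_one (ha : a < N) : ncl N (Conn N ρ γ a) (Conn N ρ γ) = 1 := by
  refine le_antisymm (cnt_one fun x _ y hy u v => u.2 y hy (u.1.symm.trans v.1)) ?_
  obtain ⟨h1, h2⟩ := lst_spec (P := Conn N ρ γ a) ⟨a, ha, Conn.refl _ _ _ a⟩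
  exact cnt_pos h1 ⟨h2, fun e he u => lst_le he (h2.trans u)⟩

theorem cnt_none {P : ℕ → Prop} (h : ∀ x < N, ¬P x) : cnt N P = 0 := by
  rw [cnt, Finset.card_eq_zero, Finset.filter_eq_empty_iff]
  exact fun x hx => h x (Finset.mem_range.1 hx)

/-- Peel off the components one by one. -/
theorem peel {F : (ℕ → Prop) → Prop}
    (h0 : ∀ K, (∀ a < N, ¬K a) → gl N ρ γ K = 0 → F K)
    (h1 : ∀ K, ∀ a < N, K a → gl N ρ γ K = gl N ρ γ (Conn N ρ γ a) +
      gl N ρ γ (fun d => ¬Conn N ρ γ a d ∧ K d) → F (fun d => ¬Conn N ρ γ a d ∧ K d) → F K) :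
    ∀ K, Cd N K ρ → Cd N K γ → F K := by
  intro K
  induction e : cnt N K using Nat.strong_induction_on generalizing K with | _ m ih => ?_
  intro c c'
  by_cases h : ∃ a < N, K a
  · obtain ⟨a, ha, k⟩ := h
    refine h1 K a ha k ?_ (ih _ (e ▸ cnt_lt (fun _ _ u => u.2) ha k fun u =>
      u.1 (Conn.refl _ _ _ a)) _ rfl (fun d hd => and_congr (not_congr (cd_rho a d hd)) (c d hd))
      fun d hd => and_congr (not_congr (cd_gam a d hd)) (c' d hd))
    rw [gl_sp K (Conn N ρ γ a), gl_cgK (K' := Conn N ρ γ a) fun x _ => and_iff_left_of_imp fun u =>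
      (Conn.ind (r := fun x y => K x ↔ K y) ⟨fun _ => Iff.rfl, Iff.symm, Iff.trans⟩
        (fun d hd => (c d hd).symm) (fun d hd => (c' d hd).symm) u).1 k]
  · have h2 : ∀ a < N, ¬K a := fun a ha k => h ⟨a, ha, k⟩
    have h3 : ∀ r, ncl N K r = 0 := fun r => cnt_none fun x hx u => h2 x hx u.1
    exact h0 K h2 (by simp [gl, h3, cnt_none h2])

end GenB

open GenB in
theorem gnB : GnA → GnB := by
  intro A
  have ev : ∀ {N ρ γ} (a : ℕ), Pm N ρ → Iv N γ → 0 ≤ gl N ρ γ (Conn N ρ γ a) ∧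
      gl N ρ γ (Conn N ρ γ a) % 2 = 0 := fun a p q => by
    rw [← loc p q (cd_rho a) (cd_gam a)]
    exact ⟨A.nonneg p (rs_iv q (cd_gam a)), A.even p (rs_iv q (cd_gam a))⟩
  refine ⟨loc, fun p q c c' => ?_, fun {N ρ γ K} p q c c' => ?_, fun {N ρ γ} p q => ?_⟩
  · rw [loc p q c c', loc p q (cd_not c) (cd_not c'), ← gen_eq]
  · rw [loc p q c c']
    refine peel (N := N) (ρ := ρ) (γ := γ) (F := fun K => (∀ a < N, K a → cnt N (Conn N ρ γ a) + 1 ≤
      ncl N (Conn N ρ γ a) (Sc N γ) + ncl N (Conn N ρ γ a) (Sc N fun d => ρ (γ d)) +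
        ncl N (Conn N ρ γ a) (Sc N ρ)) → gl N ρ γ K = 0) (fun _ _ h _ => h)
      (fun K a ha k e ih h => ?_) K c c'
    have h1 := h a ha k
    have h2 := ev a p q
    rw [e, ih fun b hb u => h b hb u.2]
    rw [gl, ncl_one ha] at h2 ⊢
    omega
  · have := peel (N := N) (ρ := ρ) (γ := γ) (F := fun K => (2 * cnt N (fun a => K a ∧ ps N ρ γ (Conn N ρ γ a) ∧
      ∀ e < a, ¬Conn N ρ γ a e) : ℤ) ≤ gl N ρ γ K)
      (fun K h e => by rw [e, cnt_none fun x hx u => h x hx u.1]; rfl) (fun K a ha k e ih => ?_)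
      (fun _ => True) (fun _ _ => Iff.rfl) fun _ _ => Iff.rfl
    · rw [← gen_top] at this
      simpa only [true_and] using this
    have h2 := ev a p q
    rw [cnt_split N _ (Conn N ρ γ a), e]
    simp only [and_assoc] at ih
    by_cases h : ps N ρ γ (Conn N ρ γ a)
    · have h3 := cnt_one (N := N) (P := fun x => Conn N ρ γ a x ∧ K x ∧ ps N ρ γ (Conn N ρ γ x) ∧
        ∀ e < x, ¬Conn N ρ γ x e) fun x _ y _ u v =>
          not_lt.1 fun l => u.2.2.2 y l (u.1.symm.trans v.1)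
      rw [gl, ncl_one ha] at h2 ⊢
      unfold ps at h
      omega
    · rw [cnt_none (P := fun x => Conn N ρ γ a x ∧ _) fun x _ u => h (by
        rw [show Conn N ρ γ a = Conn N ρ γ x from funext fun y => propext
          ⟨u.1.symm.trans, u.1.trans⟩]
        exact u.2.2.1)]
      omega

end Pool.Agent.MP_1a6d78_lc.GN
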