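import Pool.Agent.MP_1a6d78_lc.GN.Spec

/-! PROJECT GN, row HIS: first facts on histories. -/

namespace Pool.Agent.MP_1a6d78_lc.GN

open Classical ED PR PL

namespace His

variable {n a b c k j L s t : ℕ} {σ σ' : ℕ → ℕ} {A A' T P : ℕ → Prop} {H : Hs}

theorem ed0 (h : A c) : ed A (2 * c) = 2 * c + 1 := by
  rw [ed_pos (by rwa [show 2 * c / 2 = c by omega]), fl0]

/-- Components of cells on cycles are strongly connected. -/
theorem both (p : Pm (2 * n) σ) (h : ∀ c, T c → A c ∧ Rc n σ A (2 * c + 1) (2 * c))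
    (u : Conn (2 * n) σ (ed T) a b) : Rc n σ A a b :=
  (Conn.ind (r := fun x y => Rc n σ A x y ∧ Rc n σ A y x)
    ⟨fun _ => ⟨.refl, .refl⟩, And.symm, fun v w => ⟨v.1.trans w.1, w.2.trans v.2⟩⟩
    (fun _ hx => ⟨Rc.sig A hx, Rc.back p A hx⟩) (fun x hx => by
      by_cases v : T (x / 2)
      · have e := Rc.edge (σ := σ) (show x / 2 < n by omega) (h _ v).1
        rw [ed_pos v]
        obtain ⟨c, rfl | rfl⟩ := Nat.even_or_odd' x
        · rw [show 2 * c / 2 = c by omega] at v e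
          exact (fl0 c).symm ▸ ⟨e, (h c v).2⟩
        · rw [show (2 * c + 1) / 2 = c by omega] at v e
          exact (fl1 c).symm ▸ ⟨(h c v).2, e⟩
      · rw [ed_neg v]
        exact ⟨.refl, .refl⟩) u).1

theorem lift1 (p : Pm (2 * n) σ) (o : Op n σ σ' A A' T) (u : Rc n σ' A' a b) : Rc n σ A a b := by
  induction u with
  | refl => exact .refl
  | tail _ v ih =>
    rcases v with ⟨v, rfl | w⟩
    · exact ih.trans (both p (fun c h => ⟨o.tsub c h, o.cyc c h⟩) (o.con _ v))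
    · exact ih.tail ⟨v, Or.inr ⟨w.1, o.sub _ w.2.1, w.2.2⟩⟩

theorem down1 (o : Op n σ σ' A A' T) (u : Conn (2 * n) σ' (ed A') a b) :
    Conn (2 * n) σ (ed A) a b :=
  Conn.ind ⟨Conn.refl _ _ _, Conn.symm, Conn.trans⟩ (fun d h => (o.con d h).mono (ed_sb o.tsub))
    (fun _ h => (Conn.gam σ _ h).mono (ed_sb o.sub)) u

theorem half (h : a < 2 * n) (u : A (a / 2)) : Conn (2 * n) σ (ed A) (2 * (a / 2)) a := by
  obtain ⟨c, rfl | rfl⟩ := Nat.even_or_odd' a
  · rw [show 2 * c / 2 = c by omega]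
    exact Conn.refl _ _ _ _
  · rw [show (2 * c + 1) / 2 = c by omega] at u ⊢
    exact ed0 u ▸ Conn.gam σ (ed A) (by omega)

theorem cls {N : ℕ} {ρ γ : ℕ → ℕ} (u : Conn N ρ γ a b) : Conn N ρ γ a = Conn N ρ γ b :=
  funext fun _ => propext ⟨u.symm.trans, u.trans⟩

theorem lv (o : H.Ok L) (h : k ≤ L) : Lv H.n (H.σ k) (H.A k) := by
  cases k with
  | zero => exact o.lv
  | succ k => exact (o.op k h).lv

theorem sub (o : H.Ok L) (h : k ≤ L) (hj : j ≤ k) (u : H.A k c) : H.A j c := by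
  induction k, hj using Nat.le_induction with
  | base => exact u
  | succ k _ ih => exact ih (by omega) ((o.op k h).sub c u)

theorem gle (o : H.Ok L) (h : k ≤ L) : gn H.n (H.σ k) (H.A k) ≤ gn H.n (H.σ 0) (H.A 0) := by
  induction k with
  | zero => exact le_rfl
  | succ k ih => exact (o.op k h).gn.trans (ih (by omega))

theorem cA (o : H.Ok L) (h : k ≤ L) (ha : a < 2 * H.n) :
    H.C (H.σ k) (ed (H.A k)) a = Conn (2 * H.n) (H.σ k) (ed (H.A k)) a :=
  funext fun b => propext (o.hc _ _ (lv o h).pm (ed_iv _ _) (gle o h) a ha b)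

theorem c0 (g : GnK) (o : H.Ok L) (h : ∀ c, P c → H.A 0 c) (ha : a < 2 * H.n) :
    H.C (H.σ 0) (ed P) a = Conn (2 * H.n) (H.σ 0) (ed P) a :=
  funext fun b => propext (o.hc _ _ o.lv.pm (ed_iv _ _)
    (g.mono o.lv.pm (ed_iv _ _) (ed_iv _ _) (ed_sb h)) a ha b)

theorem lift (o : H.Ok L) (h : k ≤ L) (u : Rc H.n (H.σ k) (H.A k) a b) :
    Rc H.n (H.σ 0) (H.A 0) a b := by
  induction k with
  | zero => exact u
  | succ k ih => exact ih (by omega) (lift1 (lv o (by omega)).pm (o.op k h) u)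

theorem down (o : H.Ok L) (h : k ≤ L) (hj : j ≤ k) (u : Conn (2 * H.n) (H.σ k) (ed (H.A k)) a b) :
    Conn (2 * H.n) (H.σ j) (ed (H.A j)) a b := by
  induction k, hj using Nat.le_induction with
  | base => exact u
  | succ k _ ih => exact ih (by omega) (down1 (o.op k h) u)

theorem un (o : H.Ok L) (h : k ≤ L) (y : H.Y k c) (u : H.A k c) :
    Un (H.σ k) (H.A k) (2 * c) ∨ Un (H.σ k) (H.A k) (2 * c + 1) := by
  obtain ⟨j, hj, -, v⟩ := y
  induction k, hj using Nat.le_induction with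
  | base => exact (o.op j h).unT c v u
  | succ k _ ih =>
    have := (lv o h).lt c u
    exact (ih (by omega) ((o.op k h).sub c u)).imp
      ((o.op k h).un _ (by omega) (by rwa [show 2 * c / 2 = c by omega]))
      ((o.op k h).un _ (by omega) (by rwa [show (2 * c + 1) / 2 = c by omega]))

theorem yg (o : H.Ok L) (h : k ≤ L) (y : H.Y k c) : H.G k c := by
  obtain ⟨j, hj, u, v⟩ := y
  refine ⟨sub o (by omega) j.zero_le u.1, fun ⟨i, hi, u', v', w⟩ => ?_⟩
  rcases lt_trichotomy i j with e | rfl | e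
  · exact v' (sub o (by omega) e u.1)
  · exact w v
  · exact (o.op i (by omega)).del c u'.1 v' w
      (Un.cyc (lv o (by omega)) u'.1 (un o (by omega) ⟨j, e, u, v⟩ u'.1))

theorem clo (o : H.Ok L) (h : k ≤ L) (ha : a < 2 * H.n) (u : H.Co k (a / 2))
    (v : Conn (2 * H.n) (H.σ k) (ed (H.A k)) a b) : H.Co k (b / 2) := by
  have hb := Conn.lt (lv o h).pm (ed_iv _ _) v ha
  have w : H.A k (b / 2) := (Conn.ind (r := fun x y => H.A k (x / 2) ↔ H.A k (y / 2))
    ⟨fun _ => Iff.rfl, Iff.symm, Iff.trans⟩ (fun _ hx => ((lv o h).cl hx).symm)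
    (fun x _ => by rw [ed_div]) v).1 u.1
  refine ⟨w, fun j hj => ?_⟩
  have := u.2 j hj
  have hj' : j ≤ k := by omega
  rw [Hs.pos, cA o (by omega) (by omega)] at this ⊢
  rwa [cls (half hb (sub o h hj' w)), ← cls (down o h hj' v), ← cls (half ha (sub o h hj' u.1))]

theorem yp (g : GnK) (o : H.Ok L) (hb : b < 2) : H.Yp k P b a ↔
    ∃ c < H.n, P c ∧ Conn (2 * H.n) (H.σ 0) (ed (H.S k)) (2 * c + b) a :=
  exists_congr fun c => and_congr_right fun _ => by
    rw [c0 g o (fun _ v => v.1.1) (by omega)]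

/-- A walk from the head of a free cell stays in the classes of the heads. -/
theorem fwd (g : GnK) (o : H.Ok L) (f : H.Free k P 1 t) (u : Rc H.n (H.σ 0) (H.G k) a b)
    (ha : H.Yp k P 1 a) : H.Yp k P 1 b := by
  induction u with
  | refl => exact ha
  | @tail x y _ v ih =>
    obtain ⟨c, hc, p, w⟩ := (yp g o one_lt_two).1 ih
    rcases v with ⟨v, rfl | ⟨e, v', rfl⟩⟩
    · exact (yp g o one_lt_two).2 ⟨c, hc, p, w.trans (Conn.rho _ _ v)⟩
    obtain ⟨x, rfl⟩ : ∃ z, x = 2 * z := ⟨x / 2, by omega⟩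
    rw [show 2 * x / 2 = x by omega] at v'
    by_cases q : H.S k x
    · exact (yp g o one_lt_two).2 ⟨c, hc, p, w.trans (ed0 q ▸ Conn.gam _ (ed (H.S k)) v)⟩
    · have q' := not_or.1 fun r => q ⟨v', r⟩
      exact (yp g o one_lt_two).2 ⟨x, by omega, f.2 x (by omega) (not_not.1 q'.1) q'.2 ih,
        Conn.refl _ _ _ _⟩

/-- The same for walks to the tail of a free cell. -/
theorem bwd (g : GnK) (o : H.Ok L) (f : H.Free k P 0 s) (u : Rc H.n (H.σ 0) (H.G k) a b)
    (hb : H.Yp k P 0 b) : H.Yp k P 0 a := by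
  induction u with
  | refl => exact hb
  | @tail x y _ v ih =>
    obtain ⟨c, hc, p, w⟩ := (yp g o two_pos).1 hb
    refine ih ((yp g o two_pos).2 ?_)
    rcases v with ⟨v, rfl | ⟨e, v', rfl⟩⟩
    · exact ⟨c, hc, p, w.trans (Conn.rho _ _ v).symm⟩
    obtain ⟨x, rfl⟩ : ∃ z, x = 2 * z := ⟨x / 2, by omega⟩
    rw [show 2 * x / 2 = x by omega] at v'
    by_cases q : H.S k x
    · exact ⟨c, hc, p, w.trans (Conn.symm (ed0 q ▸ Conn.gam _ (ed (H.S k)) v))⟩
    · have q' := not_or.1 fun r => q ⟨v', r⟩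
      exact ⟨x, by omega, f.2 x (by omega) (not_not.1 q'.1) q'.2 hb, Conn.refl _ _ _ _⟩

theorem step (g : GnK) (o : H.Ok L) (f : H.Fre L s t) (h : k < L)
    (u : Rc H.n (H.σ 0) (H.G k) s b) (w : Rc H.n (H.σ 0) (H.G k) b t) :
    Rc H.n (H.σ 0) (H.G (k + 1)) s b := by
  induction u with
  | refl => exact .refl
  | @tail x y u v ih =>
    refine (ih (w.head v)).tail ⟨v.1, v.2.imp_right fun ⟨e, v', e'⟩ =>
      ⟨e, ⟨v'.1, fun ⟨j, hj, r⟩ => ?_⟩, e'⟩⟩
    obtain hj | rfl : j < k ∨ j = k := by omega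
    · exact v'.2 ⟨j, hj, r⟩
    have hx : x / 2 < H.n := by have := v.1; omega
    obtain ⟨P, p, f | f⟩ := f j h _ r.1 r.2.1 r.2.2
    · exact f.1 (fwd g o f w ((yp g o one_lt_two).2 ⟨_, hx, p, by
        rw [show 2 * (x / 2) + 1 = y by omega]
        exact Conn.refl _ _ _ _⟩))
    · exact f.1 (bwd g o f u ((yp g o two_pos).2 ⟨_, hx, p, by
        rw [show 2 * (x / 2) + 0 = x by omega]
        exact Conn.refl _ _ _ _⟩))

theorem sound (g : GnK) (o : H.Ok L) (f : H.Fre L s t) (u : Rc H.n (H.σ 0) (H.A 0) s t)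
    (h : k ≤ L) : Rc H.n (H.σ 0) (H.G k) s t := by
  induction k with
  | zero => exact u.mono fun _ v => ⟨v, fun ⟨_, hj, _⟩ => Nat.not_lt_zero _ hj⟩
  | succ k ih => exact step g o f h (ih (by omega)) .refl

end His

open His in
theorem hiS (g : GnK) : HiS := fun H L o =>
  { lv := fun _ => lv o
    sub := fun _ h _ hj _ => sub o h hj
    gle := fun _ => gle o
    cA := fun _ h _ => cA o h
    c0 := fun _ h _ => c0 g o h
    c1 := fun X Z h h' a ha => funext fun b => propext (o.hc _ _ (fc_pm o.lv.pm X) (ed_iv _ _)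
      ((g.conm o.lv.pm fun c u v => (h' c v).2 u).trans (g.mono o.lv.pm (ed_iv _ _) (ed_iv _ _)
        (ed_sb fun c u => u.elim (h c) fun v => (h' c v).1))) a ha b)
    lift := fun _ h _ _ => lift o h
    yg := fun _ h _ => yg o h
    un := fun _ h _ => un o h
    blob := fun _ h _ _ => both o.lv.pm fun c y => ⟨(yg o h y).1,
      let ⟨j, hj, _, v⟩ := y
      lift o (show j ≤ L by omega) ((o.op j (by omega)).cyc c v)⟩
    clo := fun _ h _ ha _ => clo o h ha
    few := fun k h => by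
      refine le_trans ?_ ((g.few (lv o h).pm (ed_iv _ (H.A k))).trans (gle o h))
      refine mul_le_mul_of_nonneg_left (Int.ofNat_le.2 (cnt_mono fun d hd u => ⟨?_, u.2⟩))
        zero_le_two
      have := u.1.2 k k.lt_succ_self
      rwa [Hs.pos, cA o h (by omega), cls (half hd u.1.1)] at this
    sound := fun _ _ f _ u => sound g o f u le_rfl }

end Pool.Agent.MP_1a6d78_lc.GN
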