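import Pool.Agent.MP_1a6d78_lc.GN.Spec

/-! PROJECT GN, row MAIN: the theorem of the block. -/

namespace Pool.Agent.MP_1a6d78_lc.GN

open Classical ED PR PL

namespace Main

theorem fw_ok {n d : ℕ} {σ : ℕ → ℕ} {A : ℕ → Prop} (l : Lv n σ A) (hd : d < 2 * n) :
    fw n σ d < 2 * n ∧ Rc n σ A d (fw n σ d) := by
  unfold fw
  split_ifs with h
  · obtain ⟨a, b, c⟩ := lst_spec h
    generalize lst n _ = e at a b c
    refine ⟨by omega, (Rc.sc l.pm A hd c).trans (Rc.edge a (by_contra fun u => ?_))⟩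
    rw [l.fx _ (by omega) (by rwa [show 2 * e / 2 = e by omega])] at b
    omega
  · exact ⟨hd, .refl⟩

end Main

theorem mainS (hi : HiS) (pt : PtS) : MainS := fun H L s t J bb ok fre hs ht hJ hb => by
  have K := hi H L ok
  have p := ok.lv.pm
  have bl : ∀ a < 2 * H.n, ∀ b, H.bl L a b ↔ Conn (2 * H.n) (H.σ 0) (ed (H.Y L)) a b :=
    fun a ha b => by rw [Hs.bl, K.c0 _ (fun c u => (K.yg L le_rfl c u).1) a ha]
  have w1 : ∀ i j, H.wk L i j < 2 * H.n → H.wk L i (j + 1) < 2 * H.n ∧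
      Rc H.n (H.σ 0) (H.A 0) (H.wk L i j) (H.wk L i (j + 1)) := fun i j u => by
    obtain ⟨a, b⟩ := Main.fw_ok (K.lv L le_rfl) u
    rw [show H.wk L i (j + 1) = min (fw H.n (H.σ L) (H.wk L i j)) (2 * H.n) from rfl,
      min_eq_left a.le]
    exact ⟨a, K.lift L le_rfl _ _ b⟩
  have w2 : ∀ i < 2 * H.n, ∀ j, H.wk L i j < 2 * H.n := fun i u j => by
    induction j with
    | zero => exact u
    | succ j ih => exact (w1 i j ih).1
  have u0 : ∀ x < 2 * H.n, H.It L s t x → H.U L s t x := fun x hx u =>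
    ⟨x, hx, u, 0, by omega, (bl x hx x).2 (Conn.refl ..)⟩
  have P := pt (H.pt L s t J bb) (H.σ 0) ⟨p, hs, fun e => w1 _, fun a ha b u =>
    ⟨Conn.lt p (ed_iv _ _) ((bl a ha b).1 u) ha, K.blob L le_rfl a b ((bl a ha b).1 u)⟩,
    fun a ha b hb' u => ((hb a ha b hb').1 u).mono fun c v => v.1.1⟩
  refine ⟨P.sound t, fun r => P.full (H.G L) (H.U L s t) ⟨fun x hx => (bl x hx x).2 (Conn.refl ..),
    fun x hx y hy u => (bl y hy x).2 ((bl x hx y).1 u).symm, fun x hx y hy z _ u v =>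
      (bl x hx z).2 (((bl x hx y).1 u).trans ((bl y hy z).1 v))⟩
    (fun a ha => (bl a ha _).2 (Conn.rho _ _ ha)) (fun c u => u.1) (fun d hd => ⟨?_, ?_⟩)
    (fun x _ ⟨i, hi, u, j, hj, v⟩ => ?_) (fun a ha b hb' => (hb a ha b hb').2)
    (u0 s hs (Or.inr (Or.inr (Or.inl rfl)))) t (u0 t ht (Or.inr (Or.inr (Or.inr rfl))))
    (K.sound s t fre hs r)⟩
  · exact fun ⟨i, hi, u, j, hj, v⟩ => ⟨i, hi, u, j, hj, (bl _ (w2 i hi j) _).2
      (((bl _ (w2 i hi j) _).1 v).trans (Conn.rho _ _ hd).symm)⟩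
  · exact fun ⟨i, hi, u, j, hj, v⟩ => ⟨i, hi, u, j, hj, (bl _ (w2 i hi j) _).2
      (((bl _ (w2 i hi j) _).1 v).trans (Conn.rho _ _ hd))⟩
  · obtain ⟨a, b⟩ := sel_cnt hi u
    refine ⟨cnt i (H.It L s t), b.trans_le hJ, j, hj, ?_⟩
    rw [show (H.pt L s t J bb).w (cnt i (H.It L s t)) j = H.wk L i j from congrArg (H.wk L · j) a]
    exact ⟨w2 i hi j, v⟩

end Pool.Agent.MP_1a6d78_lc.GN
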