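import Pool.Agent.MP_1a6d78_lc.GN.Spec

/-! PROJECT GN, row OPS: the four kinds of rounds. -/

namespace Pool.Agent.MP_1a6d78_lc.GN

open Classical ED PR PL

namespace Ops

variable {n N d x y : ℕ} {σ σ' f : ℕ → ℕ} {A A' X T P : ℕ → Prop}

theorem fr_ind {R : ℕ → Prop} (h : ∀ a, R a → ¬P a → R (f a)) (u : Fr f P x y) :
    R (f x) → R y := by
  induction u with
  | stop _ => exact id
  | go v _ ih => exact fun k => ih (h _ k v)

theorem fr_con {ρ γ : ℕ → ℕ} (h : ∀ a < N, f a < N ∧ Conn N ρ γ a (f a)) (u : Fr f P x y)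
    (hx : x < N) : Conn N ρ γ x y :=
  (fr_ind (R := fun a => a < N ∧ Conn N ρ γ x a)
    (fun a k _ => ⟨(h a k.1).1, k.2.trans (h a k.1).2⟩) u (h x hx)).2

theorem un_of {Q : ℕ → Prop} (h : ∀ x, Q x → Q (fc σ A x) ∧ fc σ A x % 2 = x % 2) (hd : Q d) :
    Un σ A d := fun t =>
  (iter_inv (Q := fun x => Q x ∧ x % 2 = d % 2)
    (fun x k => ⟨(h x k.1).1, (h x k.1).2.trans k.2⟩) ⟨hd, rfl⟩ t).2

theorem fc_no (h : ∀ c, ¬T c) : fc σ T = σ := funext fun _ => congrArg σ (ed_neg (h _))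

theorem su_ed (A : ℕ → Prop) : Su (2 * n) (fun d => A (d / 2)) (ed A) :=
  ⟨ed_iv n A, fun _ _ h => ed_neg h⟩

theorem fc_pos (h : A (x / 2)) : fc σ A x = σ (fl x) := congrArg σ (ed_pos h)

theorem fl_lt (h : x < 2 * n) : fl x < 2 * n := (fl_iv n x h).1

theorem al_fl (h : A (x / 2)) : A (fl x / 2) := by rwa [fl_div]

theorem two (Q : ℕ → Prop) (h : Q x) : Q (2 * (x / 2)) ∨ Q (2 * (x / 2) + 1) := by
  rcases Nat.mod_two_eq_zero_or_one x with e | e
  · exact Or.inl (by rwa [show 2 * (x / 2) = x by omega])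
  · exact Or.inr (by rwa [show 2 * (x / 2) + 1 = x by omega])

theorem fe_of (l' : Lv n σ' A')
    (h : ∀ d < 2 * n, A' (d / 2) → Fr f (fun e => A' (e / 2)) d (σ' d)) :
    Fe (2 * n) (fun d => A' (d / 2)) f σ' :=
  fun x hx u => ⟨_, h x hx u, .stop ((l'.cl hx).2 u)⟩

theorem del (F : FrK) (G : GnK) (l : Lv n σ A) (l' : Lv n σ' A') (hs : ∀ c, A' c → A c)
    (h : ∀ d < 2 * n, A' (d / 2) → Fr σ (fun e => A' (e / 2)) d (σ' d))
    (hD : ∀ c, A c → ¬A' c → ¬Rc n σ A (2 * c + 1) (2 * c)) : Op n σ σ' A A' fun _ => False where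
  lv := l'
  sub := hs
  tsub := fun _ => False.elim
  fe := by
    rw [fc_no fun _ => id, fc_no fun _ k => k.1]
    simpa using fe_of l' h
  con := fun d hd => by
    by_cases u : A' (d / 2)
    · exact fr_con (fun a k => ⟨l.pm.1 a k, Conn.rho _ _ k⟩) (h d hd u) hd
    · rw [l'.fx d hd u]
      exact Conn.refl ..
  cyc := fun _ => False.elim
  del := fun c u v _ => hD c u v
  un := fun d hd u v => by
    refine un_of (Q := fun x => x < 2 * n ∧ A' (x / 2) ∧ Un σ A x) (fun x k => ?_) ⟨hd, u, v⟩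
    have a := hs _ k.2.1
    have s := k.2.2.step
    have m := k.2.2 1
    rw [Function.iterate_one] at m
    rw [fc_pos a] at s m
    have a1 := (l.cl (fl_lt k.1)).2 (al_fl a)
    have a2 : A' (σ (fl x) / 2) := by_contra fun w => hD _ a1 w (Un.cyc l a1 (two _ s))
    rw [fc_pos k.2.1, F.uniq (h _ (fl_lt k.1) (al_fl k.2.1)) (.stop a2)]
    exact ⟨⟨l.pm.1 _ (fl_lt k.1), a2, s⟩, m⟩
  unT := fun _ => False.elim
  gn := (F.gen l.pm l'.pm (su_ed A') (fe_of l' h)).ge.trans
    (G.mono l.pm (ed_iv n A') (ed_iv n A) (ed_sb hs))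

theorem con (F : FrK) (G : GnK) (l : Lv n σ A) (l' : Lv n σ' A') (hs : ∀ c, A' c → A c)
    (h : ∀ d < 2 * n, A' (d / 2) →
      Fr (fc σ fun c => A c ∧ ¬A' c) (fun e => A' (e / 2)) d (σ' d))
    (hC : ∀ c, A c → ¬A' c → Rc n σ A (2 * c + 1) (2 * c)) :
    Op n σ σ' A A' fun c => A c ∧ ¬A' c where
  lv := l'
  sub := hs
  tsub := fun _ k => k.1
  fe := by
    rw [fc_no (σ := σ') fun _ k => k.1.2 k.2,
      show (fun d => A' (d / 2) ∧ ¬(A (d / 2) ∧ ¬A' (d / 2))) = fun d => A' (d / 2) from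
        funext fun d => propext ⟨fun k => k.1, fun k => ⟨k, fun w => w.2 k⟩⟩]
    exact fe_of l' h
  con := fun d hd => by
    by_cases u : A' (d / 2)
    · exact fr_con (fun a k => ⟨(fc_pm l.pm _).1 a k,
        (Conn.gam _ _ k).trans (Conn.rho _ _ (ed_lt _ k))⟩) (h d hd u) hd
    · rw [l'.fx d hd u]
      exact Conn.refl ..
  cyc := fun c k => hC c k.1 k.2
  del := fun _ u v w => (w ⟨u, v⟩).elim
  un := fun d hd u v => by
    refine un_of (Q := fun x => x < 2 * n ∧ A' (x / 2) ∧ Un σ A x) (fun x k => ?_) ⟨hd, u, v⟩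
    have st : ∀ y, y < 2 * n ∧ A (y / 2) ∧ Un σ A y ∧ y % 2 = x % 2 → σ (fl y) < 2 * n ∧
        A (σ (fl y) / 2) ∧ Un σ A (σ (fl y)) ∧ σ (fl y) % 2 = x % 2 := fun y w => by
      have s := w.2.2.1.step
      have m := w.2.2.1 1
      rw [Function.iterate_one] at m
      rw [fc_pos w.2.1] at s m
      exact ⟨l.pm.1 _ (fl_lt w.1), (l.cl (fl_lt w.1)).2 (al_fl w.2.1), s, m.trans w.2.2.2⟩
    have r := h _ (fl_lt k.1) (al_fl k.2.1)
    have := fr_ind (R := fun y => y < 2 * n ∧ A (y / 2) ∧ Un σ A y ∧ y % 2 = x % 2)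
      (fun y w v => by rw [fc_pos (A := fun c => A c ∧ ¬A' c) ⟨w.2.1, v⟩]; exact st y w) r (by
        rw [fc, ed_neg (A := fun c => A c ∧ ¬A' c) fun w => w.2 (al_fl k.2.1)]
        exact st x ⟨k.1, hs _ k.2.1, k.2.2, rfl⟩)
    rw [fc_pos k.2.1]
    exact ⟨⟨this.1, (F.fin r :), this.2.2.1⟩, this.2.2.2⟩
  unT := fun _ k w => (k.2 w).elim
  gn := by
    have := G.conm (S := fun c => A c ∧ ¬A' c) (Z := A') l.pm fun _ k => k.2
    rw [show (fun c => (A c ∧ ¬A' c) ∨ A' c) = A from funext fun c => propext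
      ⟨fun k => k.elim (fun w => w.1) (hs c), fun k => (Classical.em (A' c)).elim Or.inr
        fun w => Or.inl ⟨k, w⟩⟩] at this
    exact (F.gen (fc_pm l.pm _) l'.pm (su_ed A') (fe_of l' h)).ge.trans this

section cut

variable (l : Lv n σ A) (D : DCut n σ σ' A X T)
include l D

theorem xlt (h : X x) : x < 2 * n := by
  have := l.lt _ (D.al x h)
  omega

omit D in
theorem npm : Pm (2 * n) fun e => ed T (σ e) := (ed_iv n T).pm.comp l.pm

theorem back (hd : d < 2 * n) (h : X (ed T (σ d))) : X d := by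
  obtain ⟨p, h1, h2⟩ := (npm (T := T) l).period hd
  obtain ⟨q, rfl⟩ : ∃ q, p = q + 1 := ⟨p - 1, by omega⟩
  rw [← h2]
  exact iter_inv (f := fun e => ed T (σ e)) D.nx h q

/-- The predecessor on a ring. -/
theorem pre {R : ℕ → Prop} (h : X x) (h0 : R x) (hR : ∀ a, X a → R a → R (ed T (σ a))) :
    ∃ d, X d ∧ R d ∧ σ d = ed T x := by
  obtain ⟨p, h1, h2⟩ := (npm (T := T) l).period (xlt l D h)
  obtain ⟨q, rfl⟩ : ∃ q, p = q + 1 := ⟨p - 1, by omega⟩
  have := iter_inv (f := fun e => ed T (σ e)) (Q := fun a => X a ∧ R a)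
    (fun a k => ⟨D.nx a k.1, hR a k.1 k.2⟩) ⟨h, h0⟩ q
  rw [Function.iterate_succ_apply'] at h2
  exact ⟨_, this.1, this.2, by rw [← h2, ed_ed, h2]⟩

omit l in
theorem ta {c : ℕ} (h : T c) : A c := by
  rcases D.tx c h with k | k
  · have := D.al _ k
    rwa [show 2 * c / 2 = c by omega] at this
  · have := D.al _ k
    rwa [show (2 * c + 1) / 2 = c by omega] at this

theorem par (hx : X x) (hy : X y) (tx : T (x / 2)) (ty : T (y / 2)) : x % 2 = y % 2 := by
  rcases D.par with h | h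
  · exact h x y hx hy
  · obtain ⟨a, a1, -, a2⟩ := pre l D (R := fun _ => True) hx trivial fun _ _ => id
    obtain ⟨b, b1, -, b2⟩ := pre l D (R := fun _ => True) hy trivial fun _ _ => id
    have := h a b a1 b1
    rw [a2, b2, ed_pos tx, ed_pos ty] at this
    have := fl_mod x
    have := fl_mod y
    omega

omit l in
theorem fr1 {z : ℕ} (u : Fr (fun e => ed T (σ e)) (fun e => ¬T (e / 2)) d z) (h : X d) :
    Fr (fc σ T) (fun e => ¬(T (e / 2) ∧ X (fl e))) (ed T d) z := by
  induction u with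
  | @stop a v =>
    have e : fc σ T (ed T a) = σ a := by rw [fc, ed_ed]
    rw [ed_div] at v
    rw [ed_neg v, ← e]
    exact .stop (by rw [e]; exact fun w => v w.1)
  | @go a b v _ ih =>
    have e : fc σ T (ed T a) = σ a := by rw [fc, ed_ed]
    have k := D.nx a h
    have := ih k
    rw [ed_div, not_not] at v
    rw [ed_ed, ← e] at this
    rw [ed_pos v] at k
    exact .go (by rw [e]; exact fun w => w ⟨v, k⟩) this

omit l in
theorem fr2 {z : ℕ} (u : Fr (fun e => ed T (σ e)) (fun e => T (e / 2)) d z) (h : X d) :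
    Fr σ (fun e => ¬(X e ∧ ¬T (e / 2))) d (fl z) := by
  induction u with
  | @stop a v =>
    rw [ed_div] at v
    rw [ed_pos v, fl_fl]
    exact .stop fun w => w.2 v
  | @go a b v _ ih =>
    have k := D.nx a h
    have := ih k
    rw [ed_div] at v
    rw [ed_neg v] at this k
    exact .go (fun w => w ⟨k, v⟩) this

omit l in
theorem onT (h : X d) (u : T (d / 2)) :
    Fr (fun e => ed T (σ e)) (fun e => T (e / 2)) d (ed T (σ' d)) := by
  simpa [u] using D.on d h

variable (F : FrK) (l' : Lv n σ' A)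
include F l'

theorem fe1 : Fe (2 * n) (fun d => A (d / 2) ∧ ¬T (d / 2)) (fc σ T) (fc σ' T) := by
  refine F.mono (P := fun e => ¬(T (e / 2) ∧ X (fl e))) (fc_pm l.pm T) (fc_pm l'.pm T)
    (fun a _ k w => k.2 w.1) fun x hx q => ?_
  by_cases h : X (ed T x)
  · have u : ¬T (x / 2) := fun w => q ⟨w, by rwa [ed_pos w] at h⟩
    rw [ed_neg u] at h
    have r : Fr (fun e => ed T (σ e)) (fun e => ¬T (e / 2)) x (ed T (σ' x)) := by
      simpa [u] using D.on x h
    have v := F.fin r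
    have := fr1 D r h
    rw [ed_div] at v
    have e : fc σ' T x = σ' x := by rw [fc, ed_neg u]
    rw [ed_neg u, ed_neg v, ← e] at this
    exact ⟨_, this, .stop (by rw [e]; exact fun w => v w.1)⟩
  · have e : fc σ' T x = fc σ T x := D.off _ (ed_lt T hx) h
    have k : ¬(T (fc σ T x / 2) ∧ X (fl (fc σ T x))) := fun w =>
      h (back l D (ed_lt T hx) ((ed_pos w.1).symm ▸ w.2 : X (ed T (fc σ T x))))
    exact ⟨_, .stop k, e ▸ .stop (e.symm ▸ k)⟩

theorem fe2 : Fe (2 * n) (fun d => T (d / 2)) σ σ' := by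
  refine F.mono (P := fun e => ¬(X e ∧ ¬T (e / 2))) l.pm l'.pm (fun a _ k w => w.2 k)
    fun x hx q => ?_
  by_cases h : X x
  · have r := onT D h (by_contra fun w => q ⟨h, w⟩)
    have v := F.fin r
    have := fr2 D r h
    rw [ed_div] at v
    rw [ed_pos v, fl_fl] at this
    exact ⟨_, this, .stop fun w => w.2 v⟩
  · have e := D.off x hx h
    have k : ¬(X (σ x) ∧ ¬T (σ x / 2)) := fun w => h (back l D hx (by rw [ed_neg w.2]; exact w.1))
    exact ⟨_, .stop k, e ▸ .stop (e.symm ▸ k)⟩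

omit F in
theorem ccon (hd : d < 2 * n) : Conn (2 * n) σ (ed T) d (σ' d) := by
  by_cases h : X d
  · exact (fr_con (fun a k => ⟨(npm l).1 a k, (Conn.rho _ _ k).trans (Conn.gam _ _ (l.pm.1 a k))⟩)
      (D.on d h) hd).trans (Conn.gam _ _ (l'.pm.1 d hd)).symm
  · rw [D.off d hd h]
    exact Conn.rho _ _ hd

theorem cgn (G : GnK) : gn n σ' A ≤ gn n σ A := by
  have e : ∀ d, ed T (ed (fun c => A c ∧ ¬T c) d) = ed A d := fun d =>
    (ed_or (fun _ k w => w.2 k) d).trans (ed_cg ⟨fun k => k.elim (ta D) fun w => w.1,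
      fun k => (Classical.em _).imp_right fun w => ⟨k, w⟩⟩)
  have h1 := G.sub l.pm l'.pm (ed_iv n T) (ed_iv n A) (ed_sb fun _ => ta D) fun _ => ccon l D l'
  have h2 := F.cd (fc_pm l.pm T) (fc_pm l'.pm T) (su_ed fun c => A c ∧ ¬T c) (fe1 l D F l')
  have h3 := F.gen l.pm l'.pm (su_ed T) (fe2 l D F l')
  unfold fc at h2
  simp only [e] at h2
  unfold gn
  unfold gen at h3 ⊢
  unfold nc at h1 h2
  omega

omit F l' in
theorem ccyc {c : ℕ} (h : T c) : Rc n σ A (2 * c + 1) (2 * c) := by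
  have ed1 : ∀ a, T (a / 2) → a < 2 * n → Rc n σ A (2 * (a / 2)) (2 * (a / 2) + 1) :=
    fun a k w => Rc.edge (by omega) (ta D k)
  rcases D.tx c h with k | k
  · have t : T (2 * c / 2) := by rwa [show 2 * c / 2 = c by omega]
    obtain ⟨d, d1, d2, d3⟩ := pre l D (R := fun a => Rc n σ A a (2 * c)) k .refl fun a u v => by
      have b := (Rc.back l.pm A (xlt l D u)).trans v
      by_cases w : T (σ a / 2)
      · have p := par l D (D.nx a u) k (by rwa [ed_div]) t
        have := ed1 _ w (l.pm.1 a (xlt l D u))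
        have m := fl_mod (σ a)
        have m' := fl_div (σ a)
        rw [ed_pos w] at p ⊢
        rw [show 2 * (σ a / 2) + 1 = σ a by omega, show 2 * (σ a / 2) = fl (σ a) by omega] at this
        exact this.trans b
      · rwa [ed_neg w]
    rw [ed_pos t, fl0] at d3
    exact d3 ▸ (Rc.back l.pm A (xlt l D d1)).trans d2
  · have t : T ((2 * c + 1) / 2) := by rwa [show (2 * c + 1) / 2 = c by omega]
    obtain ⟨d, d1, d2, d3⟩ := pre l D (R := Rc n σ A (2 * c + 1)) k .refl fun a u v => by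
      have b := v.trans (Rc.sig A (xlt l D u))
      by_cases w : T (σ a / 2)
      · have p := par l D (D.nx a u) k (by rwa [ed_div]) t
        have := ed1 _ w (l.pm.1 a (xlt l D u))
        have m := fl_mod (σ a)
        have m' := fl_div (σ a)
        rw [ed_pos w] at p ⊢
        rw [show 2 * (σ a / 2) + 1 = fl (σ a) by omega, show 2 * (σ a / 2) = σ a by omega] at this
        exact b.trans this
      · rwa [ed_neg w]
    rw [ed_pos t, fl1] at d3
    exact d3 ▸ d2.trans (Rc.sig A (xlt l D d1))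

omit F l' in
/-- A uniform face that touches a ring. -/
theorem key (hx : x < 2 * n) (u : Un σ A x) (h : X (fl x)) : T (x / 2) ∧ T (σ (fl x) / 2) := by
  have p := fc_pm l.pm A
  have al : ∀ y, X (fl y) → fc σ A y = σ (fl y) := fun y k =>
    fc_pos (by have := D.al _ k; rwa [fl_div] at this)
  have md : ∀ y, Un σ A y → X (fl y) → σ (fl y) % 2 = y % 2 := fun y v k => by
    rw [← al y k]; exact v 1
  obtain ⟨q, h1, h2⟩ := p.period hx
  obtain ⟨q, rfl⟩ : ∃ r, q = r + 1 := ⟨q - 1, by omega⟩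
  rcases D.par with hp | hp
  · have st : ∀ y, Un σ A y ∧ X (fl y) → (Un σ A (fc σ A y) ∧ X (fl (fc σ A y))) ∧
        T (fc σ A y / 2) := fun y k => by
      have m := md y k.1 k.2
      have s := k.1.step
      have z := D.nx _ k.2
      have m1 := hp _ _ z k.2
      have m2 := fl_mod y
      rw [al y k.2] at s ⊢
      have w : T (σ (fl y) / 2) := by_contra fun w => by rw [ed_neg w] at m1; omega
      exact ⟨⟨s, by rwa [ed_pos w] at z⟩, w⟩
    have := (st _ (iter_inv (fun y k => (st y k).1) ⟨u, h⟩ q)).2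
    rw [← Function.iterate_succ_apply' (fc σ A), h2] at this
    exact ⟨this, al x h ▸ (st x ⟨u, h⟩).2⟩
  · have st : ∀ y, Un σ A y → X (fl y) → T (y / 2) ∧ ∃ a, X a ∧ σ a = y := fun y v k => by
      obtain ⟨a, a1, -, a2⟩ := pre l D (R := fun _ => True) k trivial fun _ _ => id
      have m := md y v k
      have m1 := hp _ _ a1 k
      have m2 := fl_mod y
      have w : T (fl y / 2) := by_contra fun w => by rw [a2, ed_neg w] at m1; omega
      rw [ed_pos w, fl_fl] at a2
      exact ⟨by rwa [fl_div] at w, a, a1, a2⟩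
    have bk : ∀ k y, y < 2 * n → Un σ A y → X (fl ((fc σ A)^[k] y)) → X (fl y) := fun k => by
      induction k with
      | zero => exact fun _ _ _ => id
      | succ k ih =>
        intro y hy v w
        obtain ⟨-, a, a1, a2⟩ := st _ v.step (ih _ (p.1 y hy) v.step w)
        have e := l.pm.2 _ (xlt l D a1) _ (ed_lt A hy) a2
        have := D.al a a1
        rw [e, ed_div] at this
        rwa [e, ed_pos this] at a1
    refine ⟨(st x u h).1, al x h ▸ (st _ u.step (bk q _ (p.1 x hx) u.step ?_)).1⟩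
    rwa [← Function.iterate_succ_apply, h2]

theorem cut (G : GnK) : Op n σ σ' A A T where
  lv := l'
  sub := fun _ => id
  tsub := fun _ => ta D
  fe := by
    rw [show (fun c => T c ∧ A c) = T from funext fun c => propext
      ⟨fun k => k.1, fun k => ⟨k, ta D k⟩⟩]
    exact fe1 l D F l'
  con := fun _ => ccon l D l'
  cyc := fun _ => ccyc l D
  del := fun _ u v _ => (v u).elim
  un := fun d hd u v => by
    refine un_of (Q := fun x => x < 2 * n ∧ A (x / 2) ∧ Un σ A x) (fun x k => ?_) ⟨hd, u, v⟩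
    have e : σ' (fl x) = σ (fl x) := by
      by_cases h : X (fl x)
      · obtain ⟨k1, k2⟩ := key l D k.1 k.2.2 h
        have := F.uniq (onT D h (al_fl k1)) (.stop (by rw [ed_div]; exact k2))
        rw [← ed_ed T (σ' _), this, ed_ed]
      · exact D.off _ (fl_lt k.1) h
    rw [fc_pos k.2.1, e, ← fc_pos (σ := σ) k.2.1]
    exact ⟨⟨(fc_pm l.pm A).1 x k.1, (l.cl (ed_lt A k.1)).2 (by rw [ed_div]; exact k.2.1),
      k.2.2.step⟩, k.2.2 1⟩
  unT := fun c t _ => by
    have st : ∀ e, X (fl e) ∧ T (e / 2) → Un σ' A e := fun e =>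
        un_of (Q := fun e => X (fl e) ∧ T (e / 2)) fun x k => by
      have r := onT D k.1 (al_fl k.2)
      have v := F.fin r
      have z := F.ind D.nx k.1 r
      have p := par l D z k.1 v (al_fl k.2)
      have := fl_mod x
      have := fl_mod (σ' (fl x))
      rw [ed_div] at v
      rw [ed_pos v] at z p
      rw [fc_pos (ta D k.2)]
      exact ⟨⟨z, v⟩, by omega⟩
    rcases D.tx c t with k | k
    · exact Or.inr (st _ ⟨by rwa [fl1], by rwa [show (2 * c + 1) / 2 = c by omega]⟩)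
    · exact Or.inl (st _ ⟨by rwa [fl0], by rwa [show 2 * c / 2 = c by omega]⟩)
  gn := cgn l D F l' G

end cut

end Ops

theorem opK (F : FrK) (G : GnK) : OpK where
  id l := Ops.del F G l l (fun _ => id) (fun _ hd u => .stop ((l.cl hd).2 u))
    fun _ u v => (v u).elim
  del := Ops.del F G
  con := Ops.con F G
  cut l l' D := Ops.cut l D F l' G

end Pool.Agent.MP_1a6d78_lc.GN
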