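import Pool.Agent.MP_1a6d78_lc.GN.Spec

/-! PROJECT GN, row PLANE: the rest is plane and the items are few. -/

namespace Pool.Agent.MP_1a6d78_lc.GN

open Classical ED PR PL

namespace PLN

variable {n d x : ℕ} {σ : ℕ → ℕ}

theorem fw_lt (σ : ℕ → ℕ) (h : d < 2 * n) : fw n σ d < 2 * n := by
  unfold fw
  split_ifs with u
  · have := (lst_spec u).1
    omega
  · exact h

theorem fw_sc (σ : ℕ → ℕ) (d : ℕ) :
    fw n σ d = d ∨ ∃ e, Sc (2 * n) σ d (2 * e) ∧ fw n σ d = 2 * e + 1 := by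
  unfold fw
  split_ifs with u
  · exact Or.inr ⟨_, (lst_spec u).2.2, rfl⟩
  · exact Or.inl rfl

theorem fw_eq (p : Pm (2 * n) σ) (hx : x < 2 * n) (h : Sc (2 * n) σ x d) :
    fw n σ d = d ∨ fw n σ d = fw n σ x := by
  have e : ∀ y, Sc (2 * n) σ d y ↔ Sc (2 * n) σ x y := fun y =>
    ⟨h.trans p.1 hx, (h.symm p hx).trans p.1 (h.lt p.1 hx)⟩
  unfold fw
  simp only [e]
  split_ifs
  · exact Or.inr rfl
  · exact Or.inl rfl

theorem cnt_half (n : ℕ) (Q : ℕ → Prop) : cnt (2 * n) (fun d => Q (d / 2)) ≤ 2 * cnt n Q := by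
  induction n with
  | zero => exact (cnt_le _ _).trans (Nat.zero_le _)
  | succ n ih =>
    rw [show 2 * (n + 1) = 2 * n + 1 + 1 by omega, cnt_succ, cnt_succ, cnt_succ,
      show (2 * n + 1) / 2 = n by omega, show 2 * n / 2 = n by omega]
    omega

theorem cnt_one (n a : ℕ) : cnt n (fun v => v = a) ≤ 1 :=
  (cnt_inj (m := 1) (Q := fun _ => True) (fun _ => 0) (fun _ _ _ => ⟨Nat.one_pos, trivial⟩)
    fun _ _ _ _ h k _ => h.trans k.symm).trans (cnt_le _ _)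

theorem rs_ed (K B : ℕ → Prop) : rs (fun d => K (d / 2)) (ed B) = ed fun c => B c ∧ K c := by
  funext d
  by_cases h : K (d / 2)
  · exact (if_pos h).trans (ed_cg (B := fun c => B c ∧ K c) (by simp [h]))
  · exact (if_neg h).trans (ed_neg (A := fun c => B c ∧ K c) fun k => h k.2).symm

variable {H : Hs} {L s t : ℕ}

theorem dr_iff (K : HiK H L) {c : ℕ} (hc : c < H.n) : H.dr L c ↔ H.Y L c ∧
    ¬Sc (2 * H.n) (fc (H.σ 0) fun e => H.Y L e ∧ e ≤ c) (2 * c) (2 * c + 1) ∧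
      Conn (2 * H.n) (fc (H.σ 0) fun e => H.Y L e ∧ e ≤ c)
        (ed fun e => H.G L e ∧ ¬(H.Y L e ∧ e ≤ c)) (2 * c) (2 * c + 1) := by
  unfold Hs.dr
  rw [K.c1 (H.Yl L c) (fun e => H.G L e ∧ ¬H.Yl L c e) (fun e h => (K.yg L le_rfl e h.1).1)
    (fun e h => ⟨h.1.1, h.2⟩) (2 * c) (by omega)]
  rfl

theorem u_iff (K : HiK H L) : H.U L s t x ↔ ∃ i < 2 * H.n, H.It L s t i ∧
    ∃ j, Conn (2 * H.n) (H.σ 0) (ed (H.Y L)) ((fw H.n (H.σ L))^[j] i) x := by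
  have e : ∀ i < 2 * H.n, ∀ j, H.bl L (H.wk L i j) x ↔
      Conn (2 * H.n) (H.σ 0) (ed (H.Y L)) ((fw H.n (H.σ L))^[j] i) x := fun i hi j => by
    unfold Hs.bl Hs.wk
    rw [it_eq (fun _ => fw_lt _) hi, K.c0 _ (fun c h => (K.yg L le_rfl c h).1) _
      (iter_inv (Q := fun a => a < 2 * H.n) (fun _ => fw_lt _) hi j)]
  refine ⟨fun ⟨i, hi, h1, j, _, h2⟩ => ⟨i, hi, h1, j, (e i hi j).1 h2⟩,
    fun ⟨i, hi, h1, j, h2⟩ => ?_⟩
  obtain ⟨j', h3, h4⟩ := iter_bnd' (Q := fun a => a < 2 * H.n) (fun _ => fw_lt (H.σ L))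
    (fun _ h => h) hi (rfl : (fw H.n (H.σ L))^[j] i = _)
  exact ⟨i, hi, h1, j', h3, (e i hi j').2 (h4 ▸ h2)⟩

theorem u_conn (K : HiK H L) {y : ℕ} (h : Conn (2 * H.n) (H.σ 0) (ed (H.Y L)) x y) :
    H.U L s t y ↔ H.U L s t x := by
  rw [u_iff K, u_iff K]
  exact ⟨fun ⟨i, hi, h1, j, h2⟩ => ⟨i, hi, h1, j, h2.trans h.symm⟩,
    fun ⟨i, hi, h1, j, h2⟩ => ⟨i, hi, h1, j, h2.trans h⟩⟩

theorem co_cd (K : HiK H L) : Cd (2 * H.n) (fun d => H.Co L (d / 2)) (H.σ L) := fun d hd =>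
  ⟨fun h => K.clo L le_rfl _ ((K.lv L le_rfl).pm.1 d hd) _ h (Conn.rho _ _ hd).symm,
    fun h => K.clo L le_rfl _ hd _ h (Conn.rho _ _ hd)⟩

/-- The core part of the rest is plane in the top map. -/
theorem core (K : HiK H L) (gk : GnK) (tp : TopS) {π : ℕ → ℕ} {Z : ℕ → Prop}
    (hy : Hyb H L π Z) :
    gn H.n (H.σ L) (fun c => H.Co L c ∧ ¬H.U L s t (2 * c) ∧ ¬H.U L s t (2 * c + 1)) ≤ 0 := by
  have lv := K.lv L le_rfl
  have pL := lv.pm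
  have lt : ∀ i < 2 * H.n, ∀ j, (fw H.n (H.σ L))^[j] i < 2 * H.n := fun i hi j =>
    iter_inv (Q := fun a => a < 2 * H.n) (fun _ => fw_lt _) hi j
  let W : ℕ → Prop := fun d => ∃ i < 2 * H.n, H.St L i ∧
    ∃ j, Sc (2 * H.n) (H.σ L) ((fw H.n (H.σ L))^[j] i) d
  have wu : ∀ d, W d → H.U L s t d := fun d ⟨i, hi, h1, j, h2⟩ => by
    have h3 := iter_inv (f := fw H.n (H.σ L)) (Q := fun a => a < 2 * H.n ∧ H.Co L (a / 2))
      (fun a k => ⟨fw_lt _ k.1, by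
        rcases fw_sc (n := H.n) (H.σ L) a with e | ⟨e, e1, e2⟩
        · rw [e]; exact k.2
        · have := K.clo L le_rfl a k.1 _ k.2 (e1.conn' _ pL k.1)
          rw [e2, show (2 * e + 1) / 2 = 2 * e / 2 by omega]
          exact this⟩) ⟨hi, h1.1⟩ j
    exact (Sc.ind pL.1 (Q := fun a => H.Co L (a / 2) ∧ H.U L s t a) h3.1
      ⟨h3.2, (u_iff K).2 ⟨i, hi, Or.inl h1, j, Conn.refl _ _ _ _⟩⟩
      (fun a ha k => ⟨(co_cd K a ha).2 k.1, by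
        rw [← hy.eq a ha k.1]
        exact (u_conn K (hy.con a ha)).2 k.2⟩) h2).2
  have w0 : ∀ d < 2 * H.n, H.St L d → W d := fun d hd h => ⟨d, hd, h, 0, Sc.refl _ hd⟩
  have h0 := tp H.n (H.σ L) (H.A L) (H.Co L) W lv (fun _ h => h.1) (co_cd K)
    (fun d hd => ⟨fun ⟨i, hi, h1, j, h2⟩ => ⟨i, hi, h1, j, h2.trans pL.1 (lt i hi j)
      ((Sc.step pL.1 hd).symm pL hd)⟩,
      fun ⟨i, hi, h1, j, h2⟩ => ⟨i, hi, h1, j, h2.trans pL.1 (lt i hi j) (Sc.step pL.1 hd)⟩⟩)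
    (fun d hd ⟨i, hi, h1, j, h2⟩ => by
      rcases fw_eq pL (lt i hi j) h2 with e | e
      · rw [e]; exact ⟨i, hi, h1, j, h2⟩
      · refine ⟨i, hi, h1, j + 1, ?_⟩
        rw [Function.iterate_succ_apply', ← e]
        exact Sc.refl _ (fw_lt _ hd))
    (fun c h1 h2 => by
      have := lv.lt c h1.1
      refine ⟨w0 _ (by omega) ?_, w0 _ (by omega) ?_⟩
      · unfold Hs.St
        rw [show 2 * c / 2 = c by omega]
        exact ⟨h1, Or.inl h2⟩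
      · unfold Hs.St
        rw [show (2 * c + 1) / 2 = c by omega]
        exact ⟨h1, Or.inl h2⟩)
    (fun d hd h1 h2 => w0 d hd ⟨h1, Or.inr (by rw [K.cA L le_rfl d hd]; exact h2)⟩)
  exact (gk.mono pL (ed_iv _ _) (ed_iv _ _) (ed_sb fun c h =>
    ⟨h.1, fun k => h.2.1 (wu _ k), fun k => h.2.2 (wu _ k)⟩)).trans h0.le

/-- The rest is plane in the hybrid map. -/
theorem hyb (K : HiK H L) (fr : FrK) (gk : GnK) (tp : TopS) {π : ℕ → ℕ} {Z : ℕ → Prop}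
    (hy : Hyb H L π Z) :
    gn H.n π (fun c => Z c ∧ ¬H.U L s t (2 * c) ∧ ¬H.U L s t (2 * c + 1)) ≤ 0 := by
  have pL := (K.lv L le_rfl).pm
  have pp := hy.lv.pm
  have cd : Cd (2 * H.n) (fun d => H.Co L (d / 2)) π := fun d hd => by
    refine ⟨fun h => ?_, fun h => by rw [hy.eq d hd h]; exact (co_cd K d hd).2 h⟩
    obtain ⟨p, h1, h2⟩ := pL.period (pp.1 d hd)
    obtain ⟨p, rfl⟩ : ∃ v, p = v + 1 := ⟨p - 1, by omega⟩
    rw [Function.iterate_succ_apply'] at h2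
    have h3 := iter_inv (Q := fun a => a < 2 * H.n) pL.1 (pp.1 d hd) p
    have h4 := (co_cd K _ h3).1 (by rw [h2]; exact h)
    rw [← pp.2 _ h3 d hd ((hy.eq _ h3 h4).trans h2)]
    exact h4
  have h1 := gk.add pp (ed_iv H.n fun c => Z c ∧ ¬H.U L s t (2 * c) ∧ ¬H.U L s t (2 * c + 1)) cd
    fun d _ => by simp only [ed_div]
  rw [rs_ed, rs_ed fun c => ¬H.Co L c] at h1
  have h2 := fr.gen (P := fun d => H.Co L (d / 2)) pp pL ⟨ed_iv H.n fun c => H.Co L c ∧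
    ¬H.U L s t (2 * c) ∧ ¬H.U L s t (2 * c + 1), fun d _ h => ed_neg fun k => h k.1⟩
    fun d hd h => ⟨π d, .stop ((cd d hd).2 h), by
      rw [hy.eq d hd h]; exact .stop ((co_cd K d hd).2 h)⟩
  have h3 := core (s := s) (t := t) K gk tp hy
  have h4 := gk.mono pp (ed_iv H.n _) (ed_iv H.n _) (ed_sb (A := fun c => (Z c ∧
    ¬H.U L s t (2 * c) ∧ ¬H.U L s t (2 * c + 1)) ∧ H.Co L c) (B := fun c => H.Co L c ∧
    ¬H.U L s t (2 * c) ∧ ¬H.U L s t (2 * c + 1)) fun c h => ⟨h.2, h.1.2⟩)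
  have h5 := gk.mono pp (ed_iv H.n _) (ed_iv H.n _) (ed_sb (A := fun c => (Z c ∧
    ¬H.U L s t (2 * c) ∧ ¬H.U L s t (2 * c + 1)) ∧ ¬H.Co L c) (B := fun c => Z c ∧ ¬H.Co L c)
    fun c h => ⟨h.1.1, h.2⟩)
  have h6 := hy.fz
  unfold gn at h3 h6 ⊢
  omega

end PLN

open PLN

theorem plS : FrK → GnK → HiS → HyS → TopS → DrS → PlS := by
  intro fr gk hi hs tp ds H L s t ok
  have K := hi H L ok
  obtain ⟨π, Z, hy⟩ := hs H L ok L le_rfl
  have p0 := ok.lv.pm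
  have pp := hy.lv.pm
  have D := ds H.n (H.σ 0) (H.G L) (H.Y L) p0 (K.yg L le_rfl)
  constructor
  · have c0 : Cd (2 * H.n) (H.U L s t) (H.σ 0) := fun d hd => u_conn K (Conn.rho _ _ hd)
    have cY : Cd (2 * H.n) (H.U L s t) (ed (H.Y L)) := fun d hd => u_conn K (Conn.gam _ _ hd)
    have cp : Cd (2 * H.n) (H.U L s t) π := fun d hd => u_conn K (hy.con d hd)
    have two : ∀ a, a = 2 * (a / 2) ∨ a = 2 * (a / 2) + 1 := fun a => by omega
    have yu : ∀ a < 2 * H.n, H.Y L (a / 2) → ¬H.U L s t a →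
        ¬H.U L s t (2 * (a / 2)) ∧ ¬H.U L s t (2 * (a / 2) + 1) := fun a ha h1 h2 => by
      have h3 := cY (2 * (a / 2)) (by omega)
      rw [ed_pos (by rw [show 2 * (a / 2) / 2 = a / 2 by omega]; exact h1), fl0] at h3
      rcases two a with e | e
      · exact ⟨e ▸ h2, fun k => h2 (e ▸ h3.1 k)⟩
      · exact ⟨fun k => h2 (e ▸ h3.2 k), e ▸ h2⟩
    have h1 := D.pl (H.U L s t) c0 cY fun c hc h => (u_iff K).2 ⟨2 * c, by omega,
      Or.inr (Or.inl ⟨by omega, by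
        rw [show 2 * c / 2 = c by omega]; exact (dr_iff K hc).2 h⟩), 0, Conn.refl _ _ _ _⟩
    have zb : ∀ c, H.B L s t c ∧ ¬H.Y L c → Z c := fun c h =>
      ((hy.part c).1 h.1.1).resolve_right h.2
    have h2 := gk.conm (S := fun c => H.Y L c ∧ Z c ∧ ¬H.U L s t (2 * c) ∧ ¬H.U L s t (2 * c + 1))
      (Z := fun c => H.B L s t c ∧ ¬H.Y L c) pp fun c h k => k.2 h.1
    have h3 := gk.mono pp (ed_iv H.n _) (ed_iv H.n _) (ed_sb (A := fun c => (H.Y L c ∧ Z c ∧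
      ¬H.U L s t (2 * c) ∧ ¬H.U L s t (2 * c + 1)) ∨ (H.B L s t c ∧ ¬H.Y L c))
      (B := fun c => Z c ∧ ¬H.U L s t (2 * c) ∧ ¬H.U L s t (2 * c + 1))
      fun c h => h.elim (fun k => k.2) fun k => ⟨zb c k, k.1.2⟩)
    have h4 := hyb (s := s) (t := t) K fr gk tp hy
    have h5 := fr.mono (P' := fun d => H.B L s t (d / 2) ∧ ¬H.Y L (d / 2)) (fc_pm p0 _) (fc_pm pp _)
      (fun a _ h => ⟨zb _ h, h.2⟩) hy.fe
    have h6 := fr.gen (P := fun d => H.B L s t (d / 2) ∧ ¬H.Y L (d / 2))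
      (fc_pm p0 fun c => H.Y L c ∧ ¬H.U L s t (2 * c))
      (fc_pm pp fun c => H.Y L c ∧ Z c ∧ ¬H.U L s t (2 * c) ∧ ¬H.U L s t (2 * c + 1))
      ⟨ed_iv H.n fun c => H.B L s t c ∧ ¬H.Y L c, fun d _ h => ed_neg h⟩ fun x hx h => by
        obtain ⟨y, e1, e2⟩ := h5 x hx h
        have hq : x < 2 * H.n ∧ ¬H.U L s t x :=
          ⟨hx, (two x).elim (fun e => e ▸ h.1.2.1) fun e => e ▸ h.1.2.2⟩
        refine ⟨y, fr.cg (Q := fun a => a < 2 * H.n ∧ ¬H.U L s t a) (fun a k =>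
          ⟨(fc_pm p0 _).1 a k.1, fun u => k.2 ((cY a k.1).1 ((c0 _ (ed_lt _ k.1)).1 u))⟩)
          (fun a k => congrArg (H.σ 0) (ed_cg (B := fun c => H.Y L c ∧ ¬H.U L s t (2 * c))
            ⟨fun u => ⟨u, (yu a k.1 u k.2).1⟩, fun u => u.1⟩)) (fun _ _ => Iff.rfl) hq e1,
          fr.cg (Q := fun a => a < 2 * H.n ∧ ¬H.U L s t a) (fun a k =>
          ⟨(fc_pm pp _).1 a k.1, fun u => k.2 ?_⟩)
          (fun a k => congrArg π (ed_cg (A := fun c => H.Y L c ∧ Z c) (B := fun c => H.Y L c ∧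
            Z c ∧ ¬H.U L s t (2 * c) ∧ ¬H.U L s t (2 * c + 1))
            ⟨fun u => ⟨u.1, u.2, yu a k.1 u.1 k.2⟩, fun u => ⟨u.1, u.2.1⟩⟩))
          (fun _ _ => Iff.rfl) hq e2⟩
        have v := (cp _ (ed_lt _ k.1)).1 u
        rcases ed_sb (A := fun c => H.Y L c ∧ Z c) (fun _ w => w.1) a k.1 with e | e
        · rwa [e] at v
        · rw [e] at v
          exact (cY a k.1).1 v
    have h7 := gk.nonneg p0 (ed_iv H.n (H.B L s t))
    have h8 : gn H.n (H.σ 0) (H.B L s t) = gn H.n (fc (H.σ 0) fun c => H.Y L c ∧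
      ¬H.U L s t (2 * c)) fun c => H.B L s t c ∧ ¬H.Y L c := h1
    unfold gn at h2 h4 h8 ⊢
    omega
  · have h1 := cnt_or (2 * H.n) (H.St L) fun d => (d % 2 = 0 ∧ H.dr L (d / 2)) ∨ d = s ∨ d = t
    have h2 := cnt_or (2 * H.n) (fun d => d % 2 = 0 ∧ H.dr L (d / 2)) fun d => d = s ∨ d = t
    have h3 := cnt_or (2 * H.n) (fun d => d = s) fun d => d = t
    have h4 := cnt_one (2 * H.n) s
    have h5 := cnt_one (2 * H.n) t
    have h6 := (cnt_mono (P := H.St L) fun d hd h => h.2.imp (And.intro h.1) fun k =>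
      And.intro h.1 (by rwa [K.cA L le_rfl d hd] at k)).trans (cnt_or (2 * H.n)
      (fun d => H.Co L (d / 2) ∧ sad H.n (H.σ L) (H.A L) (d / 2)) fun d => H.Co L (d / 2) ∧
        ∀ e < d, ¬Conn (2 * H.n) (H.σ L) (ed (H.A L)) d e)
    have h7 := cnt_half H.n fun c => H.Co L c ∧ sad H.n (H.σ L) (H.A L) c
    have h8 := K.few L le_rfl
    have h9 := cnt_inj (n := 2 * H.n) (m := H.n) (P := fun d => d % 2 = 0 ∧ H.dr L (d / 2))
      (Q := H.dr L) (fun d => d / 2) (fun d hd h => ⟨by omega, h.2⟩)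
      fun a _ b _ h k e => by omega
    have h10 := D.few
    rw [← cnt_congr fun c hc => dr_iff K hc] at h10
    have h13 : cnt H.n (fun c => H.dr L c) = cnt H.n (H.dr L) := rfl
    have h11 := gk.mono p0 (ed_iv H.n _) (ed_iv H.n _)
      (ed_sb (A := H.G L) (B := H.A 0) fun c h => h.1)
    have h12 : cnt (2 * H.n) (H.It L s t) = cnt (2 * H.n) fun d =>
      H.St L d ∨ (d % 2 = 0 ∧ H.dr L (d / 2)) ∨ d = s ∨ d = t := rfl
    unfold gn at h8 h10 ⊢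
    omega

end Pool.Agent.MP_1a6d78_lc.GN
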