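import Pool.Agent.MP_1a6d78_lc.GN.GenB

/-! PROJECT GN, row PORTA: from maps of ports to maps of darts. -/

namespace Pool.Agent.MP_1a6d78_lc.GN

open Classical ED PR PL

namespace PortA

variable {n N N' a b c d : ℕ} {lk ρ γ : ℕ → ℕ} {al A A' : ℕ → Prop} {r r' : ℕ → ℕ → Prop}

theorem d4 (d : ℕ) : 2 * d / 4 = d / 2 := by omega

theorem d5 (d : ℕ) : (2 * d + 1) / 4 = d / 2 := by omega

theorem tr_eq (H : PL.Ok n al lk) (hd : d < 2 * n) (u : al (d / 2)) :
    lk (2 * d) = 2 * tr lk d + 1 := by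
  have := H.par (2 * d) (by omega) (by rwa [d4])
  unfold tr
  rw [if_neg (by omega)]
  omega

theorem tr_dead (H : PL.Ok n al lk) (hd : d < 2 * n) (u : ¬al (d / 2)) : tr lk d = d :=
  if_pos ((H.fix (2 * d) (by omega)).2 (by rwa [d4]))

theorem tr_al (H : PL.Ok n al lk) (hd : d < 2 * n) (u : al (d / 2)) :
    tr lk d < 2 * n ∧ al (tr lk d / 2) := by
  have e := tr_eq H hd u
  have h1 := (H.iv (2 * d) (by omega)).1
  have h2 := H.alive (a := 2 * d) (by omega) (by rwa [d4])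
  exact ⟨by omega, by rwa [e, d5] at h2⟩

theorem ps (H : PL.Ok n al lk) (hd : d < 2 * n) (u : al (d / 2)) :
    r3 (lk (2 * d)) = 2 * tr lk d := by
  rw [tr_eq H hd u]; unfold r3; omega

theorem pm (H : PL.Ok n al lk) : Pm (2 * n) (tr lk) := by
  refine ⟨fun d hd => ?_, fun a ha b hb e => ?_⟩
  · by_cases u : al (d / 2)
    exacts [(tr_al H hd u).1, (tr_dead H hd u).trans_lt hd]
  · by_cases u : al (a / 2) <;> by_cases v : al (b / 2)
    · have := H.iv.pm.2 (2 * a) (by omega) (2 * b) (by omega)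
        (by rw [tr_eq H ha u, tr_eq H hb v, e])
      omega
    · exact absurd (by rw [← tr_dead H hb v, ← e]; exact (tr_al H ha u).2) v
    · exact absurd (by rw [← tr_dead H ha u, e]; exact (tr_al H hb v).2) u
    · rwa [tr_dead H ha u, tr_dead H hb v] at e

/-- The partner of an odd port. -/
theorem odd (H : PL.Ok n al lk) (hd : d < 2 * n) (u : al (d / 2)) :
    ∃ e < 2 * n, al (e / 2) ∧ lk (2 * d + 1) = 2 * e ∧ tr lk e = d := by
  have h0 := H.par (2 * d + 1) (by omega) (by rwa [d5])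
  have h1 := H.iv (2 * d + 1) (by omega)
  have h2 := H.alive (a := 2 * d + 1) (by omega) (by rwa [d5])
  obtain ⟨e, k⟩ : ∃ e, lk (2 * d + 1) = 2 * e := ⟨lk (2 * d + 1) / 2, by omega⟩
  rw [k] at h1 h2
  rw [d4] at h2
  have := tr_eq H (d := e) (by omega) h2
  exact ⟨e, by omega, h2, k, by omega⟩

theorem rc (H : PL.Ok n al lk) (_ha : a < 2 * n) (u : al (a / 2)) :
    Rc n (tr lk) al a b ↔ Rch n lk 0 (2 * a) (2 * b) := by
  constructor
  · intro h
    refine (?_ : al (b / 2) ∧ _).2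
    induction h with
    | refl => exact ⟨u, .refl⟩
    | @tail x y _ w ih =>
      rcases w with ⟨w, rfl | ⟨e, -, rfl⟩⟩
      · exact ⟨(tr_al H w ih.1).2, ih.2.tail ⟨by omega, Or.inl (ps H w ih.1).symm⟩⟩
      · exact ⟨by rw [show (x + 1) / 2 = x / 2 by omega]; exact ih.1,
          ih.2.tail ⟨by omega, Or.inr ⟨by omega, by unfold op; omega⟩⟩⟩
  · intro h
    have key : ∀ x, Rch n lk 0 (2 * a) x → ∃ d, x = 2 * d ∧ al (d / 2) ∧ Rc n (tr lk) al a d := by
      intro x k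
      induction k with
      | refl => exact ⟨a, rfl, u, .refl⟩
      | @tail x y _ w ih =>
        obtain ⟨d, rfl, v, ih⟩ := ih
        rcases w with ⟨w, rfl | ⟨e, rfl⟩⟩
        · exact ⟨_, ps H (by omega) v, (tr_al H (by omega) v).2, ih.tail ⟨by omega, Or.inl rfl⟩⟩
        · exact ⟨d + 1, by unfold op; omega, by rwa [show (d + 1) / 2 = d / 2 by omega],
            ih.tail ⟨by omega, Or.inr ⟨by omega, v, rfl⟩⟩⟩
    obtain ⟨d, e, -, k⟩ := key _ h
    rwa [show b = d by omega]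

theorem vx (H : PL.Ok n al lk) (ha : a < 2 * n) (u : al (a / 2)) :
    Sc (2 * n) (tr lk) a b ↔ Sc (4 * n) (fun p => r3 (lk p)) (2 * a) (2 * b) := by
  have F := r3_pm.comp H.iv.pm
  have P := pm H
  have h4 : 2 * a < 4 * n := by omega
  refine ⟨fun h => (Sc.ind (Q := fun d => al (d / 2) ∧
    Sc (4 * n) (fun p => r3 (lk p)) (2 * a) (2 * d)) P.1 ha ⟨u, Sc.refl _ h4⟩
    (fun d hd k => ⟨(tr_al H hd k.1).2, k.2.trans F.1 h4 (by
      rw [← ps H hd k.1]; exact Sc.step F.1 (by omega))⟩) h).2, fun h => ?_⟩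
  obtain ⟨d, e, -, k⟩ := Sc.ind (Q := fun p => ∃ d, p = 2 * d ∧ al (d / 2) ∧
    Sc (2 * n) (tr lk) a d) F.1 h4 ⟨a, rfl, u, Sc.refl _ ha⟩ (by
      rintro _ hp ⟨d, rfl, v, k⟩
      exact ⟨_, ps H (by omega) v, (tr_al H (by omega) v).2,
        k.trans P.1 ha (Sc.step P.1 (by omega))⟩) h
  rwa [show b = d by omega]

theorem r3_fl (e : ℕ) : r3 (2 * e) = 2 * fl e + 1 := by unfold r3 fl; split_ifs <;> omega

theorem fa (H : PL.Ok n al lk) (ha : a < 2 * n) (u : al (a / 2)) :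
    Sc (2 * n) (fc (tr lk) al) a b ↔ Sc (4 * n) (fun p => r3 (lk p)) (2 * a + 1) (2 * b + 1) := by
  have F := r3_pm.comp H.iv.pm
  have P := fc_pm (pm H) al
  have h4 : 2 * a + 1 < 4 * n := by omega
  refine ⟨fun h => (Sc.ind (Q := fun d => al (d / 2) ∧
    Sc (4 * n) (fun p => r3 (lk p)) (2 * a + 1) (2 * d + 1)) P.1 ha ⟨u, Sc.refl _ h4⟩
    (fun d hd k => ?_) h).2, fun h => ?_⟩
  · have l := (fl_iv n d hd).1
    have v : al (fl d / 2) := by rw [fl_div]; exact k.1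
    have t := tr_al H l v
    rw [fc, ed_pos k.1]
    have s := Sc.step F.1 (a := 2 * tr lk (fl d) + 1) (by omega)
    refine ⟨t.2, k.2.trans F.1 h4 (Sc.symm F (by omega) ?_)⟩
    rwa [show r3 (lk (2 * tr lk (fl d) + 1)) = 2 * d + 1 by
      rw [← tr_eq H l v, (H.iv _ (by omega)).2, r3_fl, fl_fl]] at s
  · obtain ⟨d, e, -, k⟩ := Sc.ind (Q := fun p => ∃ d, p = 2 * d + 1 ∧ al (d / 2) ∧
      Sc (2 * n) (fc (tr lk) al) a d) F.1 h4 ⟨a, rfl, u, Sc.refl _ ha⟩ (by
        rintro _ hp ⟨d, rfl, v, k⟩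
        obtain ⟨e, h1, h2, h3, h5⟩ := odd H (d := d) (by omega) v
        have l := (fl_iv n e h1).1
        have w : al (fl e / 2) := by rwa [fl_div]
        have s := Sc.step P.1 l
        rw [fc, ed_pos w, fl_fl, h5] at s
        exact ⟨fl e, by rw [h3, r3_fl], w, k.trans P.1 ha (s.symm P l)⟩) h
    rwa [show b = d by omega]

theorem lk_al (H : PL.Ok n al lk) {p : ℕ} (hp : p < 4 * n) : al (lk p / 4) ↔ al (p / 4) :=
  ⟨fun u => by have := H.alive (H.iv p hp).1 u; rwa [(H.iv p hp).2] at this, H.alive hp⟩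

theorem r4_div (p : ℕ) : r4 p / 4 = p / 4 := by unfold r4; omega

theorem half (lk : ℕ → ℕ) {p : ℕ} (hp : p < 4 * n) : Conn (4 * n) r4 lk (2 * (p / 2)) p := by
  rcases Nat.even_or_odd' p with ⟨d, rfl | rfl⟩
  · rw [show 2 * (2 * d / 2) = 2 * d by omega]; exact Conn.refl _ _ _ _
  · have := Conn.rho r4 lk (n := 4 * n) (a := 2 * d) (by omega)
    rwa [show r4 (2 * d) = 2 * d + 1 by unfold r4; omega, ← show 2 * ((2 * d + 1) / 2) = 2 * d by
      omega, show 2 * ((2 * d + 1) / 2) + 1 = 2 * d + 1 by omega] at this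

theorem cn (H : PL.Ok n al lk) (_ha : a < 2 * n) (u : al (a / 2)) :
    Conn (2 * n) (tr lk) (ed al) a b ↔ Conn (4 * n) r4 lk (2 * a) (2 * b) := by
  refine ⟨Conn.ind (r := fun x y => Conn (4 * n) r4 lk (2 * x) (2 * y))
    ⟨fun _ => Conn.refl _ _ _ _, Conn.symm, Conn.trans⟩ (fun x hx => ?_) fun x hx => ?_, fun h => ?_⟩
  · by_cases v : al (x / 2)
    · have t := tr_al H hx v
      have h1 := Conn.gam r4 lk (n := 4 * n) (a := 2 * x) (by omega)
      have h2 := half lk (n := n) (p := 2 * tr lk x + 1) (by omega)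
      rw [show (2 * tr lk x + 1) / 2 = tr lk x by omega, ← tr_eq H hx v] at h2
      exact h1.trans h2.symm
    · rw [tr_dead H hx v]; exact Conn.refl _ _ _ _
  · have := ed_div al x
    exact Sc.conn' _ Two.pm (by omega) ((Two.sc (by omega)).1 (by omega))
  · have := (Conn.ind (r := fun p q => (al (p / 4) ↔ al (q / 4)) ∧
      (al (p / 4) → Conn (2 * n) (tr lk) (ed al) (p / 2) (q / 2)))
      ⟨fun x => ⟨Iff.rfl, fun _ => Conn.refl _ _ _ _⟩,
        fun u => ⟨u.1.symm, fun v => (u.2 (u.1.2 v)).symm⟩,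
        fun u v => ⟨u.1.trans v.1, fun w => (u.2 w).trans (v.2 (u.1.1 w))⟩⟩
      (fun p hp => ⟨by rw [r4_div], fun v => ?_⟩)
      (fun p hp => ⟨(lk_al H hp).symm, fun v => ?_⟩) h).2 (by rwa [d4])
    · rwa [show 2 * a / 2 = a by omega, show 2 * b / 2 = b by omega] at this
    · rcases Nat.even_or_odd' p with ⟨d, rfl | rfl⟩
      · rw [show r4 (2 * d) / 2 = 2 * d / 2 by unfold r4; omega]; exact Conn.refl _ _ _ _
      · have := Conn.gam (tr lk) (ed al) (n := 2 * n) (a := d) (by omega)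
        rw [d5] at v
        rwa [ed_pos v, show fl d = r4 (2 * d + 1) / 2 by unfold fl r4; split_ifs <;> omega,
          ← show (2 * d + 1) / 2 = d by omega,
          show 2 * ((2 * d + 1) / 2) + 1 = 2 * d + 1 by omega] at this
    · rcases Nat.even_or_odd' p with ⟨d, rfl | rfl⟩
      · rw [d4] at v
        rw [tr_eq H (by omega) v, show 2 * d / 2 = d by omega,
          show (2 * tr lk d + 1) / 2 = tr lk d by omega]
        exact Conn.rho _ _ (by omega)
      · rw [d5] at v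
        obtain ⟨e, h1, -, h3, h5⟩ := odd H (d := d) (by omega) v
        rw [h3, show (2 * d + 1) / 2 = d by omega, show 2 * e / 2 = e by omega, ← h5]
        exact (Conn.rho _ _ h1).symm

/-- Counting classes by a map that separates them. -/
theorem ncl_le (φ : ℕ → ℕ) (E' : Eqv N' r') (cl : ∀ x < N', ∀ y < N', r' x y → A' x → A' y)
    (h1 : ∀ a < N, A a → φ a < N' ∧ A' (φ a))
    (h2 : ∀ a < N, ∀ b < N, A a → A b → r' (φ a) (φ b) → r a b) : ncl N A r ≤ ncl N' A' r' := by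
  have s : ∀ a < N, A a → lst N' (r' (φ a)) < N' ∧ r' (φ a) (lst N' (r' (φ a))) := fun a ha u =>
    lst_spec ⟨φ a, (h1 a ha u).1, E'.1 _ (h1 a ha u).1⟩
  refine cnt_inj (fun a => lst N' (r' (φ a))) (fun a ha u => ?_) fun a ha b hb u v e => ?_
  · obtain ⟨k1, k2⟩ := s a ha u.1
    obtain ⟨k3, k4⟩ := h1 a ha u.1
    exact ⟨k1, cl _ k3 _ k1 k2 k4, fun e he k => lst_le he (E'.2.2 _ k3 _ k1 _ he k2 k)⟩
  · obtain ⟨k1, k2⟩ := s a ha u.1
    obtain ⟨-, k3⟩ := s b hb v.1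
    have l1 := (h1 a ha u.1).1
    have l2 := (h1 b hb v.1).1
    beta_reduce at e
    rw [← e] at k3
    have k := E'.2.2 _ l1 _ k1 _ l2 k2 (E'.2.1 _ l2 _ k1 k3)
    exact le_antisymm (u.2 b hb (h2 a ha b hb u.1 v.1 k))
      (v.2 a ha (h2 b hb a ha v.1 u.1 (E'.2.1 _ l1 _ l2 k)))

theorem ncl_eq (φ ψ : ℕ → ℕ) (E : Eqv N r) (E' : Eqv N' r')
    (cl : ∀ x < N, ∀ y < N, r x y → A x → A y) (cl' : ∀ x < N', ∀ y < N', r' x y → A' x → A' y)
    (h1 : ∀ a < N, A a → φ a < N' ∧ A' (φ a))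
    (h2 : ∀ a < N, ∀ b < N, A a → A b → (r a b ↔ r' (φ a) (φ b)))
    (h3 : ∀ p < N', A' p → ψ p < N ∧ A (ψ p) ∧ r' (φ (ψ p)) p) : ncl N A r = ncl N' A' r' := by
  refine le_antisymm (ncl_le φ E' cl' h1 fun a ha b hb u v => (h2 a ha b hb u v).2)
    (ncl_le ψ E cl (fun p hp u => ⟨(h3 p hp u).1, (h3 p hp u).2.1⟩) fun p hp q hq u v k => ?_)
  obtain ⟨a1, a2, a3⟩ := h3 p hp u
  obtain ⟨b1, b2, b3⟩ := h3 q hq v
  have l1 := (h1 _ a1 a2).1
  have l2 := (h1 _ b1 b2).1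
  exact E'.2.2 _ hp _ l1 _ hq (E'.2.1 _ l1 _ hp a3)
    (E'.2.2 _ l1 _ l2 _ hq ((h2 _ a1 _ b1 a2 b2).1 k) b3)

theorem cnt_eq (φ ψ : ℕ → ℕ) (E' : Eqv N' r') (cl' : ∀ x < N', ∀ y < N', r' x y → A' x → A' y)
    (h1 : ∀ a < N, A a → φ a < N' ∧ A' (φ a))
    (h2 : ∀ a < N, ∀ b < N, A a → A b → r' (φ a) (φ b) → a = b)
    (h3 : ∀ p < N', A' p → ψ p < N ∧ A (ψ p) ∧ r' (φ (ψ p)) p) : cnt N A = ncl N' A' r' := by
  rw [← ncl_eq (r := Eq) φ ψ ⟨fun _ _ => rfl, fun _ _ _ _ => Eq.symm, fun _ _ _ _ _ _ => Eq.trans⟩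
    E' (fun _ _ _ _ e u => e ▸ u) cl' h1
    (fun a ha b hb u v => ⟨fun e => e ▸ E'.1 _ (h1 a ha u).1, h2 a ha b hb u v⟩) h3]
  exact cnt_congr fun x _ => (and_iff_left fun _ _ e => Eq.le e).symm

theorem sc_cl {f : ℕ → ℕ} (p : Pm N f) (h : ∀ x < N, A x → A (f x)) :
    ∀ x < N, ∀ y < N, Sc N f x y → A x → A y := fun _ hx _ _ k u => Sc.ind p.1 hx u h k

theorem cn_cl (h : Cd N A ρ) (h' : Cd N A γ) :
    ∀ x < N, ∀ y < N, Conn N ρ γ x y → A x → A y := fun _ _ _ _ k =>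
  (Conn.ind (r := fun x y => A x ↔ A y) ⟨fun _ => Iff.rfl, Iff.symm, Iff.trans⟩
    (fun x hx => (h x hx).symm) (fun x hx => (h' x hx).symm) k).1

theorem two (q : Iv N γ) (ha : a < N) (k : Sc N γ a b) : b = a ∨ b = γ a :=
  Sc.ind (Q := fun e => e = a ∨ e = γ a) q.pm.1 ha (Or.inl rfl)
    (fun x _ u => u.elim (fun u => Or.inr (by rw [u])) fun u => Or.inl (by rw [u, (q a ha).2])) k

theorem alv (p : Pm N ρ) (q : Iv N γ) (c : Cd N A ρ) (h : ∀ d < N, ¬A d → γ d = d) :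
    gen N ρ γ = GenB.gl N ρ γ A := by
  rw [GenB.gen_eq A, ← GenB.gl_cg (γ := fun d => d) p (fun d hd => ⟨hd, rfl⟩) q (GenB.cd_not c)
    (fun _ _ => Iff.rfl) fun d hd u => (h d hd u).symm, GenB.gl_id p, add_zero]

theorem cnt2 (n : ℕ) (P : ℕ → Prop) : cnt (2 * n) (fun p => P (p / 2)) = 2 * cnt n P := by
  induction n with
  | zero => simp [cnt]
  | succ n ih =>
    rw [show 2 * (n + 1) = 2 * n + 1 + 1 by omega]
    simp only [cnt_succ, ih, show (2 * n + 1) / 2 = n by omega, show 2 * n / 2 = n by omega]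
    split_ifs <;> omega

/-- Conjugation by the links turns a cycle into the inverse cycle. -/
theorem conj {f g : ℕ → ℕ} (q : Iv N γ) (pf : Pm N f) (pg : Pm N g) (e : ∀ x, f (g x) = x)
    (ha : a < N) (h : Sc N (fun p => g (γ p)) a b) : Sc N (fun p => f (γ p)) (γ a) (γ b) := by
  have F := pf.comp q.pm
  have G := pg.comp q.pm
  refine Sc.ind (Q := fun d => Sc N (fun p => f (γ p)) (γ a) (γ d)) G.1 ha (Sc.refl _ (q a ha).1)
    (fun d hd k => k.trans F.1 (q a ha).1 (Sc.symm F (q _ (G.1 d hd)).1 ?_)) h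
  have s := Sc.step F.1 (q _ (G.1 d hd)).1
  rwa [(q _ (G.1 d hd)).2, e] at s

theorem med (H : PL.Ok n al lk) : gen (4 * n) r4 lk = gn n (tr lk) al := by
  have P := pm H
  have I := ed_iv n al
  have F := r3_pm.comp H.iv.pm
  have G := Two.pm.comp H.iv.pm
  have c4 : Cd (4 * n) (fun p => al (p / 4)) r4 := fun p _ => by simp only [r4_div]
  have l4 : Cd (4 * n) (fun p => al (p / 4)) lk := fun p hp => lk_al H hp
  have c2 : Cd (2 * n) (fun d => al (d / 2)) (tr lk) := fun d hd =>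
    ⟨fun u => by_contra fun v => v (by rwa [tr_dead H hd v] at u), fun u => (tr_al H hd u).2⟩
  have l2 : Cd (2 * n) (fun d => al (d / 2)) (ed al) := fun d _ => by simp only [ed_div]
  have e1 : ncl (2 * n) (fun d => al (d / 2)) (Conn (2 * n) (tr lk) (ed al)) =
      ncl (4 * n) (fun p => al (p / 4)) (Conn (4 * n) r4 lk) :=
    ncl_eq (fun d => 2 * d) (fun p => p / 2) (Conn.eqv _ _ _) (Conn.eqv _ _ _) (cn_cl c2 l2)
      (cn_cl c4 l4) (fun a ha u => ⟨by omega, by rwa [d4]⟩) (fun a ha b _ u _ => cn H ha u)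
      fun p hp u => ⟨by omega, by rwa [show p / 2 / 2 = p / 4 by omega], half lk hp⟩
  have e2 : cnt n al = ncl (4 * n) (fun p => al (p / 4)) (Sc (4 * n) r4) :=
    cnt_eq (fun c => 4 * c) (fun p => p / 4) Two.pm.eqv (sc_cl Two.pm fun x hx => (c4 x hx).2)
      (fun a ha u => ⟨by omega, by rwa [show 4 * a / 4 = a by omega]⟩)
      (fun a ha b hb _ _ k => by have := (Two.sc (by omega)).2 k; omega)
      fun p hp u => ⟨by omega, u, (Two.sc (by omega)).1 (by omega)⟩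
  have e3 : cnt n al = ncl (2 * n) (fun d => al (d / 2)) (Sc (2 * n) (ed al)) :=
    cnt_eq (fun c => 2 * c) (fun p => p / 2) I.pm.eqv (sc_cl I.pm fun x hx => (l2 x hx).2)
      (fun a ha u => ⟨by omega, by rwa [show 2 * a / 2 = a by omega]⟩)
      (fun a ha b hb _ _ k => by
        have := two I (by omega) k
        have := ed_div al (2 * a)
        omega)
      fun p hp u => ⟨by omega, u, by
        rcases Nat.even_or_odd' p with ⟨d, rfl | rfl⟩
        · rw [show 2 * (2 * d / 2) = 2 * d by omega]; exact Sc.refl _ hp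
        · have := Sc.step I.pm.1 (a := 2 * d) (by omega)
          rw [ed_pos (by rwa [show 2 * d / 2 = (2 * d + 1) / 2 by omega]), fl0] at this
          rwa [show 2 * ((2 * d + 1) / 2) = 2 * d by omega]⟩
  have e4 : cnt (2 * n) (fun d => al (d / 2)) = ncl (4 * n) (fun p => al (p / 4)) (Sc (4 * n) lk) :=
    cnt_eq (fun c => 2 * c) (fun p => if p % 2 = 0 then p / 2 else lk p / 2) H.iv.pm.eqv
      (sc_cl H.iv.pm fun x hx => (l4 x hx).2) (fun a ha u => ⟨by omega, by rwa [d4]⟩)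
      (fun a ha b hb u _ k => by
        have := two H.iv (by omega) k
        have := tr_eq H ha u
        omega)
      fun p hp u => by
        rcases Nat.even_or_odd' p with ⟨d, rfl | rfl⟩
        · rw [if_pos (by omega), show 2 * d / 2 = d by omega]
          exact ⟨by omega, by rwa [d4] at u, Sc.refl _ hp⟩
        · obtain ⟨e, h1, h2, h3, h5⟩ := odd H (d := d) (by omega) (by rwa [d5] at u)
          rw [if_neg (by omega), h3, show 2 * e / 2 = e by omega]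
          have := Sc.step H.iv.pm.1 (a := 2 * e) (by omega)
          rw [tr_eq H h1 h2, h5] at this
          exact ⟨h1, h2, this⟩
  have a3 : ∀ x < 4 * n, al (x / 4) → al (r3 (lk x) / 4) ∧ r3 (lk x) % 2 = x % 2 := fun x hx u => by
    have := H.par x hx u
    exact ⟨by rw [show r3 (lk x) / 4 = lk x / 4 by unfold r3; omega]; exact H.alive hx u,
      by unfold r3; omega⟩
  have e5 : ncl (4 * n) (fun p => al (p / 4)) (Sc (4 * n) fun p => r4 (lk p)) =
      ncl (4 * n) (fun p => al (p / 4)) (Sc (4 * n) fun p => r3 (lk p)) :=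
    ncl_eq lk lk G.eqv F.eqv (sc_cl G fun x hx u => (c4 _ (H.iv x hx).1).2 (H.alive hx u))
      (sc_cl F fun x hx u => (a3 x hx u).1) (fun a ha u => ⟨(H.iv a ha).1, H.alive ha u⟩)
      (fun a ha b hb _ _ => ⟨conj H.iv r3_pm Two.pm (fun x => by unfold r3 r4; omega) ha, fun k => by
        have := conj H.iv Two.pm r3_pm (fun x => by unfold r3 r4; omega) (H.iv a ha).1 k
        rwa [(H.iv a ha).2, (H.iv b hb).2] at this⟩)
      fun p hp u => ⟨(H.iv p hp).1, H.alive hp u, by rw [(H.iv p hp).2]; exact Sc.refl _ hp⟩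
  have e6 : ncl (2 * n) (fun d => al (d / 2)) (Sc (2 * n) (tr lk)) =
      ncl (4 * n) (fun p => p % 2 = 0 ∧ al (p / 4)) (Sc (4 * n) fun p => r3 (lk p)) :=
    ncl_eq (fun d => 2 * d) (fun p => p / 2) P.eqv F.eqv (sc_cl P fun x hx => (c2 x hx).2)
      (sc_cl F fun x hx u => ⟨(a3 x hx u.2).2.trans u.1, (a3 x hx u.2).1⟩)
      (fun a ha u => ⟨by omega, by omega, by rwa [d4]⟩) (fun a ha b _ u _ => vx H ha u)
      fun p hp u => ⟨by omega, by rw [show p / 2 / 2 = p / 4 by omega]; exact u.2, by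
        rw [show 2 * (p / 2) = p by omega]; exact Sc.refl _ hp⟩
  have e7 : ncl (2 * n) (fun d => al (d / 2)) (Sc (2 * n) fun d => tr lk (ed al d)) =
      ncl (4 * n) (fun p => ¬p % 2 = 0 ∧ al (p / 4)) (Sc (4 * n) fun p => r3 (lk p)) :=
    ncl_eq (fun d => 2 * d + 1) (fun p => p / 2) (fc_pm P al).eqv F.eqv
      (sc_cl (fc_pm P al) fun x hx u => (c2 _ (I x hx).1).2 ((l2 x hx).2 u))
      (sc_cl F fun x hx u => ⟨by rw [(a3 x hx u.2).2]; exact u.1, (a3 x hx u.2).1⟩)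
      (fun a ha u => ⟨by omega, by omega, by rwa [d5]⟩) (fun a ha b _ u _ => fa H ha u)
      fun p hp u => ⟨by omega, by rw [show p / 2 / 2 = p / 4 by omega]; exact u.2, by
        rw [show 2 * (p / 2) + 1 = p by omega]; exact Sc.refl _ hp⟩
  rw [gn, alv Two.pm H.iv c4 fun d hd u => (H.fix d hd).2 u, alv P I c2 fun d _ u => ed_neg u,
    GenB.gl, GenB.gl, e1, ← e2, ← e3, ← e4, e5, GenB.ncl_sp (4 * n) _ (fun p => p % 2 = 0)
      (Sc (4 * n) fun p => r3 (lk p)), ← e6, ← e7, cnt2, (cnt4 n al).2]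
  push_cast
  ring

end PortA

open PortA in
theorem poK : PoK where
  lv H h := ⟨pm H, h, fun _ hd u => tr_dead H hd u⟩
  lam p d _ := by
    unfold tr
    rw [(lam_iv p).2.1, if_neg (by omega)]
    omega
  rc := rc
  cyc {n _ _ c} H hc u := by
    rw [rc H (by omega) (by rwa [show (2 * c + 1) / 2 = c by omega]), Cyc,
      show 4 * c + (0 + 2) % 4 = 2 * (2 * c + 1) by omega, show 4 * c + 0 % 4 = 2 * (2 * c) by omega]
  vx := vx
  fa := fa
  cn := PortA.cn
  med := med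

end Pool.Agent.MP_1a6d78_lc.GN
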