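import Pool.Agent.MP_1a6d78_lc.GN.Spec

/-! PROJECT GN, row PORTB: kills and cuts of maps of ports are rounds of maps of darts. -/

namespace Pool.Agent.MP_1a6d78_lc.GN

open Classical ED PR PL

namespace PortB

variable {n i d : ℕ} {lk lk' pr en f g : ℕ → ℕ} {al al' R : ℕ → Prop}

theorem tr_eq (H : PL.Ok n al lk) (hd : d < 2 * n) (u : al (d / 2)) :
    lk (2 * d) = 2 * tr lk d + 1 := by
  have := H.par (2 * d) (by omega) (by rwa [show 2 * d / 4 = d / 2 by omega])
  unfold tr
  rw [if_neg (by omega)]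
  omega

theorem tr_al (H : PL.Ok n al lk) (hd : d < 2 * n) (u : al (d / 2)) :
    tr lk d < 2 * n ∧ al (tr lk d / 2) := by
  have e := tr_eq H hd u
  have h1 := (H.iv (2 * d) (by omega)).1
  have h2 := H.alive (a := 2 * d) (by omega) (by rwa [show 2 * d / 4 = d / 2 by omega])
  exact ⟨by omega, by rwa [show tr lk d / 2 = lk (2 * d) / 4 by omega]⟩

/-- A curve from an even port is a first return of darts. -/
theorem cv_fr (H : PL.Ok n al lk) {S P Q : ℕ → Prop} {h : ℕ → ℕ}
    (hS : ∀ d, S d → g d < 2 * n ∧ al (g d / 2) ∧ f d = h (tr lk (g d)) ∧ S (f d) ∧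
      (P (tr lk (g d) / 2) ↔ Q (f d)) ∧ (¬Q (f d) → pr (2 * tr lk (g d) + 1) = 2 * g (f d)))
    {x r : ℕ} (u : Cv lk pr P x r) : ∀ d, S d → x = 2 * g d → Fr f Q d (h (r / 2)) := by
  induction u with
  | stop v =>
    rintro d s rfl
    obtain ⟨k1, k2, k3, -, k5, -⟩ := hS d s
    have e := tr_eq H k1 k2
    rw [show lk (2 * g d) / 4 = tr lk (g d) / 2 by omega] at v
    rw [show lk (2 * g d) / 2 = tr lk (g d) by omega, ← k3]
    exact .stop (k5.1 v)
  | go v _ ih =>
    rintro d s rfl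
    obtain ⟨k1, k2, -, k4, k5, k6⟩ := hS d s
    have e := tr_eq H k1 k2
    rw [show lk (2 * g d) / 4 = tr lk (g d) / 2 by omega, k5] at v
    exact .go v (ih _ k4 (by rw [e, k6 v]))

theorem kill (H : PL.Ok n al lk) (H' : PL.Ok n al' lk') (hs : ∀ c, al' c → al c)
    (h1 : ∀ p < 4 * n, al' (p / 4) → Cv lk pr al' p (lk' p)) (hf : ∀ d, f d = tr lk (g d))
    (hg : ∀ d, g d / 2 = d / 2) (g0 : ∀ d, al' (d / 2) → g d = d)
    (g1 : ∀ d, al (d / 2) → ¬al' (d / 2) → pr (2 * d + 1) = 2 * g d) (hd : d < 2 * n)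
    (u : al' (d / 2)) : Fr f (fun e => al' (e / 2)) d (tr lk' d) := by
  have e := tr_eq H' hd u
  have := cv_fr (f := f) (g := g) (h := id) (S := fun d => d < 2 * n ∧ al (d / 2))
    (Q := fun e => al' (e / 2)) H (fun x s => by
      have k1 : g x < 2 * n := by have := hg x; omega
      have k2 : al (g x / 2) := by rw [hg]; exact s.2
      have k3 := tr_al H k1 k2
      rw [hf]
      exact ⟨k1, k2, rfl, k3, Iff.rfl, g1 _ k3.2⟩)
    (h1 (2 * d) (by omega) (by rwa [show 2 * d / 4 = d / 2 by omega])) d ⟨hd, hs _ u⟩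
    (by rw [g0 d u])
  rwa [show id (lk' (2 * d) / 2) = tr lk' d by simp only [id]; omega] at this

theorem dcut (H : PL.Ok n al lk) (C : IsCut n lk lk' i R en) :
    ∃ X, DCut n (tr lk) (tr lk') al X fun c => R c ∧ en c = ct i := by
  have hi := C.hi
  obtain ⟨ev, e1, e2, e3⟩ : ∃ ev : ℕ → ℕ,
      (∀ a, (i % 2 = 0 ∧ ev a = i) ∨ (i % 2 = 1 ∧ ev a = en a)) ∧
      (∀ a, R a → ∃ b, R b ∧ lk (4 * a + ev a) + ev b = 4 * b + en b + i) ∧
      ∀ a, R a → Cv lk (fun r => 4 * (r / 4) + ev (r / 4)) (fun c => en c = en a) (4 * a + ev a)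
        (lk' (4 * a + ev a)) := by
    rcases Nat.mod_two_eq_zero_or_one i with h | h
    · refine ⟨fun _ => i, fun _ => Or.inl ⟨h, rfl⟩, fun a u => ?_, C.on⟩
      obtain ⟨-, b, k1, k2⟩ := C.nx a u
      exact ⟨b, k1, by rw [k2]⟩
    · refine ⟨en, fun _ => Or.inr ⟨h, rfl⟩, fun a u => ?_, C.bk⟩
      obtain ⟨b, k1, k2⟩ := C.pv' H.iv u
      exact ⟨b, k1, by rw [k2]; omega⟩
  obtain ⟨T, hT⟩ : ∃ T : ℕ → Prop, T = fun c => R c ∧ en c = ct i := ⟨_, rfl⟩
  have t1 : ∀ c, R c → (T c ↔ en c = ct i) := fun c u => by rw [hT]; exact and_iff_right u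
  have lt : ∀ d, R (d / 2) → d < 2 * n := fun d u => by have := (C.nx _ u).1; omega
  have px : ∀ d, R (d / 2) ∧ 2 * d % 4 = ev (d / 2) → 4 * (d / 2) + ev (d / 2) = 2 * d :=
    fun d u => by have := u.2; omega
  have st : ∀ d, R (d / 2) ∧ 2 * d % 4 = ev (d / 2) → R (tr lk d / 2) ∧
      2 * ed T (tr lk d) % 4 = ev (tr lk d / 2) ∧ (i % 2 = 1 → tr lk d % 2 = i / 2) := fun d u => by
    obtain ⟨b, k1, k2⟩ := e2 _ u.1
    have k3 := tr_eq H (lt d u.1) (C.live H u.1)
    have k4 := (C.pv b k1).1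
    have k5 := e1 b
    rw [px d u, k3] at k2
    have k6 : tr lk d / 2 = b := by omega
    rw [k6]
    refine ⟨k1, ?_, by omega⟩
    by_cases v : en b = ct i
    · rw [ed_pos (k6 ▸ (t1 b k1).2 v)]
      unfold ct at v
      unfold fl
      split_ifs <;> omega
    · rw [ed_neg (k6 ▸ fun w => v ((t1 b k1).1 w))]
      unfold ct at v
      omega
  have nx : ∀ d, R (d / 2) ∧ 2 * d % 4 = ev (d / 2) → R (ed T (tr lk d) / 2) ∧
      2 * ed T (tr lk d) % 4 = ev (ed T (tr lk d) / 2) := fun d u => by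
    rw [ed_div]
    exact ⟨(st d u).1, (st d u).2.1⟩
  rw [← hT]
  refine ⟨fun d => R (d / 2) ∧ 2 * d % 4 = ev (d / 2), fun d u => C.live H u.1, fun d u v => ?_,
    fun c u => ?_, nx, ?_, fun d u => ?_, fun d hd u => ?_⟩
  · rw [fl_div] at v
    have := fl_mod d
    have := u.2
    have := v.2
    omega
  · have k : R c := (hT ▸ u).1
    have := C.en4 k
    have := e1 c
    rw [show 2 * c / 2 = c by omega, show (2 * c + 1) / 2 = c by omega]
    simp only [k, true_and]
    omega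
  · rcases Nat.mod_two_eq_zero_or_one i with h | h
    · refine Or.inl fun d e u v => ?_
      have := e1 (d / 2)
      have := e1 (e / 2)
      have := u.2
      have := v.2
      omega
    · exact Or.inr fun d e u v => ((st d u).2.2 h).trans ((st e v).2.2 h).symm
  · have e := tr_eq (C.ok H) (lt d u.1) (C.live H u.1)
    have := cv_fr (f := fun e => ed T (tr lk e)) (g := id) (h := ed T)
      (S := fun d => R (d / 2) ∧ 2 * d % 4 = ev (d / 2)) (Q := fun e => T (e / 2) ↔ T (d / 2)) H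
      (fun x s => by
        have k1 := (st x s).1
        have k2 := px _ (nx x s)
        have k3 := (C.pv _ k1).1
        have k4 := (C.pv _ u.1).1
        refine ⟨lt x s.1, C.live H s.1, rfl, nx x s, ?_, fun _ => ?_⟩
        · simp only [id, ed_div]
          rw [t1 _ k1, t1 _ u.1]
          unfold ct
          omega
        · rw [ed_div] at k2
          simp only [id]
          rw [show (2 * tr lk x + 1) / 4 = tr lk x / 2 by omega, k2])
      (e3 _ u.1) d u (px d u)
    rwa [px d u, show lk' (2 * d) / 2 = tr lk' d by omega] at this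
  · have : lk' (2 * d) = lk (2 * d) := C.off _ (by omega) fun v => u (by
      rw [show 2 * d / 4 = d / 2 by omega] at v
      have := C.en4 v.1
      have := e1 (d / 2)
      have := v.2
      exact ⟨v.1, by omega⟩)
    unfold tr
    rw [this]

end PortB

open PortB

theorem poR : FrK → OpK → PoK → PoR := fun _ O K =>
  ⟨fun {n k al al' lk lk'} H H' hl hs h1 hk h2 =>
    O.del (K.lv H hl) (K.lv H' fun c u => hl c (hs c u)) hs
      (fun _ hd u => kill (g := id) H H' hs h1 (fun _ => rfl) (fun _ => rfl) (fun _ _ => rfl)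
        (fun d _ _ => by unfold sm r3; rw [if_neg (by omega)]; simp only [id]; omega) hd u)
      fun c u v w => h2 c (hl c u) u v ((K.cyc H (hl c u) u).1 w),
  fun {n k al al' lk lk'} H H' hl hs h1 hk h2 =>
    O.con (K.lv H hl) (K.lv H' fun c u => hl c (hs c u)) hs
      (fun _ hd u => kill (g := ed fun c => al c ∧ ¬al' c) H H' hs h1 (fun _ => rfl) (ed_div _)
        (fun _ v => ed_neg fun w => w.2 v) (fun d v w => by
          rw [ed_pos (A := fun c => al c ∧ ¬al' c) ⟨v, w⟩]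
          unfold sm r4 fl
          rw [if_pos (by omega)]
          split_ifs <;> omega) hd u)
      fun c u v => (K.cyc H (hl c u) u).2 (h2 c (hl c u) u v),
  fun H hl C => (dcut H C).elim fun _ D => O.cut (K.lv H hl) (K.lv (C.ok H) hl) D⟩

end Pool.Agent.MP_1a6d78_lc.GN
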