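import Pool.Agent.MP_1a6d78_lc.GN.Spec

/-! PROJECT GN: the top map without the darts of the walks is plane. -/

namespace Pool.Agent.MP_1a6d78_lc.GN

open Classical ED PR PL

namespace TopK

section

variable {N M a : ℕ} {r : ℕ → ℕ → Prop} {C P : ℕ → Prop}

theorem mn (h : Eqv N r) (ha : a < N) :
    lst N (r a) < N ∧ r a (lst N (r a)) ∧ ∀ e < N, r (lst N (r a)) e → lst N (r a) ≤ e := by
  obtain ⟨h1, h2⟩ := lst_spec (P := r a) ⟨a, ha, h.1 a ha⟩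
  exact ⟨h1, h2, fun e he k => lst_le he (h.2.2 a ha _ h1 e he h2 k)⟩

/-- An injection into the classes. -/
theorem cls_le (h : Eqv N r) (hC : ∀ x < N, ∀ y < N, r x y → C x → C y) (f : ℕ → ℕ)
    (h1 : ∀ d < M, P d → f d < N ∧ C (f d))
    (h2 : ∀ a < M, ∀ b < M, P a → P b → r (f a) (f b) → a = b) : cnt M P ≤ ncl N C r := by
  refine cnt_inj (fun d => lst N (r (f d))) (fun d hd k => ?_) fun a ha b hb k l e => ?_
  · obtain ⟨u, v⟩ := h1 d hd k
    obtain ⟨m1, m2, m3⟩ := mn h u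
    exact ⟨m1, hC _ u _ m1 m2 v, m3⟩
  · obtain ⟨m1, m2, -⟩ := mn h (h1 a ha k).1
    obtain ⟨m3, m4, -⟩ := mn h (h1 b hb l).1
    rw [e] at m2
    exact h2 a ha b hb k l
      (h.2.2 _ (h1 a ha k).1 _ m3 _ (h1 b hb l).1 m2 (h.2.1 _ (h1 b hb l).1 _ m3 m4))

/-- An injection into the classes that misses the class of `a`. -/
theorem cls_lt (h : Eqv N r) (hC : ∀ x < N, ∀ y < N, r x y → C x → C y) (f : ℕ → ℕ) (ha : a < N)
    (h0 : C a) (h1 : ∀ d < M, P d → f d < N ∧ C (f d) ∧ ¬r a (f d))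
    (h2 : ∀ a < M, ∀ b < M, P a → P b → r (f a) (f b) → a = b) : cnt M P < ncl N C r := by
  obtain ⟨m1, m2, m3⟩ := mn h ha
  refine (cls_le (C := fun x => C x ∧ ¬r a x) h (fun x hx y hy k l => ⟨hC x hx y hy k l.1,
    fun u => l.2 (h.2.2 a ha y hy x hx u (h.2.1 x hx y hy k))⟩) f h1 h2).trans_lt ?_
  exact cnt_lt (fun x _ k => ⟨k.1.1, k.2⟩) m1 ⟨hC a ha _ m1 m2 h0, m3⟩ fun k => k.1.2 m2

end

variable {n : ℕ} {σ : ℕ → ℕ} {A K W : ℕ → Prop}

/-- The darts that are not the least of their edge are heads. -/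
theorem edges (ρ : ℕ → ℕ) (B : ℕ → Prop) (a : ℕ) : cnt (2 * n) (Conn (2 * n) ρ (ed B) a) ≤
    ncl (2 * n) (Conn (2 * n) ρ (ed B) a) (Sc (2 * n) (ed B)) +
      cnt n fun c => Conn (2 * n) ρ (ed B) a (2 * c) ∧ B c := by
  have key : ∀ d < 2 * n, (¬∀ e < 2 * n, Sc (2 * n) (ed B) d e → d ≤ e) →
      B (d / 2) ∧ d % 2 = 1 := fun d hd k => by
    by_contra hn
    refine k fun e _ u => ?_
    have : e = d ∨ e = ed B d := Sc.ind (Q := fun e => e = d ∨ e = ed B d) (ed_iv n B).pm.1 hd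
      (Or.inl rfl) (fun x _ v => v.elim (fun w => Or.inr (w ▸ rfl))
        fun w => Or.inl (w ▸ ed_ed B d)) u
    unfold ed fl at this
    split_ifs at this with h1 h2
    · omega
    · exact absurd ⟨h1, by omega⟩ hn
    · omega
  rw [cnt_split (2 * n) _ fun d => ∀ e < 2 * n, Sc (2 * n) (ed B) d e → d ≤ e]
  refine Nat.add_le_add (cnt_mono fun d _ k => k.symm) (cnt_inj (fun d => d / 2)
    (fun d hd k => ⟨by omega, ?_, (key d hd k.1).1⟩) fun a ha b hb k l e => ?_)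
  · obtain ⟨u, v⟩ := key d hd k.1
    have := k.2.trans (Conn.gam ρ (ed B) hd)
    rwa [ed_pos u, fl, if_neg (by omega), show d - 1 = 2 * (d / 2) by omega] at this
  · have := (key a ha k.1).2
    have := (key b hb l.1).2
    omega

/-- The contracted cells. -/
def Gm (n : ℕ) (σ : ℕ → ℕ) (A K W : ℕ → Prop) (c : ℕ) : Prop :=
  K c ∧ W (2 * c) ∧ (σ (2 * c) % 2 = 1 ∨ sad n σ A c)

theorem both (l : Lv n σ A) (hK : ∀ c, K c → A c) (hf : ∀ d < 2 * n, W d → W (fw n σ d))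
    (hs : ∀ c, K c → sad n σ A c → W (2 * c) ∧ W (2 * c + 1)) {d : ℕ}
    (h : Gm n σ A K W (d / 2)) : W d := by
  obtain ⟨c, hc⟩ : ∃ c, c = d / 2 := ⟨_, rfl⟩
  rw [← hc] at h
  have h1 : W (2 * c + 1) := by
    by_cases u : sad n σ A c
    · exact (hs c h.1 u).2
    have v := h.2.2.resolve_right u
    have c1 := l.lt c (hK c h.1)
    have ex : ∃ e < n, σ (2 * e) % 2 = 1 ∧ Sc (2 * n) σ (2 * c) (2 * e) :=
      ⟨c, c1, v, Sc.refl σ (by omega)⟩
    obtain ⟨e1, e2, e3⟩ := lst_spec ex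
    have := hf _ (by omega) h.2.1
    rw [fw, if_pos ex] at this
    by_cases w : lst n (fun e => σ (2 * e) % 2 = 1 ∧ Sc (2 * n) σ (2 * c) (2 * e)) = c
    · rwa [w] at this
    · exact absurd ⟨_, e1, w, e2.trans v.symm, by rwa [if_pos v]⟩ u
  rcases (by omega : d = 2 * c ∨ d = 2 * c + 1) with e | e
  · exact e ▸ h.2.1
  · exact e ▸ h1

end TopK

open TopK in
theorem topS (F : FrK) (G : GnK) : TopS := by
  intro n σ A K W l hK cK cW hf hs hl
  have bo := fun d => both (d := d) l hK hf hs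
  generalize hΓ : Gm n σ A K W = Γ at bo
  have dΓ : ∀ c, Γ c ↔ K c ∧ W (2 * c) ∧ (σ (2 * c) % 2 = 1 ∨ sad n σ A c) := fun c => by
    rw [← hΓ, Gm]
  have p := fc_pm l.pm Γ
  have q := ed_iv n fun c => K c ∧ ¬Γ c
  have off : ∀ d, ¬W d → fc σ Γ d = σ d := fun d k => by rw [fc, ed_neg fun u => k (bo d u)]
  have rW : ∀ d < 2 * n, W (fc σ Γ d) ↔ W d := fun d hd => by
    rw [fc, cW _ (ed_lt Γ hd)]
    by_cases u : Γ (d / 2)
    · exact iff_of_true (bo _ (by rwa [ed_div])) (bo d u)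
    · rw [ed_neg u]
  have rK : ∀ (B : ℕ → Prop), ∀ d < 2 * n, K (d / 2) → K (fc σ B d / 2) := fun B d hd k =>
    (cK _ (ed_lt B hd)).2 (show K (ed B d / 2) by rwa [ed_div])
  have face : ∀ d < 2 * n, K (d / 2) → fc σ Γ (ed (fun c => K c ∧ ¬Γ c) d) = fc σ A d :=
    fun d _ k => by
      rw [fc, fc, ed_or fun c u v => v.2 u]
      exact congrArg σ (ed_cg (B := A) (iff_of_true (by tauto) (hK _ k)))
  have z : gen (2 * n) (fc σ Γ) (rs (fun _ => True) (ed fun c => K c ∧ ¬Γ c)) = 0 := by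
    refine G.comp p q (fun _ _ => Iff.rfl) (fun _ _ => Iff.rfl) fun a ha _ => ?_
    have e1 := edges (n := n) (fc σ Γ) (fun c => K c ∧ ¬Γ c) a
    rw [cnt_split n _ fun c => σ (2 * c) % 2 = 1] at e1
    have cr : ∀ x < 2 * n, Conn (2 * n) (fc σ Γ) (ed fun c => K c ∧ ¬Γ c) a (fc σ Γ x) ↔
        Conn (2 * n) (fc σ Γ) (ed fun c => K c ∧ ¬Γ c) a x := fun x hx =>
      ⟨fun u => u.trans (Conn.rho _ _ hx).symm, fun u => u.trans (Conn.rho _ _ hx)⟩
    have cg : ∀ x < 2 * n, Conn (2 * n) (fc σ Γ) (ed fun c => K c ∧ ¬Γ c) a x →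
        Conn (2 * n) (fc σ Γ) (ed fun c => K c ∧ ¬Γ c) a (ed (fun c => K c ∧ ¬Γ c) x) :=
      fun x hx u => u.trans (Conn.gam _ _ hx)
    have c1 : ∀ x < 2 * n, ∀ y < 2 * n, Sc (2 * n) (fc σ Γ) x y →
        Conn (2 * n) (fc σ Γ) (ed fun c => K c ∧ ¬Γ c) a x →
        Conn (2 * n) (fc σ Γ) (ed fun c => K c ∧ ¬Γ c) a y :=
      fun x hx y _ u v => v.trans (u.conn' _ p hx)
    have c2 : ∀ x < 2 * n, ∀ y < 2 * n,
        Sc (2 * n) (fun d => fc σ Γ (ed (fun c => K c ∧ ¬Γ c) d)) x y →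
        Conn (2 * n) (fc σ Γ) (ed fun c => K c ∧ ¬Γ c) a x →
        Conn (2 * n) (fc σ Γ) (ed fun c => K c ∧ ¬Γ c) a y :=
      fun x hx y _ u v => v.trans (u.conn p q hx)
    have c0 := Conn.refl (2 * n) (fc σ Γ) (ed fun c => K c ∧ ¬Γ c) a
    generalize Conn (2 * n) (fc σ Γ) (ed fun c => K c ∧ ¬Γ c) a = C at e1 cr cg c1 c2 c0 ⊢
    obtain ⟨w, w1, w2, w3⟩ : ∃ w < 2 * n, C w ∧ (K (w / 2) → W w) := by
      by_contra hn
      have hn : ∀ w < 2 * n, C w → K (w / 2) ∧ ¬W w := fun w u v => by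
        by_contra k
        exact hn ⟨w, u, v, by tauto⟩
      have s1 : ∀ x < 2 * n, C x → C (ed A x) := fun x hx u => by
        obtain ⟨v1, v2⟩ := hn x hx u
        have := cg x hx u
        rwa [ed_cg (B := A) (iff_of_true ⟨v1, fun k => v2 (bo x k)⟩ (hK _ v1))] at this
      obtain ⟨m1, m2⟩ := lst_spec (P := C) ⟨a, ha, c0⟩
      refine (hn _ m1 m2).2 (hl _ m1 (hn _ m1 m2).1 fun e he k => ?_)
      have := Conn.ind (r := fun x y => C x ↔ C y) ⟨fun _ => Iff.rfl, Iff.symm, Iff.trans⟩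
        (fun x hx => ⟨fun u => off x (hn x hx u).2 ▸ (cr x hx).2 u, fun u => (cr x hx).1
          (off x (fun v => (hn _ (l.pm.1 x hx) u).2 ((cW x hx).2 v)) ▸ u)⟩)
        (fun x hx => ⟨s1 x hx, fun u => ed_ed A x ▸ s1 _ (ed_lt A hx) u⟩) k
      exact (lst_le (he.trans m1) (this.1 m2)).not_gt he
    have nW : ∀ c, σ (2 * c) % 2 = 1 ∧ C (2 * c) ∧ K c ∧ ¬Γ c → ¬W (2 * c) := fun c k u =>
      k.2.2.2 ((dΓ c).2 ⟨k.2.2.1, u, Or.inl k.1⟩)
    have ns : ∀ c, K c → ¬Γ c → ¬sad n σ A c := fun c k u v =>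
      u ((dΓ c).2 ⟨k, (hs c k v).1, Or.inr v⟩)
    have e2 := cls_lt (M := n) (P := fun c => σ (2 * c) % 2 = 1 ∧ C (2 * c) ∧ K c ∧ ¬Γ c) p.eqv c1
      (fun c => 2 * c) w1 w2 (fun c hc k => ⟨by omega, k.2.1, fun u => by
        have := Sc.ind (Q := fun x => K (x / 2) ∧ ¬W x) p.1 (show 2 * c < 2 * n by omega)
          ⟨by rw [show 2 * c / 2 = c by omega]; exact k.2.2.1, nW c k⟩
          (fun x hx v => ⟨rK Γ x hx v.1, fun y => v.2 ((rW x hx).1 y)⟩) (u.symm p w1)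
        exact this.2 (w3 this.1)⟩) fun c hc e he k k' u => by
      by_contra hn
      have h2 : 2 * c < 2 * n := by omega
      have := Sc.ind (Q := fun x => ¬W x ∧ Sc (2 * n) σ (2 * c) x) p.1 h2
        ⟨nW c k, Sc.refl σ h2⟩ (fun x hx v => ⟨fun y => v.1 ((rW x hx).1 y),
          off x v.1 ▸ v.2.trans l.pm.1 h2 (Sc.step l.pm.1 hx)⟩) u
      exact ns c k.2.2.1 k.2.2.2 ⟨e, he, Ne.symm hn, k'.1.trans k.1.symm, by
        rw [if_pos k.1]; exact this.2⟩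
    have e3 := cls_le (M := n) (P := fun c => ¬σ (2 * c) % 2 = 1 ∧ C (2 * c) ∧ K c ∧ ¬Γ c)
      (p.comp q.pm).eqv c2 (fun c => 2 * c + 1) (fun c hc k => ⟨by omega, by
        have := cg _ (by omega) k.2.1
        rwa [ed_pos (by rw [show 2 * c / 2 = c by omega]; exact k.2.2), fl0] at this⟩)
      fun c hc e he k k' u => by
      by_contra hn
      have h2 : 2 * c + 1 < 2 * n := by omega
      have pA := fc_pm l.pm A
      have := Sc.ind (Q := fun x => K (x / 2) ∧ Sc (2 * n) (fc σ A) (2 * c + 1) x)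
        (p.comp q.pm).1 h2 ⟨by rw [show (2 * c + 1) / 2 = c by omega]; exact k.2.2.1, Sc.refl _ h2⟩
        (fun x hx v => by
          rw [face x hx v.1]
          exact ⟨rK A x hx v.1, v.2.trans pA.1 h2 (Sc.step pA.1 hx)⟩) u
      exact ns c k.2.2.1 k.2.2.2 ⟨e, he, Ne.symm hn, by
        have := k.1
        have := k'.1
        omega, by rw [if_neg k.1]; exact this.2⟩
    omega
  have qB := ed_iv n fun c => K c ∧ ¬W (2 * c) ∧ ¬W (2 * c + 1)
  have m := G.mono p qB q (ed_sb fun c k => ⟨k.1, fun u => k.2.1 ((dΓ c).1 u).2.1⟩)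
  rw [G.cg (ρ' := fc σ Γ) (γ' := rs (fun _ => True) (ed fun c => K c ∧ ¬Γ c)) p q
    (fun _ _ => rfl) (fun _ _ => (if_pos trivial).symm), z,
    F.gen (P := fun d => ¬W d) p l.pm ⟨qB, fun d _ k => ed_neg fun u => k fun v => by
      rcases (by omega : d = 2 * (d / 2) ∨ d = 2 * (d / 2) + 1) with e | e
      exacts [u.2.1 (e ▸ v), u.2.2 (e ▸ v)]⟩ fun x hx k => ⟨σ x, off x k ▸ Fr.stop
        fun v => k ((rW x hx).1 v), Fr.stop fun v => k ((cW x hx).1 v)⟩] at m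
  exact le_antisymm m (G.nonneg l.pm qB)

end Pool.Agent.MP_1a6d78_lc.GN
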