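import Pool.Agent.MP_1a6d78_lc.GN.Cnt
import Pool.Agent.MP_1a6d78_lc.GN.GenA
import Pool.Agent.MP_1a6d78_lc.GN.GenB
import Pool.Agent.MP_1a6d78_lc.GN.Ops
import Pool.Agent.MP_1a6d78_lc.GN.PortA
import Pool.Agent.MP_1a6d78_lc.GN.PortB
import Pool.Agent.MP_1a6d78_lc.GN.Cn
import Pool.Agent.MP_1a6d78_lc.GN.His
import Pool.Agent.MP_1a6d78_lc.GN.Top
import Pool.Agent.MP_1a6d78_lc.GN.Drop
import Pool.Agent.MP_1a6d78_lc.GN.Plane
import Pool.Agent.MP_1a6d78_lc.GN.Ptr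
import Pool.Agent.MP_1a6d78_lc.GN.Main

/-! PROJECT GN: all rows together. -/

namespace Pool.Agent.MP_1a6d78_lc.GN

open PR

theorem gnK : GnK := ⟨gnA, gnB gnA⟩

theorem opAll : OpK := opK frK gnK

theorem poAll : PoR := poR frK opAll poK

theorem cnAll : CnS := cnS gnK

theorem hiAll : HiS := hiS gnK

theorem hyAll : HyS := hyS frK gnK hiAll

theorem coAll : CoS := coS frK gnK hiAll hyAll

theorem plAll : PlS := plS frK gnK hiAll hyAll (topS frK gnK) (drS gnK)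

theorem mainAll : MainS := mainS hiAll ptS

/-- A history with the connectivity test `cn` is correct. -/
theorem ok_cn {H : Hs} {L g : ℕ} (l : Lv H.n (H.σ 0) (H.A 0))
    (o : ∀ k < L, Op H.n (H.σ k) (H.σ (k + 1)) (H.A k) (H.A (k + 1)) (H.T k))
    (c : H.C = cn (2 * H.n) g) (h : gn H.n (H.σ 0) (H.A 0) ≤ 2 * g) : H.Ok L :=
  ⟨l, o, fun ρ γ p q u a ha b => c ▸ cnAll _ g ρ γ p q (u.trans h) a ha b⟩

end Pool.Agent.MP_1a6d78_lc.GN
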