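import Pool.Agent.MP_1a6d78_lc.GN.Defs

/-! PROJECT GN: small facts on edges, walks and programs with two arguments. -/

namespace Pool.Agent.MP_1a6d78_lc.GN

open Classical ED PR PL

variable {n N a b c d : ℕ} {σ : ℕ → ℕ} {A B : ℕ → Prop}

theorem fl_div (d : ℕ) : fl d / 2 = d / 2 := by unfold fl; split_ifs <;> omega

theorem fl_fl (d : ℕ) : fl (fl d) = d := by unfold fl; split_ifs <;> omega

theorem fl_mod (d : ℕ) : (fl d + d) % 2 = 1 := by unfold fl; split_ifs <;> omega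

theorem ed_pos (h : A (d / 2)) : ed A d = fl d := if_pos h

theorem ed_neg (h : ¬A (d / 2)) : ed A d = d := if_neg h

theorem ed_div (A : ℕ → Prop) (d : ℕ) : ed A d / 2 = d / 2 := by
  unfold ed
  split_ifs
  exacts [fl_div d, rfl]

theorem ed_ed (A : ℕ → Prop) (d : ℕ) : ed A (ed A d) = d := by
  by_cases h : A (d / 2)
  · rw [ed_pos h, ed_pos (by rwa [fl_div]), fl_fl]
  · rw [ed_neg h, ed_neg h]

theorem ed_lt (A : ℕ → Prop) (h : d < 2 * n) : ed A d < 2 * n := by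
  have := ed_div A d
  omega

theorem ed_iv (n : ℕ) (A : ℕ → Prop) : Iv (2 * n) (ed A) := fun _ h => ⟨ed_lt A h, ed_ed A _⟩

theorem ed_cg (h : A (d / 2) ↔ B (d / 2)) : ed A d = ed B d := if_congr h rfl rfl

theorem ed_sb (h : ∀ c, A c → B c) : Sb N (ed A) (ed B) := fun d _ => by
  by_cases u : A (d / 2)
  · exact Or.inr (by rw [ed_pos u, ed_pos (h _ u)])
  · exact Or.inl (ed_neg u)

/-- The edges of a disjoint union. -/
theorem ed_or (h : ∀ c, A c → ¬B c) (d : ℕ) : ed A (ed B d) = ed (fun c => A c ∨ B c) d := by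
  by_cases u : B (d / 2)
  · rw [ed_pos u, ed_neg (by rw [fl_div]; exact fun v => h _ v u), ed_pos (Or.inr u)]
  · rw [ed_neg u]
    exact ed_cg (B := fun c => A c ∨ B c) (by simp [u])

theorem fc_pm (p : Pm (2 * n) σ) (A : ℕ → Prop) : Pm (2 * n) (fc σ A) := p.comp (ed_iv n A).pm

theorem Lv.cl (h : Lv n σ A) (hd : d < 2 * n) : A (σ d / 2) ↔ A (d / 2) := by
  refine ⟨fun u => by_contra fun v => v (by rwa [h.fx d hd v] at u), fun u => by_contra fun v => ?_⟩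
  have := h.pm.2 _ (h.pm.1 d hd) d hd (h.fx _ (h.pm.1 d hd) v)
  exact v (by rwa [this])

theorem Rc.sig (A : ℕ → Prop) (h : a < 2 * n) : Rc n σ A a (σ a) := .single ⟨h, Or.inl rfl⟩

theorem Rc.edge (h : c < n) (u : A c) : Rc n σ A (2 * c) (2 * c + 1) :=
  .single ⟨by omega, Or.inr ⟨by omega, by rwa [show 2 * c / 2 = c by omega], rfl⟩⟩

theorem Rc.lt (p : Pm (2 * n) σ) (h : Rc n σ A a b) (ha : a < 2 * n) : b < 2 * n := by
  induction h with
  | refl => exact ha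
  | tail _ u _ =>
    rcases u with ⟨u, rfl | ⟨e, -, rfl⟩⟩
    · exact p.1 _ u
    · omega

theorem Rc.sc (p : Pm (2 * n) σ) (A : ℕ → Prop) (ha : a < 2 * n) (h : Sc (2 * n) σ a b) :
    Rc n σ A a b :=
  Sc.ind p.1 ha .refl (fun _ hd u => u.trans (Rc.sig A hd)) h

theorem Rc.back (p : Pm (2 * n) σ) (A : ℕ → Prop) (ha : a < 2 * n) : Rc n σ A (σ a) a :=
  .sc p A (p.1 a ha) ((Sc.step p.1 ha).symm p ha)

theorem Rc.mono (h : ∀ c, A c → B c) (u : Rc n σ A a b) : Rc n σ B a b := by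
  induction u with
  | refl => exact .refl
  | tail _ v ih => exact ih.tail ⟨v.1, v.2.imp_right fun w => ⟨w.1, h _ w.2.1, w.2.2⟩⟩

theorem Conn.lt {ρ γ : ℕ → ℕ} (p : Pm N ρ) (q : Iv N γ) (h : Conn N ρ γ a b) (ha : a < N) :
    b < N :=
  (Conn.ind (r := fun x y => x < N ↔ y < N) ⟨fun _ => Iff.rfl, Iff.symm, Iff.trans⟩
    (fun x k => iff_of_true k (p.1 x k)) (fun x k => iff_of_true k (q x k).1) h).1 ha

theorem Un.step (h : Un σ A d) : Un σ A (fc σ A d) := fun t => by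
  rw [← Function.iterate_succ_apply, h, ← h 1, Function.iterate_one]

/-- A cell on a face of one kind of darts is on a directed cycle. -/
theorem Un.cyc (l : Lv n σ A) (u : A c) (h : Un σ A (2 * c) ∨ Un σ A (2 * c + 1)) :
    Rc n σ A (2 * c + 1) (2 * c) := by
  have hc := l.lt c u
  have p := fc_pm l.pm A
  have st : ∀ x, x < 2 * n ∧ A (x / 2) ∧ Un σ A x → fc σ A x < 2 * n ∧ A (fc σ A x / 2) ∧
      Un σ A (fc σ A x) := fun x k =>
    ⟨p.1 x k.1, (l.cl (ed_lt A k.1)).2 (by rw [ed_div]; exact k.2.1), k.2.2.step⟩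
  rcases h with h | h
  · obtain ⟨t, h1, h2⟩ := p.period (a := 2 * c) (by omega)
    obtain ⟨t, rfl⟩ : ∃ v, t = v + 1 := ⟨t - 1, by omega⟩
    have u0 : A (2 * c / 2) := by rwa [show 2 * c / 2 = c by omega]
    have := iter_inv (f := fc σ A) (Q := fun x => (x < 2 * n ∧ A (x / 2) ∧ Un σ A x) ∧ x % 2 = 0 ∧
      Rc n σ A (2 * c + 1) x) (fun x k => ⟨st x k.1, (k.1.2.2 1).trans k.2.1, k.2.2.trans (by
        have := Rc.edge (σ := σ) (l.lt _ k.1.2.1) k.1.2.1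
        have e := k.2.1
        have := k.1.1
        rw [show 2 * (x / 2) = x by omega] at *
        rw [fc, ed_pos k.1.2.1, fl, if_pos e]
        exact Relation.ReflTransGen.tail ‹_› ⟨by omega, Or.inl rfl⟩)⟩) (d := fc σ A (2 * c))
      ⟨st _ ⟨by omega, u0, h⟩, (h 1).trans (by omega), by
        rw [fc, ed_pos u0, fl0]; exact Rc.sig A (by omega)⟩ t
    rw [← Function.iterate_succ_apply, h2] at this
    exact this.2.2
  · obtain ⟨t, h1, h2⟩ := p.period (a := 2 * c + 1) (by omega)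
    obtain ⟨t, rfl⟩ : ∃ v, t = v + 1 := ⟨t - 1, by omega⟩
    have u0 : A ((2 * c + 1) / 2) := by rwa [show (2 * c + 1) / 2 = c by omega]
    have := iter_inv (f := fc σ A) (Q := fun x => (x < 2 * n ∧ A (x / 2) ∧ Un σ A x) ∧ x % 2 = 1 ∧
      Rc n σ A x (2 * c)) (fun x k => ⟨st x k.1, (k.1.2.2 1).trans k.2.1,
        Relation.ReflTransGen.trans (by
        have := Rc.edge (σ := σ) (l.lt _ k.1.2.1) k.1.2.1
        have e := k.2.1
        have := k.1.1
        rw [show 2 * (x / 2) + 1 = x by omega, show 2 * (x / 2) = x - 1 by omega] at *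
        rw [fc, ed_pos k.1.2.1, fl, if_neg (by omega)]
        exact (Rc.back l.pm A (by omega)).trans ‹_›) k.2.2⟩) (d := fc σ A (2 * c + 1))
      ⟨st _ ⟨by omega, u0, h⟩, (h 1).trans (by omega), by
        rw [fc, ed_pos u0, fl1]; exact Rc.back l.pm A (by omega)⟩ t
    rw [← Function.iterate_succ_apply, h2] at this
    exact this.2.2

/-! ### Programs with two arguments -/

def F2 (κ : List Bool → ℕ) (f : List Bool → Env → ℕ → ℕ → ℕ) : Prop :=
  Cn κ fun x ρ => f x (tl (tl ρ)) (hd (ρ 1)) (hd (ρ 0))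

def R2 (κ : List Bool → ℕ) (r : List Bool → Env → ℕ → ℕ → Prop) : Prop :=
  PR.Cp κ fun x ρ => r x (tl (tl ρ)) (hd (ρ 1)) (hd (ρ 0))

section
variable {κ : List Bool → ℕ} {f : List Bool → Env → ℕ → ℕ → ℕ} {r : List Bool → Env → ℕ → ℕ → Prop}
  {u v : List Bool → Env → ℕ}

theorem F2.app (hf : F2 κ f) (hu : Cn κ u) (hv : Cn κ v) :
    Cn κ fun x ρ => f x ρ (u x ρ) (v x ρ) :=
  (kitA κ).bind (fun x ρ => [u x ρ]) _ hu ((kitA κ).bind (fun x ρ => [v x (tl ρ)])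
    (fun x ρ => [f x (tl (tl ρ)) (hd (ρ 1)) (hd (ρ 0))]) (K.w hv) hf)

theorem F2.w (hf : F2 κ f) : F2 κ fun x ρ => f x (tl ρ) :=
  (kitA κ).ren (fun x ρ => [f x (tl (tl ρ)) (hd (ρ 1)) (hd (ρ 0))]) (fun i => match i with
    | 0 => 0
    | 1 => 1
    | i + 2 => i + 3) hf

theorem F2.fix (hf : F2 κ f) (hu : Cn κ u) : F1 κ fun x ρ => f x ρ (u x ρ) :=
  hf.w.app (K.w hu) (K.v 0)

theorem R2.app (hr : R2 κ r) (hu : Cn κ u) (hv : Cn κ v) :
    PR.Cp κ fun x ρ => r x ρ (u x ρ) (v x ρ) :=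
  F2.app (f := fun x ρ a b => if r x ρ a b then 1 else 0) hr hu hv

theorem R2.w (hr : R2 κ r) : R2 κ fun x ρ => r x (tl ρ) :=
  F2.w (f := fun x ρ a b => if r x ρ a b then 1 else 0) hr

theorem R2.fix (hr : R2 κ r) (hu : Cn κ u) : P1 κ fun x ρ => r x ρ (u x ρ) :=
  hr.w.app (K.w hu) (K.v 0)

end

end Pool.Agent.MP_1a6d78_lc.GN
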