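import Pool.Agent.MP_1a6d78_lc.GN.Spec

/-! PROJECT GN, row HYB: the core of the current map together with the frozen plane pieces. -/

namespace Pool.Agent.MP_1a6d78_lc.GN

open Classical ED PR PL

namespace HY

variable {N n a b c d k L : ℕ} {f g ρ γ π : ℕ → ℕ} {H : Hs} {Z : ℕ → Prop}

theorem surj (p : Pm N f) (h : a < N) : ∃ d < N, f d = a := by
  obtain ⟨t, h1, h2⟩ := p.period h
  obtain ⟨t, rfl⟩ : ∃ v, t = v + 1 := ⟨t - 1, by omega⟩
  rw [Function.iterate_succ_apply'] at h2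
  exact ⟨_, iter_inv (Q := fun a => a < N) p.1 h t, h2⟩

theorem cls (h : Conn N ρ γ a b) : Conn N ρ γ a = Conn N ρ γ b :=
  funext fun _ => propext ⟨h.symm.trans, h.trans⟩

theorem tail {A : ℕ → Prop} (h : d < 2 * n) (u : A (d / 2)) :
    Conn (2 * n) ρ (ed A) d (2 * (d / 2)) := by
  by_cases e : d % 2 = 0
  · rw [show 2 * (d / 2) = d by omega]
    exact Conn.refl _ _ _ _
  · have := Conn.gam ρ (ed A) h
    rwa [ed_pos u, fl, if_neg e, show d - 1 = 2 * (d / 2) by omega] at this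

theorem same {P : ℕ → Prop} (h : ∀ x < N, P x → f x = g x ∧ P (f x)) : Fe N P f g :=
  fun x hx u => ⟨f x, .stop (h x hx u).2, by
    have := (h x hx u).2
    rw [(h x hx u).1] at this ⊢
    exact .stop this⟩

theorem ex_succ {Q : ℕ → Prop} : (∃ j < k + 1, Q j) ↔ (∃ j < k, Q j) ∨ Q k :=
  Nat.exists_lt_succ_right

theorem posd (K : HiK H L) (hk : k ≤ L) (h : d < 2 * H.n) (u : H.A k (d / 2)) :
    H.pos k (d / 2) ↔ ps (2 * H.n) (H.σ k) (ed (H.A k)) (Conn (2 * H.n) (H.σ k) (ed (H.A k)) d) := by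
  rw [Hs.pos, K.cA k hk _ (by omega), cls (tail h u)]

theorem cs (K : HiK H L) (hk : k ≤ L) (p : ∀ d < 2 * H.n, f d < 2 * H.n)
    (h : ∀ d < 2 * H.n, Conn (2 * H.n) (H.σ k) (ed (H.A k)) d (f d)) :
    Cd (2 * H.n) (fun d => H.Co k (d / 2)) f := fun d hd =>
  ⟨fun u => K.clo k hk _ (p d hd) _ u (h d hd).symm, fun u => K.clo k hk _ hd _ u (h d hd)⟩

/-- The core is closed in the hybrid. -/
theorem cp (K : HiK H L) (hk : k ≤ L) (Y : Hyb H k π Z) :
    Cd (2 * H.n) (fun d => H.Co k (d / 2)) π := fun d hd => by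
  have c := cs K hk (K.lv k hk).pm.1 fun d hd => Conn.rho _ _ hd
  refine ⟨fun u => ?_, fun u => by rw [Y.eq d hd u]; exact (c d hd).2 u⟩
  obtain ⟨e, he, r⟩ := surj (K.lv k hk).pm (Y.lv.pm.1 d hd)
  have v := (c e he).1 (by rwa [r])
  rwa [← Y.lv.pm.2 e he d hd ((Y.eq e he v).trans r)]

theorem step (F : FrK) (G : GnK) (h : H.Ok L) (K : HiK H L) (hk : k < L) (Y : Hyb H k π Z) :
    ∃ π Z, Hyb H (k + 1) π Z := by
  have O := h.op k hk
  have l0 := K.lv k hk.le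
  have hC : ∀ c, H.Co (k + 1) c ↔ H.Co k c ∧ H.A (k + 1) c ∧ H.pos (k + 1) c := fun c =>
    ⟨fun u => ⟨⟨O.sub c u.1, fun j hj => u.2 j (by omega)⟩, u.1, u.2 _ (by omega)⟩,
      fun u => ⟨u.2.1, Nat.forall_lt_succ_right.2 ⟨u.1.2, u.2.2⟩⟩⟩
  have hY : ∀ c, H.Y (k + 1) c ↔ H.Y k c ∨ (H.Co k c ∧ H.T k c) := fun c => ex_succ
  have hG : ∀ c, H.G (k + 1) c ↔ H.G k c ∧ ¬(H.Co k c ∧ ¬H.A (k + 1) c ∧ ¬H.T k c) := fun c => by
    rw [Hs.G, Hs.G, Hs.D, ex_succ, not_or, and_assoc]; rfl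
  have ya : ∀ c, H.Y k c → H.Co k c → ¬H.T k c → H.A (k + 1) c := fun c u v w =>
    by_contra fun x => ((hG c).1 (K.yg _ hk c ((hY c).2 (Or.inl u)))).2 ⟨v, x, w⟩
  have c0 := cs K hk.le l0.pm.1 fun d hd => Conn.rho _ _ hd
  have c1 := cs K hk.le O.lv.pm.1 fun d hd => (O.con d hd).mono (ed_sb O.tsub)
  have c2 := cp K hk.le Y
  obtain ⟨π', hπ⟩ : ∃ π' : ℕ → ℕ, ∀ d, π' d = if H.Co k (d / 2) then H.σ (k + 1) d else π d :=
    ⟨_, fun _ => rfl⟩
  have p1 : ∀ d, H.Co k (d / 2) → π' d = H.σ (k + 1) d := fun d u => by rw [hπ, if_pos u]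
  have p2 : ∀ d, ¬H.Co k (d / 2) → π' d = π d := fun d u => by rw [hπ, if_neg u]
  have c3 : Cd (2 * H.n) (fun d => H.Co k (d / 2)) π' := fun d hd => by
    by_cases u : H.Co k (d / 2)
    · rw [p1 d u]; exact c1 d hd
    · rw [p2 d u]; exact c2 d hd
  have pm : Pm (2 * H.n) π' := ⟨fun d hd => by
      rw [hπ]; split_ifs; exacts [O.lv.pm.1 d hd, Y.lv.pm.1 d hd], fun a ha b hb e => by
    have i : H.Co k (a / 2) ↔ H.Co k (b / 2) := (c3 a ha).symm.trans (by rw [e]; exact c3 b hb)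
    by_cases u : H.Co k (a / 2)
    · exact O.lv.pm.2 a ha b hb (by rwa [p1 a u, p1 b (i.1 u)] at e)
    · exact Y.lv.pm.2 a ha b hb (by rwa [p2 a u, p2 b (mt i.2 u)] at e)⟩
  have ym : ∀ {a b}, Conn (2 * H.n) (H.σ 0) (ed (H.Y k)) a b →
      Conn (2 * H.n) (H.σ 0) (ed (H.Y (k + 1))) a b :=
    Conn.mono (ed_sb fun c u => (hY c).2 (Or.inl u))
  refine ⟨π', fun c => (H.Co k c ∧ H.A (k + 1) c) ∨ (¬H.Co k c ∧ Z c), ⟨pm, fun c u =>
    u.elim (fun u => O.lv.lt c u.2) fun u => Y.lv.lt c u.2, fun d hd u => ?_⟩,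
    fun c u => Or.inl ⟨((hC c).1 u).1, u.1⟩, fun d _ u => p1 d ((hC _).1 u).1, fun c => ?_,
    F.trans (g := fc π fun c => H.Y (k + 1) c ∧ Z c) ?_ fun x hx u => ?_, fun d hd => ?_, ?_⟩
  · by_cases v : H.Co k (d / 2)
    · rw [p1 d v, O.lv.fx d hd fun w => u (Or.inl ⟨v, w⟩)]
    · rw [p2 d v, Y.lv.fx d hd fun w => u (Or.inr ⟨v, w⟩)]
  · have := Y.co c
    have := ya c
    rw [hG, hY, Y.part]
    tauto
  · have := F.comp (fc_pm h.lv.pm _) (fc_pm Y.lv.pm _) (γ := ed fun c => (H.Co k c ∧ H.T k c) ∧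
      ¬H.Y k c) ⟨ed_iv _ _, fun d _ u => ed_neg fun v => u ⟨Y.co _ v.1.1, v.2⟩⟩ Y.fe
    rw [show (fun d => fc (H.σ 0) (H.Y k) (ed _ d)) = fc (H.σ 0) (H.Y (k + 1)) from
      funext fun d => congrArg _ ((ed_or (fun c u v => v.2 u) d).trans
        (ed_cg (by rw [hY]; tauto))),
      show (fun d => fc π (fun c => H.Y k c ∧ Z c) (ed (fun c => (H.Co k c ∧ H.T k c) ∧ ¬H.Y k c) d))
        = fc π fun c => H.Y (k + 1) c ∧ Z c from
      funext fun d => congrArg _ ((ed_or (fun c u v => v.2 u.1) d).trans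
        (ed_cg (by have := Y.co (d / 2); rw [hY]; tauto)))] at this
    exact F.mono (fc_pm h.lv.pm _) (fc_pm Y.lv.pm _) (fun a _ u =>
      ⟨u.1.elim (fun v => Y.co _ v.1) And.right, fun v => u.2 ((hY _).2 (Or.inl v))⟩) this
  · by_cases v : H.Co k (x / 2)
    · have iv := ed_iv H.n fun c => H.Y k c ∧ H.Co k c ∧ ¬H.T k c
      obtain ⟨y, i1, i2⟩ := F.mono (P' := fun d => (H.A (k + 1) (d / 2) ∧ ¬H.T k (d / 2)) ∧
        ¬H.Y k (d / 2)) ((fc_pm l0.pm _).comp iv.pm) ((fc_pm O.lv.pm _).comp iv.pm)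
        (fun a _ => And.left) (F.comp (fc_pm l0.pm _) (fc_pm O.lv.pm _)
          ⟨iv, fun d _ u => ed_neg fun v => u ⟨ya _ v.1 v.2.1 v.2.2, v.2.2⟩⟩ O.fe) x hx
        (by rw [hY] at u; tauto)
      refine ⟨y, F.cg (Q := fun a => a < 2 * H.n ∧ H.Co k (a / 2)) (fun a w =>
        ⟨l0.pm.1 _ (ed_lt _ (ed_lt _ w.1)), (c0 _ (ed_lt _ (ed_lt _ w.1))).2
          (by simp only [ed_div]; exact w.2)⟩) (fun a w => ?_)
        (fun a w => by have := w.2; rw [hY]; tauto) ⟨hx, v⟩ i1,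
        F.cg (Q := fun a => a < 2 * H.n ∧ H.Co k (a / 2)) (fun a w =>
        ⟨O.lv.pm.1 _ (ed_lt _ (ed_lt _ w.1)), (c1 _ (ed_lt _ (ed_lt _ w.1))).2
          (by simp only [ed_div]; exact w.2)⟩) (fun a w => ?_)
        (fun a w => by have := w.2; rw [hY]; tauto) ⟨hx, v⟩ i2⟩
      · unfold fc
        rw [Y.eq _ (ed_lt _ w.1) (by rw [ed_div]; exact w.2), ed_or fun c u v => v.2.2 u]
        exact congrArg _ (ed_cg (by have := w.2; have := Y.co (a / 2); rw [hY]; tauto))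
      · unfold fc
        rw [p1 _ (by rw [ed_div]; exact w.2), ed_or fun c u v => v.2.2 u.1]
        exact congrArg _ (ed_cg (by have := w.2; have := ya (a / 2); rw [hY]; tauto))
    · obtain ⟨y, i⟩ := F.ex (P := fun d => (H.Co k (d / 2) ∧ H.A (k + 1) (d / 2) ∨
        ¬H.Co k (d / 2) ∧ Z (d / 2)) ∧ ¬H.Y (k + 1) (d / 2))
        (fc_pm Y.lv.pm fun c => H.Y (k + 1) c ∧ Z c) hx u
      refine ⟨y, i, F.cg (Q := fun a => a < 2 * H.n ∧ ¬H.Co k (a / 2)) (fun a w =>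
        ⟨Y.lv.pm.1 _ (ed_lt _ w.1), mt (c2 _ (ed_lt _ w.1)).1 (by simp only [ed_div]; exact w.2)⟩)
        (fun a w => ?_) (fun _ _ => Iff.rfl) ⟨hx, v⟩ i⟩
      unfold fc
      rw [p2 _ (by rw [ed_div]; exact w.2)]
      exact congrArg _ (ed_cg (by have := w.2; tauto))
  · by_cases v : H.Co k (d / 2)
    · rw [p1 d v]
      refine (Conn.ind (r := fun x y => (H.Co k (x / 2) ↔ H.Co k (y / 2)) ∧ (H.Co k (x / 2) →
        Conn (2 * H.n) (H.σ 0) (ed (H.Y (k + 1))) x y)) ⟨fun _ => ⟨Iff.rfl, fun _ => Conn.refl _ _ _ _⟩,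
        fun u => ⟨u.1.symm, fun w => (u.2 (u.1.2 w)).symm⟩, fun u w => ⟨u.1.trans w.1,
          fun z => (u.2 z).trans (w.2 (u.1.1 z))⟩⟩ (fun x hx => ⟨(c0 x hx).symm, fun w => ?_⟩)
        (fun x hx => ⟨by rw [ed_div], fun w => ?_⟩) (O.con d hd)).2 v
      · rw [← Y.eq x hx w]
        exact ym (Y.con x hx)
      · by_cases z : H.T k (x / 2)
        · rw [ed_cg (B := H.Y (k + 1)) (iff_of_true z ((hY _).2 (Or.inr ⟨w, z⟩)))]
          exact Conn.gam _ _ hx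
        · rw [ed_neg z]
          exact Conn.refl _ _ _ _
    · rw [p2 d v]
      exact ym (Y.con d hd)
  · have e1 : ∀ A : ℕ → Prop, Cd (2 * H.n) (fun d => H.Co k (d / 2)) (ed A) := fun A d _ => by
      simp only [ed_div]
    have i1 := G.comp (K := fun d => H.Co k (d / 2) ∧ H.A (k + 1) (d / 2) ∧ ¬H.pos (k + 1) (d / 2))
      O.lv.pm (ed_iv _ (H.A (k + 1))) (fun d hd => and_congr (c1 d hd) (by
        rw [O.lv.cl hd]
        exact and_congr_right fun u => by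
          rw [posd K hk hd u, posd K hk (O.lv.pm.1 d hd) ((O.lv.cl hd).2 u),
            cls (Conn.rho _ _ hd)])) (fun d _ => by simp only [ed_div]) fun a ha u => by
      have := mt (posd (k := k + 1) K hk ha u.2.1).2 u.2.2
      unfold ps at this
      omega
    have r1 : ∀ d, rs (fun d => H.Co k (d / 2)) (ed fun c => ((H.Co k c ∧ H.A (k + 1) c) ∨
        (¬H.Co k c ∧ Z c)) ∧ ¬H.Co (k + 1) c) d =
        ed (fun c => H.Co k c ∧ H.A (k + 1) c ∧ ¬H.pos (k + 1) c) d := fun d => by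
      unfold rs
      split_ifs with u
      exacts [ed_cg (by rw [hC]; tauto), (ed_neg fun v => u v.1).symm]
    have r2 : ∀ d, rs (fun d => ¬H.Co k (d / 2)) (ed fun c => ((H.Co k c ∧ H.A (k + 1) c) ∨
        (¬H.Co k c ∧ Z c)) ∧ ¬H.Co (k + 1) c) d = ed (fun c => Z c ∧ ¬H.Co k c) d := fun d => by
      by_cases u : H.Co k (d / 2)
      · rw [rs, if_neg (not_not.2 u), ed_neg fun v => v.2 u]
      · rw [rs, if_pos u]
        exact ed_cg (by rw [hC]; tauto)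
    have r3 : ∀ d, rs (fun d => H.Co k (d / 2) ∧ H.A (k + 1) (d / 2) ∧ ¬H.pos (k + 1) (d / 2))
        (ed (H.A (k + 1))) d = ed (fun c => H.Co k c ∧ H.A (k + 1) c ∧ ¬H.pos (k + 1) c) d :=
      fun d => by
        unfold rs
        split_ifs with u
        exacts [ed_cg (iff_of_true u.2.1 u), (ed_neg u).symm]
    rw [funext r3] at i1
    rw [gn, G.add pm (ed_iv _ _) c3 (e1 _), funext r1, funext r2,
      F.gen (P := fun d => H.Co k (d / 2)) pm O.lv.pm ⟨ed_iv _ _, fun d _ u => ed_neg fun v => u v.1⟩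
        (same fun x hx u => ⟨p1 x u, (c3 x hx).2 u⟩), i1,
      F.gen (P := fun d => ¬H.Co k (d / 2)) pm Y.lv.pm
        ⟨ed_iv _ _, fun d _ u => ed_neg fun v => u v.2⟩
        (same fun x hx u => ⟨p2 x u, mt (c3 x hx).1 u⟩), zero_add]
    exact Y.fz

theorem base (G : GnK) (h : H.Ok L) (K : HiK H L) : Hyb H 0 (H.σ 0) (H.A 0) := by
  have y : ∀ c, ¬H.Y 0 c := fun c ⟨_, u, _⟩ => by omega
  have l := h.lv
  refine ⟨l, fun _ => And.left, fun _ _ _ => rfl, fun c => ?_, same fun x hx u => ?_,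
    fun d hd => Conn.rho _ _ hd, ?_⟩
  · exact ⟨fun u => Or.inl u.1, fun u => ⟨u.resolve_right (y c), fun ⟨_, v, _⟩ => by omega⟩⟩
  · rw [fc, fc, ed_neg (y _), ed_neg fun v => y _ v.1]
    exact ⟨rfl, (l.cl hx).2 u.1, y _⟩
  · have i1 := G.comp (K := fun d => H.A 0 (d / 2) ∧ ¬H.pos 0 (d / 2)) l.pm (ed_iv _ (H.A 0))
      (fun d hd => by
        simp only [l.cl hd]
        exact and_congr_right fun u => by
          rw [posd K L.zero_le hd u, posd K L.zero_le (l.pm.1 d hd) ((l.cl hd).2 u),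
            cls (Conn.rho _ _ hd)]) (fun d _ => by simp only [ed_div]) fun a ha u => by
      have := mt (posd K L.zero_le ha u.1).2 u.2
      unfold ps at this
      omega
    rw [← i1, gn]
    refine congrArg _ (funext fun d => ?_)
    have : H.A 0 (d / 2) ∧ ¬H.Co 0 (d / 2) ↔ H.A 0 (d / 2) ∧ ¬H.pos 0 (d / 2) :=
      and_congr_right fun u => not_congr ⟨fun v => v.2 0 (by omega),
        fun v => ⟨u, fun j hj => by rwa [show j = 0 by omega]⟩⟩
    unfold rs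
    split_ifs with u
    exacts [ed_cg (iff_of_true (this.2 u) u.1), ed_neg (mt this.1 u)]

end HY

theorem hyS : FrK → GnK → HiS → HyS := fun F G S H L h k hk => by
  induction k with
  | zero => exact ⟨_, _, HY.base G h (S H L h)⟩
  | succ k ih =>
    obtain ⟨π, Z, Y⟩ := ih (by omega)
    exact HY.step F G h (S H L h) hk Y

end Pool.Agent.MP_1a6d78_lc.GN
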