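import Pool.Agent.MP_1a6d78_lc.GN.Fr
import Pool.Agent.MP_1a6d78_lc.GN.Hyb

/-! PROJECT GN, row COUNT: few poles are blocked. -/

namespace Pool.Agent.MP_1a6d78_lc.GN

open Classical ED PR PL

namespace CT

variable {N m z L k b x c : ℕ} {H : Hs} {X : ℕ → Prop} {P : ℕ → ℕ → Prop}

theorem eqv {r : ℕ → ℕ → Prop} (h : Equivalence r) : Eqv N r :=
  ⟨fun a _ => h.refl a, fun _ _ _ _ => h.symm, fun _ _ _ _ _ _ => h.trans⟩

theorem ceq (N : ℕ) (ρ γ : ℕ → ℕ) : Equivalence (Conn N ρ γ) :=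
  ⟨Conn.refl N ρ γ, Conn.symm, Conn.trans⟩

/-- Fine classes whose coarse class holds `z` or a second fine class. -/
theorem few {Q B : ℕ → Prop} {r s : ℕ → ℕ → Prop} (hr : Equivalence r) (hs : Equivalence s)
    (le : ∀ a < N, ∀ e, Q a → r a e → s a e) (f : ℕ → ℕ)
    (h1 : ∀ x, B x → f x < N ∧ Q (f x) ∧ (s (f x) z ∨ ∃ e < N, Q e ∧ s (f x) e ∧ ¬r (f x) e))
    (h2 : ∀ x y, B x → B y → r (f x) (f y) → x = y) :
    cnt m B + 2 * ncp N Q s ≤ 2 * ncp N Q r + 1 := by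
  obtain ⟨R, hR⟩ : ∃ R : ℕ → Prop, ∀ a, R a ↔ Q a ∧ ∀ e < N, r a e ∧ Q e → a ≤ e :=
    ⟨_, fun _ => Iff.rfl⟩
  obtain ⟨S, hS⟩ : ∃ S : ℕ → Prop, ∀ a, S a ↔ Q a ∧ ∀ e < N, s a e ∧ Q e → a ≤ e :=
    ⟨_, fun _ => Iff.rfl⟩
  have su : ∀ a < N, ∀ e < N, S a → S e → s a e → a = e := fun a ha e he u v w =>
    le_antisymm (((hS a).1 u).2 e he ⟨w, ((hS e).1 v).1⟩)
      (((hS e).1 v).2 a ha ⟨hs.symm w, ((hS a).1 u).1⟩)
  have rp : ∀ a < N, Q a → ∃ e < N, R e ∧ r a e := fun a ha u => by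
    obtain ⟨i1, i2, i3⟩ := lst_spec (P := fun e => r a e ∧ Q e) ⟨a, ha, hr.refl a, u⟩
    exact ⟨_, i1, (hR _).2 ⟨i3, fun e he w => lst_le he ⟨hr.trans i2 w.1, w.2⟩⟩, i2⟩
  have e1 : ncp N Q s = cnt N fun a => S a ∧ R a := cnt_congr fun a ha => (hS a).symm.trans
    (and_iff_left_of_imp fun u => (hR a).2 ⟨((hS a).1 u).1, fun e he w =>
      ((hS a).1 u).2 e he ⟨le a ha e ((hS a).1 u).1 w.1, w.2⟩⟩).symm
  have e2 : ncp N Q r = cnt N R := cnt_congr fun a _ => (hR a).symm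
  have e3 := cnt_split N R S
  have i1 : cnt N (fun a => S a ∧ ∃ e < N, (¬S e ∧ R e) ∧ s a e) ≤ cnt N fun a => ¬S a ∧ R a :=
    FR.trv (eqv hs) (fun a _ u => u.2) fun a ha e he u v => su a ha e he u.1 v.1
  have i2 : cnt N (fun a => S a ∧ s a z) ≤ cnt 1 fun _ => True :=
    cnt_inj (fun _ => 0) (fun _ _ _ => ⟨Nat.one_pos, trivial⟩) fun a ha e he u v _ =>
      su a ha e he u.1 v.1 (hs.trans u.2 (hs.symm v.2))
  have i3 := cnt_le 1 fun _ => True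
  have i4 : cnt m B ≤ cnt N fun a => (¬S a ∧ R a) ∨ (S a ∧ ∃ e < N, (¬S e ∧ R e) ∧ s a e) ∨
      (S a ∧ s a z) := by
    refine cnt_inj (fun x => lst N fun e => R e ∧ r (f x) e) (fun x _ u => ?_)
      fun x _ y _ u v w => ?_
    · obtain ⟨j1, j2, j3⟩ := h1 x u
      obtain ⟨k1, k2, k3⟩ := lst_spec (rp _ j1 j2)
      generalize lst N (fun e => R e ∧ r (f x) e) = a at k1 k2 k3
      have k4 := hs.symm (le _ j1 _ j2 k3)
      refine ⟨k1, (Classical.em (S a)).elim (fun v => Or.inr ?_) fun v => Or.inl ⟨v, k2⟩⟩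
      rcases j3 with j3 | ⟨e, l1, l2, l3, l4⟩
      · exact Or.inr ⟨v, hs.trans k4 j3⟩
      · obtain ⟨e', m1, m2, m3⟩ := rp e l1 l2
        have m4 := hs.trans k4 (hs.trans l3 (le _ l1 _ l2 m3))
        exact Or.inl ⟨v, e', m1, ⟨fun w => l4 (hr.trans k3
          (by rw [su a k1 e' m1 v w m4]; exact hr.symm m3)), m2⟩, m4⟩
    · have k1 := (lst_spec (rp _ (h1 x u).1 (h1 x u).2.1)).2.2
      have k2 := (lst_spec (rp _ (h1 y v).1 (h1 y v).2.1)).2.2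
      beta_reduce at w
      rw [← w] at k2
      exact h2 x y u v (hr.trans k1 (hr.symm k2))
  have i5 := cnt_or N (fun a => ¬S a ∧ R a) fun a =>
    (S a ∧ ∃ e < N, (¬S e ∧ R e) ∧ s a e) ∨ (S a ∧ s a z)
  have i6 := cnt_or N (fun a => S a ∧ ∃ e < N, (¬S e ∧ R e) ∧ s a e) fun a => S a ∧ s a z
  omega

/-- No cell at the end of a cell of a basin is on a cycle. -/
theorem dead (K : HiK H L) (hk : k ≤ L) (B : H.Bas k X P b) (hx : X x) (hc : P x c) {d : ℕ}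
    (h : Sc (2 * H.n) (H.σ k) (2 * c + b) d) (a : H.A k (d / 2)) :
    ¬Rc H.n (H.σ k) (H.A k) (2 * (d / 2) + 1) (2 * (d / 2)) := fun u => by
  have l := K.lv k hk
  have hb := B.hb
  have lt : ∀ e, P x e → 2 * e + b < 2 * H.n := fun e v => by
    have := l.lt e (B.co x e hx v).1
    omega
  obtain ⟨Q, hQ⟩ : ∃ Q : ℕ → Prop, ∀ y, Q y ↔ ∃ e, P x e ∧ Sc (2 * H.n) (H.σ k) (2 * e + b) y :=
    ⟨_, fun _ => Iff.rfl⟩
  have cl : ∀ e, H.A k e → Q (2 * e + (1 - b)) → P x e := fun e v w => by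
    obtain ⟨c', w1, w2⟩ := (hQ _).1 w
    exact B.cl x c' e hx w1 v w2
  have sg : ∀ y < 2 * H.n, Q y ↔ Q (H.σ k y) := fun y hy => by
    rw [hQ, hQ]
    exact exists_congr fun e => and_congr_right fun v =>
      ⟨fun w => w.trans l.pm.1 (lt e v) (Sc.step l.pm.1 hy),
        fun w => w.trans l.pm.1 (lt e v) ((Sc.step l.pm.1 hy).symm l.pm hy)⟩
  have q0 := (hQ d).2 ⟨c, hc, h⟩
  refine B.ac x _ hx (cl _ a ?_) u
  by_cases e : d = 2 * (d / 2) + (1 - b)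
  · exact e ▸ q0
  obtain rfl | rfl : b = 0 ∨ b = 1 := by omega
  · have key : ∀ y, Rc H.n (H.σ k) (H.A k) y (2 * (d / 2)) → Q y := fun y v => by
      induction v using Relation.ReflTransGen.head_induction_on with
      | refl => rwa [show 2 * (d / 2) = d by omega]
      | @head y _ w _ ih =>
        rcases w with ⟨w, rfl | ⟨w1, w2, rfl⟩⟩
        · exact (sg y w).2 ih
        · exact (hQ y).2 ⟨y / 2, cl _ w2 (by rwa [show 2 * (y / 2) = y by omega]), by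
            rw [show 2 * (y / 2) + 0 = y by omega]; exact Sc.refl _ w⟩
    exact key _ u
  · have key : ∀ y, Rc H.n (H.σ k) (H.A k) (2 * (d / 2) + 1) y → Q y := fun y v => by
      induction v with
      | refl => rwa [show 2 * (d / 2) + 1 = d by omega]
      | @tail y _ _ w ih =>
        rcases w with ⟨w, rfl | ⟨w1, w2, rfl⟩⟩
        · exact (sg y w).1 ih
        · exact (hQ _).2 ⟨y / 2, cl _ w2 (by rwa [show 2 * (y / 2) + (1 - 1) = y by omega]), by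
            rw [show 2 * (y / 2) = y by omega]; exact Sc.refl _ (by omega)⟩
    exact key _ u

end CT

open CT in
theorem coS : FrK → GnK → HiS → HyS → CoS := by
  intro F G hi hy H L k m b z X P h hk B
  have K := hi H L h
  obtain ⟨π, Z, Y⟩ := hy H L h k hk
  have l := K.lv k hk
  have p0 := h.lv.pm
  have hb := B.hb
  have c0 := HY.cs K hk l.pm.1 fun d hd => Conn.rho _ _ hd
  obtain ⟨M, hM⟩ : ∃ M : ℕ → Prop, ∀ c, M c ↔ H.Co k c ∧ ¬H.Y k c := ⟨_, fun _ => Iff.rfl⟩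
  obtain ⟨S, hS⟩ : ∃ S : ℕ → Prop, ∀ c, S c ↔ H.A k c ∧ ¬M c := ⟨_, fun _ => Iff.rfl⟩
  have s0 : ∀ c, H.S k c ↔ H.Y k c ∨ ((Z c ∧ ¬H.Y k c) ∧ ¬H.Co k c) := fun c => by
    rw [Hs.S, Y.part]; tauto
  have s1 : ∀ c, H.Co k c → (S c ↔ H.Y k c) := fun c u => by
    have := u.1
    rw [hS, hM]; tauto
  have d0 : ∀ c, H.S k c → ¬M c := fun c => by rw [s0, hM]; tauto
  have d1 : ∀ c, S c → ¬M c := fun c u => ((hS c).1 u).2
  have fe : Fe (2 * H.n) (fun d => M (d / 2)) (fc (H.σ 0) (H.S k)) (fc (H.σ k) S) := by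
    have iv := ed_iv H.n fun c => (Z c ∧ ¬H.Y k c) ∧ ¬H.Co k c
    intro x hx u
    obtain ⟨y, i1, i2⟩ := F.mono (P' := fun d => M (d / 2)) ((fc_pm p0 _).comp iv.pm)
      ((fc_pm Y.lv.pm _).comp iv.pm) (fun a _ v => ⟨Y.co _ ((hM _).1 v).1, ((hM _).1 v).2⟩)
      (F.comp (fc_pm p0 _) (fc_pm Y.lv.pm _) ⟨iv, fun d _ v => ed_neg fun w => v w.1⟩ Y.fe) x hx u
    rw [show (fun d => fc (H.σ 0) (H.Y k) (ed (fun c => (Z c ∧ ¬H.Y k c) ∧ ¬H.Co k c) d)) =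
      fc (H.σ 0) (H.S k) from funext fun a => congrArg _
        ((ed_or (fun c v w => w.1.2 v) a).trans (ed_cg (s0 _).symm))] at i1
    refine ⟨y, i1,
      F.cg (Q := fun a => a < 2 * H.n ∧ H.Co k (a / 2)) (fun a w =>
        ⟨Y.lv.pm.1 _ (ed_lt _ (ed_lt _ w.1)), (HY.cp K hk Y _ (ed_lt _ (ed_lt _ w.1))).2
          (by simp only [ed_div]; exact w.2)⟩) (fun a w => ?_) (fun _ _ => Iff.rfl)
        ⟨hx, ((hM _).1 u).1⟩ i2⟩
    unfold fc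
    rw [Y.eq _ (ed_lt _ (ed_lt _ w.1)) (by simp only [ed_div]; exact w.2),
      ed_neg (d := a) fun v => v.2 w.2]
    exact congrArg _ (ed_cg ((and_iff_left (Y.co _ w.2)).trans (s1 _ w.2).symm))
  have su : Su (2 * H.n) (fun d => M (d / 2)) (ed M) := ⟨ed_iv _ _, fun _ _ => ed_neg⟩
  have v1 := FR.nsc (fc_pm p0 _) (fc_pm l.pm _) fe
  have v2 := FR.nsc ((fc_pm p0 _).comp su.1.pm) ((fc_pm l.pm _).comp su.1.pm)
    (F.comp (fc_pm p0 _) (fc_pm l.pm _) su fe)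
  rw [show (fun d => fc (H.σ 0) (H.S k) (ed M d)) = fc (H.σ 0) fun c => H.S k c ∨ M c from
    funext fun d => congrArg _ (ed_or d0 d), show (fun d => fc (H.σ k) S (ed M d)) =
      fc (H.σ k) fun c => S c ∨ M c from funext fun d => congrArg _ (ed_or d1 d)] at v2
  have e0 := F.dif p0 d0
  have e1 := F.dif l.pm d1
  have ea : (fun c => S c ∨ M c) = H.A k := funext fun c => propext (by
    have : M c → H.A k c := fun u => ((hM c).1 u).1.1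
    rw [hS]; tauto)
  have g0 : gn H.n (H.σ 0) (fun c => H.S k c ∨ M c) ≤ gn H.n (H.σ 0) (H.A 0) :=
    G.mono p0 (ed_iv _ _) (ed_iv _ _) (ed_sb fun c u =>
      u.elim (fun v => v.1.1) fun v => K.sub k hk 0 k.zero_le c ((hM c).1 v).1.1)
  have g1 : 0 ≤ gn H.n (H.σ 0) (H.S k) := G.nonneg p0 (ed_iv _ _)
  have g2 : gn H.n (H.σ k) S ≤ gn H.n (H.σ k) fun c => S c ∨ M c :=
    G.mono l.pm (ed_iv _ _) (ed_iv _ _) (ed_sb fun _ => Or.inl)
  have g3 := K.few k hk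
  have g4 : ncp (2 * H.n) (fun d => M (d / 2)) (Conn (2 * H.n) (H.σ k) (ed fun c => S c ∨ M c)) ≤
      cnt (2 * H.n) fun d => H.Co k (d / 2) ∧ ∀ e < d, ¬Conn (2 * H.n) (H.σ k) (ed (H.A k)) d e := by
    rw [ea]
    refine FR.trv (Conn.eqv _ (H.σ k) (ed (H.A k))) (fun a ha u => ?_) fun a ha e he u v w =>
      le_antisymm (u.2 e he ⟨w, v.1⟩) (v.2 a ha ⟨w.symm, u.1⟩)
    obtain ⟨i1, i2⟩ := lst_spec (P := Conn _ (H.σ k) (ed (H.A k)) a) ⟨a, ha, Conn.refl _ _ _ _⟩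
    exact ⟨_, i1, ⟨K.clo k hk a ha _ ((hM _).1 u.1).1 i2, fun e he w =>
      absurd (lst_le (he.trans i1) (i2.trans w)) (by omega)⟩, i2⟩
  have lt : ∀ x c, X x → P x c → 2 * c + b < 2 * H.n ∧ (2 * c + b) / 2 = c := fun x c u v => by
    have := l.lt c (B.co x c u v).1
    omega
  have ny : ∀ x c d, X x → P x c → Sc (2 * H.n) (H.σ k) (2 * c + b) d →
      H.Co k (d / 2) ∧ ¬H.Y k (d / 2) := fun x c d u v w => by
    have i := K.clo k hk _ (lt x c u v).1 d (by rw [(lt x c u v).2]; exact B.co x c u v)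
      (w.conn' _ l.pm (lt x c u v).1)
    exact ⟨i, fun y => dead K hk B u v w i.1 (Un.cyc l i.1 (K.un k hk _ y i.1))⟩
  have sc : ∀ x c d, X x → P x c → Conn (2 * H.n) (H.σ k) (ed S) (2 * c + b) d →
      Sc (2 * H.n) (H.σ k) (2 * c + b) d := fun x c d u v =>
    FR.miss (P := fun d => S (d / 2)) l.pm l.pm ⟨ed_iv _ _, fun _ _ => ed_neg⟩ (fun _ _ _ => rfl)
      (lt x c u v).1 (fun e _ w y => (ny x c e u v w).2 ((s1 _ (ny x c e u v w).1).1 y)) d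
  have bl : ∀ x, X x ∧ ¬H.Free k (P x) b z → ∃ c, P x c ∧
      (Conn (2 * H.n) (H.σ 0) (ed (H.S k)) (2 * c + b) z ∨ ∃ e < 2 * H.n, M (e / 2) ∧
        Conn (2 * H.n) (H.σ 0) (ed (H.S k)) (2 * c + b) e ∧
          ¬Conn (2 * H.n) (H.σ k) (ed S) (2 * c + b) e) := fun x u => by
    have yp : ∀ y, H.Yp k (P x) b y → ∃ c, P x c ∧
        Conn (2 * H.n) (H.σ 0) (ed (H.S k)) (2 * c + b) y := fun y ⟨c, _, i2, i3⟩ =>
      ⟨c, i2, by rwa [K.c0 _ (fun c v => v.1.1) _ (lt x c u.1 i2).1] at i3⟩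
    by_cases v : H.Yp k (P x) b z
    · exact (yp z v).imp fun _ => And.imp_right Or.inl
    have := mt (And.intro v) u.2
    push Not at this
    obtain ⟨e, j1, j2, j3, j4, j5⟩ := this
    obtain ⟨c, j6, j7⟩ := yp _ j4
    exact ⟨c, j6, Or.inr ⟨_, by omega, by
      rw [show (2 * e + (1 - b)) / 2 = e by omega]; exact (hM e).2 ⟨j2, j3⟩, j7,
      fun w => j5 (B.cl x c e u.1 j6 j2.1 (sc x c _ u.1 j6 w))⟩⟩
  choose! f f1 f2 using bl
  have := few (m := m) (z := z) (Q := fun d => M (d / 2)) (ceq _ (H.σ k) (ed S))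
    (ceq _ (H.σ 0) (ed (H.S k))) (fun a _ e u w => ?_) (fun x => 2 * f x + b)
    (fun x u => ⟨(lt x _ u.1 (f1 x u)).1, (hM _).2 (ny x _ _ u.1 (f1 x u)
      (Sc.refl _ (lt x _ u.1 (f1 x u)).1)), f2 x u⟩) fun x y u v w =>
    B.inj x y _ _ u.1 v.1 (f1 x u) (f1 y v) (sc x _ _ u.1 (f1 x u) w)
  · omega
  refine (Conn.ind (r := fun x y => (H.Co k (x / 2) ↔ H.Co k (y / 2)) ∧ (H.Co k (x / 2) →
    Conn (2 * H.n) (H.σ 0) (ed (H.S k)) x y)) ⟨fun _ => ⟨Iff.rfl, fun _ => Conn.refl _ _ _ _⟩,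
    fun u => ⟨u.1.symm, fun w => (u.2 (u.1.2 w)).symm⟩, fun u w => ⟨u.1.trans w.1,
      fun z => (u.2 z).trans (w.2 (u.1.1 z))⟩⟩ (fun x hx => ⟨(c0 x hx).symm, fun w => ?_⟩)
    (fun x hx => ⟨by rw [ed_div], fun w => ?_⟩) w).2 ((hM _).1 u).1
  · rw [← Y.eq x hx w]
    exact (Y.con x hx).mono (ed_sb fun c v => (s0 c).2 (Or.inl v))
  · rw [ed_cg (B := H.S k) (by rw [s1 _ w, s0]; tauto)]
    exact Conn.gam _ _ hx

end Pool.Agent.MP_1a6d78_lc.GN
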