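import Pool.Agent.MP_1a6d78_lc.GN.Spec

/-! PROJECT GN, row FR: first returns. -/

namespace Pool.Agent.MP_1a6d78_lc.GN

open Classical ED PR PL

namespace FR

variable {N n x y z a b : ℕ} {f g γ : ℕ → ℕ} {P P' Q : ℕ → Prop} {r r' : ℕ → ℕ → Prop}

theorem uniq (h : Fr f P x y) (k : Fr f P x z) : y = z := by
  induction h with
  | stop u => cases k with
    | stop _ => rfl
    | go v _ => exact absurd u v
  | go u _ ih => cases k with
    | stop v => exact absurd v u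
    | go _ w => exact ih w

theorem ex' {t : ℕ} (h : P (f^[t + 1] x)) :
    ∃ s ≤ t, ∃ y, Fr f P x y ∧ f^[s] y = f^[t + 1] x := by
  induction t generalizing x with
  | zero => exact ⟨0, le_rfl, _, .stop h, rfl⟩
  | succ t ih =>
    by_cases u : P (f x)
    · exact ⟨t + 1, le_rfl, _, .stop u, rfl⟩
    · obtain ⟨s, hs, y, k, e⟩ := ih (x := f x) h
      exact ⟨s, by omega, y, .go u k, e⟩

theorem ex (p : Pm N f) (hx : x < N) (h : P x) : ∃ y, Fr f P x y := by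
  obtain ⟨t, h1, h2⟩ := p.period hx
  obtain ⟨t, rfl⟩ : ∃ v, t = v + 1 := ⟨t - 1, by omega⟩
  obtain ⟨_, -, y, k, -⟩ := ex' (P := P) (h2.symm ▸ h)
  exact ⟨y, k⟩

theorem fin (h : Fr f P x y) : P y := by
  induction h with
  | stop u => exact u
  | go _ _ ih => exact ih

theorem ind (hQ : ∀ a, Q a → Q (f a)) (hx : Q x) (h : Fr f P x y) : Q y := by
  induction h with
  | stop _ => exact hQ _ hx
  | go _ _ ih => exact ih (hQ _ hx)

theorem cg (hQ : ∀ a, Q a → Q (f a)) (e : ∀ a, Q a → f a = g a) (hP : ∀ a, Q a → (P a ↔ P' a))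
    (hx : Q x) (h : Fr f P x y) : Fr g P' x y := by
  induction h with
  | @stop x u =>
    have := (hP _ (hQ _ hx)).1 u
    rw [e x hx] at this ⊢
    exact .stop this
  | @go x y u _ ih =>
    have := ih (hQ _ hx)
    rw [hP _ (hQ _ hx), e x hx] at u
    rw [e x hx] at this
    exact .go u this

theorem sc' (p : Pm N f) (hx : x < N) (h : Fr f P x y) : Sc N f x y :=
  (ind (Q := fun a => a < N ∧ Sc N f x a)
    (fun a k => ⟨p.1 a k.1, k.2.trans p.1 hx (Sc.step p.1 k.1)⟩) ⟨hx, Sc.refl f hx⟩ h).2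

theorem chain (p : Pm N g) (hP : ∀ a < N, P' a → P a) (hx : x < N) (h : Fr g P x z) :
    (P' z → Fr g P' x z) ∧ (¬P' z → Fr g P' z y → Fr g P' x y) := by
  induction h with
  | stop _ => exact ⟨.stop, .go⟩
  | @go x _ u _ ih =>
    have v := mt (hP _ (p.1 x hx)) u
    exact ⟨fun k => .go v ((ih (p.1 x hx)).1 k), fun k l => .go v ((ih (p.1 x hx)).2 k l)⟩

theorem mono (pf : Pm N f) (pg : Pm N g) (hP : ∀ a < N, P' a → P a) (h : Fe N P f g) :
    Fe N P' f g := by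
  have key : ∀ u y, Fr f P' u y → u < N → ∀ z, Fr f P u z → ∀ x < N, Fr g P x z →
      Fr g P' x y := fun u y k => by
    induction k with
    | @stop u v =>
      intro hu z l x hx m
      obtain rfl := uniq l (.stop (hP _ (pf.1 u hu) v))
      exact (chain (y := 0) pg hP hx m).1 v
    | @go u y v _ ih =>
      intro hu z l x hx m
      have hf := pf.1 u hu
      cases l with
      | stop w =>
        obtain ⟨z', l1, l2⟩ := h _ hf w
        exact (chain pg hP hx m).2 v (ih hf z' l1 _ hf l2)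
      | go _ w => exact ih hf z w x hx m
  intro x hx u
  obtain ⟨y, k⟩ := ex pf hx u
  obtain ⟨z, l1, l2⟩ := h x hx (hP x hx u)
  exact ⟨y, k, key x y k hx z l1 x hx l2⟩

theorem su (s : Su N P γ) (hx : x < N) (u : P x) : P (γ x) := by
  by_contra v
  have := s.2 _ (s.1 x hx).1 v
  rw [(s.1 x hx).2] at this
  exact v (this ▸ u)

theorem comp1 (p : Pm N f) (s : Su N P γ) (h : Fr f P x y) (hx : x < N) (e : γ z = x) :
    Fr (fun d => f (γ d)) P z y := by
  induction h generalizing z with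
  | stop u => subst e; exact .stop u
  | @go x y u _ ih => subst e; exact .go u (ih (p.1 _ hx) (s.2 _ (p.1 _ hx) u))

theorem comp (pf : Pm N f) (pg : Pm N g) (s : Su N P γ) (h : Fe N P f g) :
    Fe N P (fun d => f (γ d)) fun d => g (γ d) := fun x hx u => by
  obtain ⟨y, k, l⟩ := h _ (s.1 x hx).1 (su s hx u)
  exact ⟨y, comp1 pf s k (s.1 x hx).1 rfl, comp1 pg s l (s.1 x hx).1 rfl⟩

theorem symm (h : Fe N P f g) : Fe N P g f := fun x hx u => (h x hx u).imp fun _ => And.symm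

theorem sc (pf : Pm N f) (pg : Pm N g) (h : Fe N P f g) (ha : a < N) (u : P a) (v : P b)
    (k : Sc N f a b) : Sc N g a b := by
  obtain ⟨t, rfl⟩ := (sc_iff pf.1 ha).1 k
  clear k
  induction t using Nat.strong_induction_on generalizing a with
  | _ t ih =>
    rcases t with _ | t
    · exact Sc.refl g ha
    obtain ⟨s, hs, y, k, e⟩ := ex' v
    obtain ⟨y', l1, l2⟩ := h a ha u
    obtain rfl := uniq k l1
    have m := sc' pg ha l2
    rw [← e] at v ⊢
    exact m.trans pg.1 ha (ih s (by omega) (m.lt pg.1 ha) (fin k) v)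

theorem conn (pf : Pm N f) (pg : Pm N g) (s : Su N P γ) (h : Fe N P f g) (ha : a < N) (u : P a)
    (v : P b) (k : Conn N f γ a b) : Conn N g γ a b := by
  obtain ⟨R, hR⟩ : ∃ R : ℕ → ℕ → Prop, ∀ x y, R x y ↔ ∀ p < N, P p → Sc N f p x →
    ∃ q < N, P q ∧ Sc N f q y ∧ Conn N g γ p q := ⟨_, fun _ _ => Iff.rfl⟩
  have r0 : ∀ x y, (∀ p < N, Sc N f p x → Sc N f p y) → R x y := fun x y l =>
    (hR x y).2 fun p hp w m => ⟨p, hp, w, l p hp m, Conn.refl _ _ _ _⟩
  have rt : ∀ x y z, R x y → R y z → R x z := fun x y z l m => (hR x z).2 fun p hp w o => by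
    obtain ⟨q, q1, q2, q3, q4⟩ := (hR x y).1 l p hp w o
    obtain ⟨t, t1, t2, t3, t4⟩ := (hR y z).1 m q q1 q2 q3
    exact ⟨t, t1, t2, t3, q4.trans t4⟩
  have rg : ∀ x < N, R x (γ x) := fun x hx => by
    by_cases w : P x
    · exact (hR _ _).2 fun p hp p1 p2 => ⟨γ x, (s.1 x hx).1, su s hx w, Sc.refl f (s.1 x hx).1,
        (Sc.conn' γ pg hp (sc pf pg h hp p1 w p2)).trans (Conn.gam g γ hx)⟩
    · rw [s.2 x hx w]
      exact r0 _ _ fun _ _ => id
  have := Conn.ind (r := fun x y => R x y ∧ R y x) ⟨fun _ => ⟨r0 _ _ fun _ _ => id,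
    r0 _ _ fun _ _ => id⟩, And.symm, fun l m => ⟨rt _ _ _ l.1 m.1, rt _ _ _ m.2 l.2⟩⟩
    (fun x hx => ⟨r0 _ _ fun p hp l => l.trans pf.1 hp (Sc.step pf.1 hx),
      r0 _ _ fun p hp l => l.trans pf.1 hp ((Sc.step pf.1 hx).symm pf hx)⟩)
    (fun x hx => ⟨rg x hx, by
      have := rg _ (s.1 x hx).1
      rwa [(s.1 x hx).2] at this⟩) k
  obtain ⟨q, q1, q2, q3, q4⟩ := (hR a b).1 this.1 a ha u (Sc.refl f ha)
  exact q4.trans (Sc.conn' γ pg q1 (sc pf pg h q1 q2 v q3))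

/-- Two systems of representatives. -/
theorem trv {S S' : ℕ → Prop} (e : Eqv N r) (h1 : ∀ a < N, S a → ∃ b < N, S' b ∧ r a b)
    (h2 : ∀ a < N, ∀ b < N, S a → S b → r a b → a = b) : cnt N S ≤ cnt N S' := by
  refine cnt_inj (fun a => lst N fun b => S' b ∧ r a b)
    (fun a ha u => (lst_spec (h1 a ha u)).imp_right And.left) fun a ha b hb u v w => ?_
  obtain ⟨i1, -, i2⟩ := lst_spec (h1 a ha u)
  obtain ⟨-, -, i3⟩ := lst_spec (h1 b hb v)
  beta_reduce at w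
  rw [← w] at i3
  exact h2 a ha b hb u v (e.2.2 _ ha _ i1 _ hb i2 (e.2.1 _ hb _ i1 i3))

/-- The number of classes that miss `P`. -/
noncomputable def ms (N : ℕ) (P : ℕ → Prop) (r : ℕ → ℕ → Prop) : ℕ :=
  ncl N (fun a => ∀ b < N, r a b → ¬P b) r

theorem split (e : Eqv N r) (P : ℕ → Prop) : nc N r = ms N P r + ncp N P r := by
  rw [nc, ncl_split _ fun a => ∀ b < N, r a b → ¬P b, ms]
  refine congrArg _ (le_antisymm (trv e (fun a ha u => ?_) fun a ha b hb u v w => ?_)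
    (trv e (fun a ha u => ?_) fun a ha b hb u v w => ?_))
  · have := u.1
    push Not at this
    obtain ⟨i1, i2, i3⟩ := lst_spec (P := fun b => r a b ∧ P b) this
    exact ⟨_, i1, ⟨i3, fun c hc w => lst_le hc ⟨e.2.2 _ ha _ i1 _ hc i2 w.1, w.2⟩⟩, i2⟩
  · exact le_antisymm (u.2 b hb w) (v.2 a ha (e.2.1 _ ha _ hb w))
  · obtain ⟨i1, i2⟩ := lst_spec (P := r a) ⟨a, ha, e.1 a ha⟩
    exact ⟨_, i1, ⟨fun w => w a ha (e.2.1 _ ha _ i1 i2) u.1,
      fun c hc w => lst_le hc (e.2.2 _ ha _ i1 _ hc i2 w)⟩, i2⟩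
  · exact le_antisymm (u.2 b hb ⟨w, v.1⟩) (v.2 a ha ⟨e.2.1 _ ha _ hb w, u.1⟩)

theorem msc (h1 : ∀ a < N, ∀ b, r a b → r' a b)
    (h2 : ∀ a < N, (∀ b < N, r a b → ¬P b) → ∀ b, r' a b → r a b) : ms N P r = ms N P r' :=
  cnt_congr fun a ha => ⟨fun u => ⟨fun b hb v => u.1 b hb (h2 a ha u.1 b v),
    fun b hb v => u.2 b hb (h2 a ha u.1 b v)⟩,
    fun u => ⟨fun b hb v => u.1 b hb (h1 a ha b v), fun b hb v => u.2 b hb (h1 a ha b v)⟩⟩

theorem miss (pf : Pm N f) (pg : Pm N g) (s : Su N P γ) (e : ∀ d < N, ¬P d → g d = f d)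
    (ha : a < N) (h : ∀ b < N, Sc N g a b → ¬P b) (b : ℕ) (k : Conn N f γ a b) : Sc N g a b := by
  refine (Conn.ind (r := fun x y => Sc N g a x ↔ Sc N g a y)
    ⟨fun _ => Iff.rfl, Iff.symm, Iff.trans⟩ (fun x hx => ⟨fun u => ?_, fun u => ?_⟩)
    (fun x hx => ⟨fun u => ?_, fun u => ?_⟩) k).1 (Sc.refl g ha)
  · rw [← e x hx (h x hx u)]
    exact u.trans pg.1 ha (Sc.step pg.1 hx)
  · have hf := pf.1 x hx
    obtain ⟨t, h1, h2⟩ := pg.period hf
    obtain ⟨t, rfl⟩ : ∃ v, t = v + 1 := ⟨t - 1, by omega⟩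
    have v := u.trans pg.1 ha ((sc_iff pg.1 hf).2 ⟨t, rfl⟩)
    have l := v.lt pg.1 ha
    rw [Function.iterate_succ_apply', e _ l (h _ l v)] at h2
    rwa [pf.2 _ l _ hx h2] at v
  · rwa [s.2 x hx (h x hx u)]
  · have := s.2 _ (s.1 x hx).1 (h _ (s.1 x hx).1 u)
    rw [(s.1 x hx).2] at this
    rwa [this]

theorem ms2 (p : Pm N f) (s : Su N P γ) : ms N P (Sc N f) = ms N P (Conn N f γ) ∧
    ms N P (Sc N fun d => f (γ d)) = ms N P (Conn N f γ) :=
  ⟨msc (fun _ ha _ => Sc.conn' γ p ha) fun _ ha => miss p p s (fun _ _ _ => rfl) ha,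
    msc (fun _ ha _ => Sc.conn p s.1 ha) fun _ ha =>
      miss p (p.comp s.1.pm) s (fun d hd u => by rw [s.2 d hd u]) ha⟩

theorem ncg (h : ∀ a < N, ∀ b < N, P a → P b → (r a b ↔ r' a b)) : ncp N P r = ncp N P r' :=
  cnt_congr fun a ha => and_congr_right fun u => forall₂_congr fun b hb =>
    imp_congr_left (and_congr_left fun v => h a ha b hb u v)

theorem nsc (pf : Pm N f) (pg : Pm N g) (h : Fe N P f g) :
    ncp N P (Sc N f) = ncp N P (Sc N g) :=
  ncg fun _ ha _ _ u v => ⟨sc pf pg h ha u v, sc pg pf (symm h) ha u v⟩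

theorem cd (pf : Pm N f) (pg : Pm N g) (s : Su N P γ) (h : Fe N P f g) :
    nc N (Sc N fun d => f (γ d)) + nc N (Sc N g) =
      nc N (Sc N fun d => g (γ d)) + nc N (Sc N f) := by
  rw [split pf.eqv P, split pg.eqv P, split (pf.comp s.1.pm).eqv P, split (pg.comp s.1.pm).eqv P,
    nsc pf pg h, nsc (pf.comp s.1.pm) (pg.comp s.1.pm) (comp pf pg s h), (ms2 pf s).1,
    (ms2 pf s).2, (ms2 pg s).1, (ms2 pg s).2]
  omega

theorem gen_eq (N : ℕ) (f γ : ℕ → ℕ) : gen N f γ = 2 * (nc N (Conn N f γ) : ℤ) + N -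
    nc N (Sc N γ) - nc N (Sc N fun d => f (γ d)) - nc N (Sc N f) := rfl

theorem genf (pf : Pm N f) (pg : Pm N g) (s : Su N P γ) (h : Fe N P f g) :
    gen N f γ = gen N g γ := by
  rw [gen_eq, gen_eq, split pf.eqv P, split pg.eqv P, split (pf.comp s.1.pm).eqv P,
    split (pg.comp s.1.pm).eqv P, split (Conn.eqv N f γ) P, split (Conn.eqv N g γ) P,
    nsc pf pg h, nsc (pf.comp s.1.pm) (pg.comp s.1.pm) (comp pf pg s h), (ms2 pf s).1,
    (ms2 pf s).2, (ms2 pg s).1, (ms2 pg s).2, ncg (r := Conn N f γ) (r' := Conn N g γ)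
      fun _ ha _ _ u v => ⟨conn pf pg s h ha u v, conn pg pf s (symm h) ha u v⟩]
  push_cast
  ring

theorem cnt2 (n : ℕ) (A : ℕ → Prop) :
    cnt (2 * n) (fun d => ¬(A (d / 2) ∧ d % 2 = 1)) + cnt n A = 2 * n := by
  induction n with
  | zero => simp [cnt]
  | succ n ih =>
    rw [show 2 * (n + 1) = 2 * n + 1 + 1 by omega, cnt_succ, cnt_succ, cnt_succ,
      show (2 * n + 1) / 2 = n by omega, if_pos (by omega)]
    by_cases h : A n
    · rw [if_pos h, if_neg (not_not.2 ⟨h, by omega⟩)]; omega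
    · rw [if_neg h, if_pos fun k => h k.1]; omega

/-- The number of edges. -/
theorem edges (n : ℕ) (A : ℕ → Prop) : nc (2 * n) (Sc (2 * n) (ed A)) + cnt n A = 2 * n := by
  have p := (ed_iv n A).pm.1
  refine (congrArg (· + _)
    (cnt_congr fun d hd => ⟨fun u v => ?_, fun u => ⟨trivial, fun e _ v => ?_⟩⟩)).trans (cnt2 n A)
  · have := u.2 _ (p d hd) (Sc.step p hd)
    rw [ed_pos v.1, fl, if_neg (by omega)] at this
    omega
  · have := Sc.ind (Q := fun e => e = d ∨ e = ed A d) p hd (Or.inl rfl) (fun x _ w => w.elim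
      (fun w => Or.inr (by rw [w])) fun w => Or.inl (by rw [w, ed_ed])) v
    by_cases w : A (d / 2)
    · rw [ed_pos w, fl, if_pos (by have := mt (And.intro w) u; omega)] at this
      omega
    · rw [ed_neg w] at this
      omega

theorem dif {σ : ℕ → ℕ} {S Z : ℕ → Prop} (p : Pm (2 * n) σ) (h : ∀ c, S c → ¬Z c) :
    gn n σ (fun c => S c ∨ Z c) + 2 * ncp (2 * n) (fun d => Z (d / 2)) (Conn (2 * n) σ (ed S)) +
      ncp (2 * n) (fun d => Z (d / 2)) (Sc (2 * n) (fc σ fun c => S c ∨ Z c)) =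
    gn n σ S + 2 * ncp (2 * n) (fun d => Z (d / 2)) (Conn (2 * n) σ (ed fun c => S c ∨ Z c)) +
      cnt n Z + ncp (2 * n) (fun d => Z (d / 2)) (Sc (2 * n) (fc σ S)) := by
  have e : (fun d => fc σ S (ed Z d)) = fc σ fun c => S c ∨ Z c :=
    funext fun d => congrArg σ (ed_or h d)
  have m := ms2 (P := fun d => Z (d / 2)) (fc_pm p S) ⟨ed_iv n Z, fun _ _ => ed_neg⟩
  rw [e] at m
  have c : ms (2 * n) (fun d => Z (d / 2)) (Conn (2 * n) σ (ed S)) =
      ms (2 * n) (fun d => Z (d / 2)) (Conn (2 * n) σ (ed fun c => S c ∨ Z c)) := by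
    refine msc (fun _ _ _ => Conn.mono (ed_sb fun _ => Or.inl)) fun a ha u b k => ?_
    have st : ∀ x < 2 * n, Conn (2 * n) σ (ed S) a x →
        Conn (2 * n) σ (ed S) a (ed (fun c => S c ∨ Z c) x) := fun x hx v => by
      rw [ed_cg (B := S) (or_iff_left (u x hx v))]
      exact v.trans (Conn.gam _ _ hx)
    refine (Conn.ind (r := fun x y => Conn (2 * n) σ (ed S) a x ↔ Conn (2 * n) σ (ed S) a y)
      ⟨fun _ => Iff.rfl, Iff.symm, Iff.trans⟩ (fun x hx => ⟨fun v => v.trans (Conn.rho _ _ hx),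
        fun v => v.trans (Conn.rho _ _ hx).symm⟩) (fun x hx => ⟨st x hx, fun v => ?_⟩) k).1
      (Conn.refl _ _ _ _)
    have := st _ (ed_lt _ hx) v
    rwa [ed_ed] at this
  have e1 := edges n S
  have e2 := edges n fun c => S c ∨ Z c
  rw [cnt_split n _ S, cnt_congr (Q := S) fun _ _ => and_iff_left_of_imp Or.inl,
    cnt_congr (P := fun c => ¬S c ∧ (S c ∨ Z c)) (Q := Z) fun c _ =>
      ⟨fun k => k.2.resolve_left k.1, fun k => ⟨fun l => h c l k, Or.inr k⟩⟩] at e2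
  have s1 := split (fc_pm p S).eqv fun d => Z (d / 2)
  have s2 := split (fc_pm p fun c => S c ∨ Z c).eqv fun d => Z (d / 2)
  have s3 := split (Conn.eqv (2 * n) σ (ed S)) fun d => Z (d / 2)
  have s4 := split (Conn.eqv (2 * n) σ (ed fun c => S c ∨ Z c)) fun d => Z (d / 2)
  have g1 : gn n σ S = 2 * (nc _ _ : ℤ) + _ - nc _ _ - nc _ (Sc _ (fc σ S)) - nc _ _ := gen_eq _ _ _
  have g2 : gn n σ (fun c => S c ∨ Z c) = 2 * (nc _ _ : ℤ) + _ - nc _ _ -
    nc _ (Sc _ (fc σ fun c => S c ∨ Z c)) - nc _ _ := gen_eq _ _ _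
  have := m.1
  have := m.2
  omega

end FR

theorem frK : FrK where
  uniq := FR.uniq
  ex := FR.ex
  fin := FR.fin
  ind := FR.ind
  cg := FR.cg
  mono := FR.mono
  comp := FR.comp
  trans h k x hx u := by
    obtain ⟨y, i1, i2⟩ := h x hx u
    obtain ⟨z, i3, i4⟩ := k x hx u
    exact ⟨y, i1, FR.uniq i3 i2 ▸ i4⟩
  sc := FR.sc
  conn := FR.conn
  gen := FR.genf
  cd := FR.cd
  ncg := FR.ncg
  dif := FR.dif

end Pool.Agent.MP_1a6d78_lc.GN
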