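import Pool.Agent.MP_1a6d78_lc.GN.GenA
import Pool.Agent.MP_1a6d78_lc.GN.GenB
import Pool.Agent.MP_1a6d78_lc.GX.Gad

/-! PROJECT GN: from ports to darts. -/

namespace Pool.Agent.MP_1a6d78_lc.GN

open Classical ED PR PL

namespace PortH

variable {n N M a b d : ℕ} {al Q : ℕ → Prop} {lk f g e : ℕ → ℕ}

theorem pre (p : Pm N f) (h : a < N) : ∃ x < N, f x = a ∧ Sc N f a x := by
  obtain ⟨t, h1, h2⟩ := p.period h
  obtain ⟨t, rfl⟩ : ∃ v, t = v + 1 := ⟨t - 1, by omega⟩
  rw [Function.iterate_succ_apply'] at h2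
  exact ⟨_, iter_inv (Q := fun a => a < N) p.1 h t, h2, (sc_iff p.1 h).2 ⟨t, rfl⟩⟩

/-- Cycles seen through a map that respects or reverses the steps. -/
theorem sc_map (p : Pm N f) (q : Pm M g) (hQ : ∀ x < N, Q x → Q (f x))
    (he : ∀ x < N, Q x → e x < M) (inj : ∀ x < N, e x = e b → x = b)
    (h : (∀ x < N, Q x → g (e x) = e (f x)) ∨ ∀ x < N, Q x → g (e (f x)) = e x) (ha : a < N)
    (u : Q a) : Sc N f a b ↔ Sc M g (e a) (e b) := by
  have la := he a ha u
  constructor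
  · intro k
    refine (Sc.ind p.1 (Q := fun x => Q x ∧ Sc M g (e a) (e x)) ha ⟨u, Sc.refl g la⟩
      (fun x hx v => ⟨hQ x hx v.1, v.2.trans q.1 la ?_⟩) k).2
    rcases h with h | h
    · exact h x hx v.1 ▸ Sc.step q.1 (he x hx v.1)
    · have l := he _ (p.1 x hx) (hQ x hx v.1)
      exact (h x hx v.1 ▸ Sc.step q.1 l :).symm q l
  · intro k
    obtain ⟨y, hy, rfl, s⟩ := Sc.ind q.1 (Q := fun z => ∃ y < N, z = e y ∧ Sc N f a y) la
      ⟨a, ha, rfl, Sc.refl f ha⟩ (fun z _ ⟨y, hy, ey, s⟩ => by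
        have w : ∀ y, Sc N f a y → Q y := fun y s => Sc.ind p.1 ha u hQ s
        rcases h with h | h
        · exact ⟨f y, p.1 y hy, by rw [ey, h y hy (w y s)], s.trans p.1 ha (Sc.step p.1 hy)⟩
        · obtain ⟨x, hx, rfl, s'⟩ := pre p hy
          have s2 := s.trans p.1 ha s'
          exact ⟨x, hx, by rw [ey, h x hx (w x s2)], s2⟩) k |>.imp fun y v =>
        (⟨v.1, (inj y v.1 v.2.1.symm).symm, v.2.2⟩ : y < N ∧ b = y ∧ Sc N f a y)
    exact s

/-- Counting classes by two maps. -/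
theorem ncl_two {A B : ℕ → Prop} {r r' : ℕ → ℕ → Prop} (f g : ℕ → ℕ) (h : Eqv N r) (h' : Eqv M r')
    (cA : ∀ x < N, ∀ y < N, A x → r x y → A y) (cB : ∀ x < M, ∀ y < M, B x → r' x y → B y)
    (h1 : ∀ x < N, A x → f x < M ∧ B (f x)) (h2 : ∀ x < M, B x → g x < N ∧ A (g x))
    (k1 : ∀ x < N, ∀ y < N, A x → A y → r' (f x) (f y) → r x y)
    (k2 : ∀ x < M, ∀ y < M, B x → B y → r (g x) (g y) → r' x y) : ncl N A r = ncl M B r' :=
  le_antisymm
    (GX.ncl_map f h h' (fun x hx u => ⟨(h1 x hx u).1, fun y hy =>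
      cB _ (h1 x hx u).1 y hy (h1 x hx u).2⟩) k1)
    (GX.ncl_map g h' h (fun x hx u => ⟨(h2 x hx u).1, fun y hy =>
      cA _ (h2 x hx u).1 y hy (h2 x hx u).2⟩) k2)

theorem cnt_two (m : ℕ) (P : ℕ → Prop) : cnt (2 * m) (fun p => P (p / 2)) = 2 * cnt m P := by
  induction m with
  | zero => simp [cnt]
  | succ m ih =>
    rw [show 2 * (m + 1) = 2 * m + 1 + 1 by omega, cnt_succ, cnt_succ, cnt_succ, ih,
      show (2 * m + 1) / 2 = m by omega, show 2 * m / 2 = m by omega]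
    split_ifs <;> omega

theorem h4 (d : ℕ) : 2 * d / 4 = d / 2 := by omega

theorem h5 (d : ℕ) : (2 * d + 1) / 4 = d / 2 := by omega

theorem kA (H : PL.Ok n al lk) (hd : d < 2 * n) (u : al (d / 2)) :
    lk (2 * d) = 2 * tr lk d + 1 ∧ r3 (lk (2 * d)) = 2 * tr lk d ∧ tr lk d < 2 * n ∧
      al (tr lk d / 2) := by
  have l : 2 * d < 4 * n := by omega
  have u' : al (2 * d / 4) := by rwa [h4]
  have h1 := H.par _ l u'
  have h2 := (H.iv _ l).1
  have h3 := H.alive l u'
  have e : lk (2 * d) = 2 * tr lk d + 1 := by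
    rw [tr, if_neg (by omega)]
    omega
  rw [e, h5] at h3
  exact ⟨e, by rw [e, r3]; omega, by omega, h3⟩

theorem kD (H : PL.Ok n al lk) (hd : d < 2 * n) (u : ¬al (d / 2)) : tr lk d = d :=
  if_pos ((H.fix _ (by omega)).2 (by rwa [h4]))

theorem pm (H : PL.Ok n al lk) : Pm (2 * n) (tr lk) := by
  refine ⟨fun d hd => ?_, fun a ha b hb e => ?_⟩
  · by_cases u : al (d / 2)
    · exact (kA H hd u).2.2.1
    · rwa [kD H hd u]
  · by_cases u : al (a / 2) <;> by_cases v : al (b / 2)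
    · have := H.iv.pm.2 (2 * a) (by omega) (2 * b) (by omega)
        (by rw [(kA H ha u).1, (kA H hb v).1, e])
      omega
    · exact absurd (by rw [← kD H hb v, ← e]; exact (kA H ha u).2.2.2) v
    · exact absurd (by rw [← kD H ha u, e]; exact (kA H hb v).2.2.2) u
    · rwa [kD H ha u, kD H hb v] at e

theorem psi (H : PL.Ok n al lk) : Pm (4 * n) fun p => r3 (lk p) := r3_pm.comp H.iv.pm

theorem rc (H : PL.Ok n al lk) (ha : a < 2 * n) (u : al (a / 2)) :
    Rc n (tr lk) al a b ↔ Rch n lk 0 (2 * a) (2 * b) := by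
  constructor
  · intro k
    have : al (b / 2) ∧ Rch n lk 0 (2 * a) (2 * b) := by
      induction k with
      | refl => exact ⟨u, .refl⟩
      | @tail x y _ s ih =>
        rcases s with ⟨hx, rfl | ⟨e, -, rfl⟩⟩
        · exact ⟨(kA H hx ih.1).2.2.2, ih.2.tail ⟨by omega, Or.inl (kA H hx ih.1).2.1.symm⟩⟩
        · exact ⟨by rw [show (x + 1) / 2 = x / 2 by omega]; exact ih.1,
            ih.2.tail ⟨by omega, Or.inr ⟨by omega, by unfold op; omega⟩⟩⟩
    exact this.2
  · intro k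
    have : ∀ p, Rch n lk 0 (2 * a) p → ∃ y, p = 2 * y ∧ al (y / 2) ∧ Rc n (tr lk) al a y := by
      intro p k
      induction k with
      | refl => exact ⟨a, rfl, u, .refl⟩
      | @tail x z _ s ih =>
        obtain ⟨y, rfl, v, w⟩ := ih
        have hy : y < 2 * n := by have := s.1; omega
        rcases s with ⟨-, rfl | ⟨e, rfl⟩⟩
        · exact ⟨_, (kA H hy v).2.1, (kA H hy v).2.2.2, w.tail ⟨hy, Or.inl rfl⟩⟩
        · exact ⟨y + 1, by unfold op; omega, by rwa [show (y + 1) / 2 = y / 2 by omega],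
            w.tail ⟨hy, Or.inr ⟨by omega, v, rfl⟩⟩⟩
    obtain ⟨y, e, -, w⟩ := this _ k
    rwa [show b = y by omega]

theorem vx (H : PL.Ok n al lk) (ha : a < 2 * n) (u : al (a / 2)) :
    Sc (2 * n) (tr lk) a b ↔ Sc (4 * n) (fun p => r3 (lk p)) (2 * a) (2 * b) :=
  sc_map (e := fun x => 2 * x) (Q := fun x => al (x / 2)) (pm H) (psi H)
    (fun _ hx v => (kA H hx v).2.2.2) (fun _ _ _ => by omega) (fun _ _ _ => by omega)
    (Or.inl fun _ hx v => (kA H hx v).2.1) ha u

theorem fa (H : PL.Ok n al lk) (ha : a < 2 * n) (u : al (a / 2)) :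
    Sc (2 * n) (fc (tr lk) al) a b ↔ Sc (4 * n) (fun p => r3 (lk p)) (2 * a + 1) (2 * b + 1) := by
  have k := fun x (hx : x < 2 * n) (v : al (x / 2)) =>
    kA H (ed_lt al hx) (by rw [ed_div]; exact v)
  refine sc_map (e := fun x => 2 * x + 1) (Q := fun x => al (x / 2)) (fc_pm (pm H) al) (psi H)
    (fun x hx v => (k x hx v).2.2.2) (fun _ _ _ => by omega) (fun _ _ _ => by omega)
    (Or.inr fun x hx v => ?_) ha u
  have := ed_lt al hx
  show r3 (lk (2 * tr lk (ed al x) + 1)) = 2 * x + 1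
  rw [← (k x hx v).1, (H.iv _ (by omega)).2, ed_pos v]
  unfold r3 fl
  split_ifs <;> omega

theorem eqv (P : ℕ → Prop) {r : ℕ → ℕ → Prop} (h : Equivalence r) :
    Equivalence fun x y => (P x ↔ P y) ∧ (P x → r x y) :=
  ⟨fun x => ⟨Iff.rfl, fun _ => h.1 x⟩, fun k => ⟨k.1.symm, fun v => h.2 (k.2 (k.1.2 v))⟩,
    fun k l => ⟨k.1.trans l.1, fun v => h.3 (k.2 v) (l.2 (k.1.1 v))⟩⟩

theorem r4d (p : ℕ) : r4 p / 4 = p / 4 := by unfold r4; omega

theorem c4 (H : PL.Ok n al lk) : Cd (4 * n) (fun p => al (p / 4)) lk := fun p hp =>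
  ⟨fun v => by have := H.alive (H.iv p hp).1 v; rwa [(H.iv p hp).2] at this, H.alive hp⟩

theorem c2 (H : PL.Ok n al lk) : Cd (2 * n) (fun d => al (d / 2)) (tr lk) := fun d hd =>
  ⟨fun v => by_contra fun w => w (by rwa [kD H hd w] at v), fun v => (kA H hd v).2.2.2⟩

theorem half (lk : ℕ → ℕ) {p : ℕ} (hp : p < 4 * n) : Conn (4 * n) r4 lk (2 * (p / 2)) p := by
  rcases Nat.even_or_odd' p with ⟨d, rfl | rfl⟩
  · rw [show 2 * d / 2 = d by omega]; exact Conn.refl _ _ _ _
  · rw [show (2 * d + 1) / 2 = d by omega, ← r4_even]; exact Conn.rho _ _ (by omega)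

/-- An odd alive port is linked to an even one. -/
theorem odd (H : PL.Ok n al lk) (hd : d < 2 * n) (u : al (d / 2)) :
    ∃ x < 2 * n, al (x / 2) ∧ tr lk x = d ∧ lk (2 * d + 1) = 2 * x := by
  obtain ⟨x, hx, rfl, -⟩ := pre (pm H) hd
  have v := (c2 H x hx).1 u
  exact ⟨x, hx, v, rfl, by rw [← (kA H hx v).1, (H.iv _ (by omega)).2]⟩

theorem cn (H : PL.Ok n al lk) (u : al (a / 2)) :
    Conn (2 * n) (tr lk) (ed al) a b ↔ Conn (4 * n) r4 lk (2 * a) (2 * b) := by
  constructor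
  · intro k
    refine (Conn.ind (eqv (fun x => al (x / 2)) (r := fun x y => Conn (4 * n) r4 lk (2 * x) (2 * y))
      ⟨fun _ => Conn.refl _ _ _ _, Conn.symm, Conn.trans⟩)
      (fun x hx => ⟨(c2 H x hx).symm, fun v => ?_⟩) (fun x hx => ⟨by rw [ed_div], fun v => ?_⟩)
      k).2 u
    · have := (kA H hx v).2.2.1
      refine (Conn.gam r4 lk (by omega)).trans ?_
      rw [(kA H hx v).1, ← r4_even]
      exact (Conn.rho r4 lk (by omega)).symm
    · rw [ed_pos v, ← r4_odd]
      refine Conn.trans ?_ (Conn.rho r4 lk (by omega))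
      rw [← r4_even]
      exact Conn.rho r4 lk (by omega)
  · intro k
    have := (Conn.ind (eqv (fun p => al (p / 4))
      (r := fun p q => Conn (2 * n) (tr lk) (ed al) (p / 2) (q / 2))
      ⟨fun _ => Conn.refl _ _ _ _, Conn.symm, Conn.trans⟩)
      (fun p hp => ⟨by rw [r4d], fun v => ?_⟩) (fun p hp => ⟨(c4 H p hp).symm, fun v => ?_⟩)
      k).2 (by rwa [h4])
    · rwa [show 2 * a / 2 = a by omega, show 2 * b / 2 = b by omega] at this
    · rcases Nat.even_or_odd' p with ⟨d, rfl | rfl⟩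
      · rw [r4_even, show 2 * d / 2 = d by omega, show (2 * d + 1) / 2 = d by omega]
        exact Conn.refl _ _ _ _
      · rw [h5] at v
        rw [r4_odd, show 2 * fl d / 2 = fl d by omega, show (2 * d + 1) / 2 = d by omega,
          ← ed_pos (A := al) v]
        exact Conn.gam _ _ (by omega)
    · rcases Nat.even_or_odd' p with ⟨d, rfl | rfl⟩
      · rw [h4] at v
        rw [(kA H (by omega) v).1, show 2 * d / 2 = d by omega,
          show (2 * tr lk d + 1) / 2 = tr lk d by omega]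
        exact Conn.rho _ _ (by omega)
      · rw [h5] at v
        obtain ⟨x, hx, -, rfl, e⟩ := odd H (by omega) v
        rw [e, show 2 * x / 2 = x by omega, show (2 * tr lk x + 1) / 2 = tr lk x by omega]
        exact (Conn.rho _ _ hx).symm

theorem scc {K : ℕ → Prop} (p : Pm N f) (c : Cd N K f) :
    ∀ x < N, ∀ y < N, K x → Sc N f x y → K y := fun _ hx _ _ u k =>
  Sc.ind p.1 hx u (fun d hd => (c d hd).2) k

theorem coc {K : ℕ → Prop} (c : Cd N K f) (c' : Cd N K g) :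
    ∀ x < N, ∀ y < N, K x → Conn N f g x y → K y := fun _ _ _ _ u k =>
  (Conn.ind (r := fun x y => K x ↔ K y) ⟨fun _ => Iff.rfl, Iff.symm, Iff.trans⟩
    (fun d hd => (c d hd).symm) (fun d hd => (c' d hd).symm) k).1 u

theorem two {γ : ℕ → ℕ} (q : Iv N γ) (ha : a < N) (k : Sc N γ a b) : b = a ∨ b = γ a :=
  Sc.ind (Q := fun e => e = a ∨ e = γ a) q.pm.1 ha (Or.inl rfl)
    (fun _ _ u => u.elim (fun u => Or.inr (by rw [u])) fun u => Or.inl (by rw [u, (q a ha).2])) k

theorem med (H : PL.Ok n al lk) : gen (4 * n) r4 lk = gn n (tr lk) al := by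
  have P := pm H
  have S := psi H
  have F : Pm (4 * n) fun p => r4 (lk p) := Two.pm.comp H.iv.pm
  have cr : Cd (4 * n) (fun p => al (p / 4)) r4 := fun p _ => by simp only [r4d]
  have ce : Cd (2 * n) (fun d => al (d / 2)) (ed al) := fun p _ => by simp only [ed_div]
  have cs : Cd (4 * n) (fun p => al (p / 4)) fun p => r3 (lk p) := fun p hp => by
    simp only [show r3 (lk p) / 4 = lk p / 4 by unfold r3; omega]; exact c4 H p hp
  have cf : Cd (4 * n) (fun p => al (p / 4)) fun p => r4 (lk p) := fun p hp => by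
    simp only [r4d]; exact c4 H p hp
  have cg : Cd (2 * n) (fun d => al (d / 2)) (fc (tr lk) al) := fun d hd =>
    (c2 H _ (ed_lt al hd)).trans (ce d hd)
  have hf : ∀ x, x / 4 = x / 2 / 2 := fun x => by omega
  have e1 : ncl (2 * n) (fun d => al (d / 2)) (Conn (2 * n) (tr lk) (ed al)) =
      ncl (4 * n) (fun p => al (p / 4)) (Conn (4 * n) r4 lk) :=
    ncl_two (fun d => 2 * d) (fun p => p / 2) (Conn.eqv _ _ _) (Conn.eqv _ _ _) (coc (c2 H) ce)
      (coc cr (c4 H)) (fun x _ u => ⟨by omega, by rwa [h4]⟩)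
      (fun x _ u => ⟨by omega, by rwa [← hf]⟩) (fun x _ y _ u _ k => (cn H u).2 k)
      fun x hx y hy u _ k => (half lk hx).symm.trans
        (((cn H (by rwa [← hf])).1 k).trans (half lk hy))
  have e2 : ncl (2 * n) (fun d => al (d / 2)) (Sc (2 * n) (ed al)) =
      ncl (4 * n) (fun p => al (p / 4)) (Sc (4 * n) r4) := by
    refine ncl_two (fun d => 2 * d) (fun p => p / 2) (ed_iv n al).pm.eqv Two.pm.eqv
      (scc (ed_iv n al).pm ce) (scc Two.pm cr) (fun x _ u => ⟨by omega, by rwa [h4]⟩)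
      (fun x _ u => ⟨by omega, by rwa [← hf]⟩) (fun x hx y _ u _ k => ?_) fun x hx y hy u _ k => ?_
    · have := (Two.sc (by omega)).2 k
      by_cases e : y = x
      · rw [e]; exact Sc.refl _ hx
      · have s := Sc.step (ed_iv n al).pm.1 hx
        rwa [show ed al x = y by rw [ed_pos u, fl]; split_ifs <;> omega] at s
    · have := two (ed_iv n al) (by omega) k
      have := ed_div al (x / 2)
      exact (Two.sc hx).1 (by omega)
  have e3 : cnt (2 * n) (fun d => al (d / 2)) =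
      ncl (4 * n) (fun p => al (p / 4)) (Sc (4 * n) lk) := by
    refine Eq.trans (cnt_congr fun _ _ => ⟨fun k => ⟨k, fun _ _ (e : _ = _) => e.le⟩, And.left⟩)
      (ncl_two (r := Eq) (fun d => 2 * d) (fun p => if p % 2 = 0 then p / 2 else lk p / 2)
        (GX.eqv_eq _) H.iv.pm.eqv (fun _ _ _ _ u e => e ▸ u) (scc H.iv.pm (c4 H))
        (fun x _ u => ⟨by omega, by rwa [h4]⟩) (fun x hx u => ?_) (fun x hx y _ u _ k => ?_)
        fun x hx y hy u v k => ?_)
    · have := (H.iv x hx).1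
      split_ifs
      · exact ⟨by omega, by rwa [← hf]⟩
      · exact ⟨by omega, by rw [← hf]; exact H.alive hx u⟩
    · have := two H.iv (by omega) k
      have := (kA H hx u).1
      omega
    · have := H.par x hx u
      have := H.par y hy v
      have s := Sc.step H.iv.pm.1 hx
      split_ifs at k
      · exact (show x = y by omega) ▸ Sc.refl _ hx
      · rwa [show x = lk y by omega, (H.iv y hy).2, show lk y = x by omega] at s
      · rwa [show lk x = y by omega] at s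
      · exact H.iv.pm.2 x hx y hy (by omega) ▸ Sc.refl _ hx
  have e4 : cnt (4 * n) (fun p => al (p / 4)) = 2 * cnt (2 * n) fun d => al (d / 2) := by
    rw [← cnt_two, show 2 * (2 * n) = 4 * n by omega]
    exact cnt_congr fun x _ => by rw [hf]
  have m : ∀ x < 4 * n, ∀ y < 4 * n, Sc (4 * n) (fun p => r4 (lk p)) x y ↔
      Sc (4 * n) (fun p => r3 (lk p)) (lk x) (lk y) := fun x hx y hy =>
    sc_map (Q := fun _ => True) F S (fun _ _ _ => trivial) (fun x hx _ => (H.iv x hx).1)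
      (fun x hx => H.iv.pm.2 x hx y hy) (Or.inr fun x hx _ => by
        show r3 (lk (lk (r4 (lk x)))) = lk x
        rw [(H.iv (r4 (lk x)) (F.1 x hx)).2]
        unfold r3 r4
        omega) hx trivial
  have e5 : ncl (4 * n) (fun p => al (p / 4)) (Sc (4 * n) fun p => r4 (lk p)) =
      ncl (4 * n) (fun p => al (p / 4)) (Sc (4 * n) fun p => r3 (lk p)) :=
    ncl_two lk lk F.eqv S.eqv (scc F cf) (scc S cs) (fun x hx u => ⟨(H.iv x hx).1, H.alive hx u⟩)
      (fun x hx u => ⟨(H.iv x hx).1, H.alive hx u⟩) (fun x hx y hy _ _ => (m x hx y hy).2)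
      fun x hx y hy _ _ k => by
        have := (m _ (H.iv x hx).1 _ (H.iv y hy).1).1 k
        rwa [(H.iv x hx).2, (H.iv y hy).2] at this
  have pr : ∀ j, ∀ x < 4 * n, ∀ y < 4 * n, x % 2 = j ∧ al (x / 4) →
      Sc (4 * n) (fun p => r3 (lk p)) x y → y % 2 = j ∧ al (y / 4) := fun j x hx y _ u k =>
    Sc.ind S.1 (Q := fun y => y % 2 = j ∧ al (y / 4)) hx u (fun d hd v => ⟨by
      have := H.par d hd v.2
      have := v.1
      unfold r3
      omega, (cs d hd).2 v.2⟩) k
  have e6 : ncl (2 * n) (fun d => al (d / 2)) (Sc (2 * n) (tr lk)) =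
      ncl (4 * n) (fun p => p % 2 = 0 ∧ al (p / 4)) (Sc (4 * n) fun p => r3 (lk p)) :=
    ncl_two (fun d => 2 * d) (fun p => p / 2) P.eqv S.eqv (scc P (c2 H)) (pr 0)
      (fun x _ u => ⟨by omega, by omega, by rwa [h4]⟩) (fun x _ u => ⟨by omega, hf x ▸ u.2⟩)
      (fun x hx y _ u _ => (vx H hx u).2) fun x hx y _ u v k => by
        have := (vx H (by omega) (hf x ▸ u.2)).1 k
        rwa [show 2 * (x / 2) = x by omega, show 2 * (y / 2) = y by omega] at this
  have e7 : ncl (2 * n) (fun d => al (d / 2)) (Sc (2 * n) fun d => tr lk (ed al d)) =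
      ncl (4 * n) (fun p => p % 2 = 1 ∧ al (p / 4)) (Sc (4 * n) fun p => r3 (lk p)) :=
    ncl_two (fun d => 2 * d + 1) (fun p => p / 2) (fc_pm P al).eqv S.eqv (scc (fc_pm P al) cg)
      (pr 1) (fun x _ u => ⟨by omega, by omega, by rwa [h5]⟩) (fun x _ u => ⟨by omega, hf x ▸ u.2⟩)
      (fun x hx y _ u _ => (fa H hx u).2) fun x hx y _ u v k => by
        have := (fa H (by omega) (hf x ▸ u.2)).1 k
        rwa [show 2 * (x / 2) + 1 = x by omega, show 2 * (y / 2) + 1 = y by omega] at this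
  have e8 := GenB.ncl_sp (4 * n) (fun p => al (p / 4)) (fun p => p % 2 = 0)
    (Sc (4 * n) fun p => r3 (lk p))
  rw [GenB.ncl_cgK (K := fun p => ¬p % 2 = 0 ∧ al (p / 4)) (K' := fun p => p % 2 = 1 ∧ al (p / 4))
    fun x _ => and_congr_left' (by omega)] at e8
  rw [gn, GenA.cg (γ' := rs (fun p => al (p / 4)) lk) Two.pm H.iv (fun _ _ => rfl) (fun p hp => by
      unfold rs; split_ifs with v; exacts [rfl, (H.fix p hp).2 v]),
    GenA.cg (γ' := rs (fun d => al (d / 2)) (ed al)) P (ed_iv n al) (fun _ _ => rfl) (fun p _ => by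
      unfold rs; split_ifs with v; exacts [rfl, ed_neg v]),
    GenB.loc Two.pm H.iv cr (c4 H), GenB.loc P (ed_iv n al) (c2 H) ce, GenB.gl, GenB.gl,
    e1, e2, e4, ← e3, e5, e6, e7, e8]
  push_cast
  ring

end PortH

theorem poH : PoK where
  lv H h := ⟨PortH.pm H, h, fun _ hd => PortH.kD H hd⟩
  lam p d _ := by
    rw [tr, (lam_iv p).2.1, if_neg (by omega)]
    omega
  rc := PortH.rc
  cyc {n al lk c} H hc u := by
    rw [PortH.rc H (by omega) (by rwa [show (2 * c + 1) / 2 = c by omega]), Cyc,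
      show 2 * (2 * c + 1) = 4 * c + (0 + 2) % 4 by omega, show 2 * (2 * c) = 4 * c + 0 % 4 by omega]
  vx := PortH.vx
  fa := PortH.fa
  cn H _ u := PortH.cn H u
  med := PortH.med

end Pool.Agent.MP_1a6d78_lc.GN
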