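import Pool.Agent.MP_1a6d78_lc.GN.Spec

/-! PROJECT GN: from ports to darts. -/

namespace Pool.Agent.MP_1a6d78_lc.GN

open Classical ED PR PL

variable {n a b c : ℕ} {al : ℕ → Prop} {lk : ℕ → ℕ}

theorem tr_dead (H : PL.Ok n al lk) (h : a < 2 * n) (u : ¬al (a / 2)) : tr lk a = a :=
  if_pos ((H.fix _ (by omega)).2 (by rwa [show 2 * a / 4 = a / 2 by omega]))

theorem tr_al (H : PL.Ok n al lk) (h : a < 2 * n) (u : al (a / 2)) :
    r3 (lk (2 * a)) = 2 * tr lk a ∧ lk (2 * a) = 2 * tr lk a + 1 ∧ tr lk a < 2 * n ∧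
      al (tr lk a / 2) := by
  have v : al (2 * a / 4) := by rwa [show 2 * a / 4 = a / 2 by omega]
  have p := H.par _ (by omega) v
  have l := (H.iv (2 * a) (by omega)).1
  have w := H.alive (by omega) v
  have e : lk (2 * a) = 2 * tr lk a + 1 := by
    rw [tr, if_neg (by omega)]
    omega
  refine ⟨by unfold r3; omega, e, by omega, ?_⟩
  rwa [show tr lk a / 2 = lk (2 * a) / 4 by omega]

theorem tr_pm (H : PL.Ok n al lk) : Pm (2 * n) (tr lk) := by
  refine ⟨fun d hd => ?_, fun a ha b hb e => ?_⟩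
  · by_cases u : al (d / 2)
    exacts [(tr_al H hd u).2.2.1, (tr_dead H hd u).symm ▸ hd]
  by_cases u : al (a / 2) <;> by_cases v : al (b / 2)
  · have := H.iv.pm.2 (2 * a) (by omega) (2 * b) (by omega)
      (by rw [(tr_al H ha u).2.1, (tr_al H hb v).2.1, e])
    omega
  · exact absurd (tr_al H ha u).2.2.2 (by rwa [e, tr_dead H hb v])
  · exact absurd (tr_al H hb v).2.2.2 (by rwa [← e, tr_dead H ha u])
  · rwa [tr_dead H ha u, tr_dead H hb v] at e

theorem po_lv (H : PL.Ok n al lk) (h : ∀ c, al c → c < n) : Lv n (tr lk) al :=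
  ⟨tr_pm H, h, fun _ => tr_dead H⟩

theorem po_lam {ρ : ℕ → ℕ} (d : ℕ) : tr (lam n ρ) d = ρ d := by
  have : lam n ρ (2 * d) = 2 * ρ d + 1 := by
    rw [lam, if_pos (by omega), Nat.mul_div_cancel_left _ two_pos]
  rw [tr, this, if_neg (by omega)]
  omega

theorem po_rc (H : PL.Ok n al lk) (h : a < 2 * n) (u : al (a / 2)) :
    Rc n (tr lk) al a b ↔ Rch n lk 0 (2 * a) (2 * b) := by
  constructor
  · intro k
    refine And.left (b := al (b / 2)) ?_
    induction k with
    | refl => exact ⟨.refl, u⟩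
    | @tail x y _ s ih =>
      rcases s with ⟨s, rfl | ⟨s1, -, rfl⟩⟩
      · exact ⟨ih.1.tail ⟨by omega, Or.inl (tr_al H s ih.2).1.symm⟩, (tr_al H s ih.2).2.2.2⟩
      · exact ⟨ih.1.tail ⟨by omega, Or.inr ⟨by omega, by unfold op; omega⟩⟩,
          by rw [show (x + 1) / 2 = x / 2 by omega]; exact ih.2⟩
  · intro k
    have key : ∀ y, Rch n lk 0 (2 * a) y → ∃ d, y = 2 * d ∧ al (d / 2) ∧ Rc n (tr lk) al a d :=
      fun y k => by
        induction k with
        | refl => exact ⟨a, rfl, u, .refl⟩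
        | tail _ s ih =>
          obtain ⟨d, rfl, v, w⟩ := ih
          rcases s with ⟨s, rfl | ⟨s1, rfl⟩⟩
          · have t := tr_al H (by omega) v
            exact ⟨_, t.1, t.2.2.2, w.tail ⟨by omega, Or.inl rfl⟩⟩
          · exact ⟨d + 1, by unfold op; omega, by rwa [show (d + 1) / 2 = d / 2 by omega],
              w.tail ⟨by omega, Or.inr ⟨by omega, v, rfl⟩⟩⟩
    obtain ⟨d, e, -, w⟩ := key _ k
    rwa [show b = d by omega]

theorem po_cyc (H : PL.Ok n al lk) (h : c < n) (u : al c) :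
    Rc n (tr lk) al (2 * c + 1) (2 * c) ↔ Cyc n lk 0 c := by
  rw [po_rc H (by omega) (by rwa [show (2 * c + 1) / 2 = c by omega]), Cyc,
    show 2 * (2 * c + 1) = 4 * c + (0 + 2) % 4 by omega, show 2 * (2 * c) = 4 * c + 0 % 4 by omega]

theorem sc_emb {N N' : ℕ} {f g e : ℕ → ℕ} {Q : ℕ → Prop} (hf : ∀ d < N, f d < N)
    (hg : ∀ d < N', g d < N') (he : Function.Injective e) (l : ∀ d < N, e d < N')
    (s : ∀ d < N, Q d → Q (f d) ∧ g (e d) = e (f d)) (h : a < N) (u : Q a) :
    Sc N f a b ↔ Sc N' g (e a) (e b) := by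
  constructor
  · intro k
    exact (Sc.ind hf (Q := fun d => Q d ∧ Sc N' g (e a) (e d)) h ⟨u, Sc.refl g (l a h)⟩
      (fun d hd v => ⟨(s d hd v.1).1, v.2.trans hg (l a h)
        ((s d hd v.1).2 ▸ Sc.step hg (l d hd))⟩) k).2
  · intro k
    obtain ⟨d, r, -, w⟩ := Sc.ind hg (Q := fun y => ∃ d, y = e d ∧ Q d ∧ Sc N f a d) (l a h)
      ⟨a, rfl, u, Sc.refl f h⟩ (fun _ _ ⟨d, r, v, w⟩ =>
        have hd := w.lt hf h
        ⟨f d, r ▸ (s d hd v).2, (s d hd v).1, w.trans hf h (Sc.step hf hd)⟩) k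
    rwa [he r]

theorem sc_inv {N : ℕ} {f g : ℕ → ℕ} (hf : Pm N f) (hg : Pm N g) (e : ∀ d < N, f (g d) = d)
    (h : a < N) (k : Sc N g a b) : Sc N f a b :=
  Sc.ind hg.1 h (Sc.refl f h) (fun d hd v => v.trans hf.1 h (Sc.symm hf (hg.1 d hd)
    (by simpa only [e d hd] using Sc.step hf.1 (hg.1 d hd)))) k

theorem po_vx (H : PL.Ok n al lk) (h : a < 2 * n) (u : al (a / 2)) :
    Sc (2 * n) (tr lk) a b ↔ Sc (4 * n) (fun p => r3 (lk p)) (2 * a) (2 * b) :=
  sc_emb (e := fun d => 2 * d) (Q := fun d => al (d / 2)) (tr_pm H).1 (r3_pm.comp H.iv.pm).1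
    (fun _ _ e => by dsimp only at e; omega) (fun _ _ => by omega)
    (fun d hd v => ⟨(tr_al H hd v).2.2.2, (tr_al H hd v).1⟩) h u

theorem po_fa (H : PL.Ok n al lk) (h : a < 2 * n) (u : al (a / 2)) :
    Sc (2 * n) (fc (tr lk) al) a b ↔
      Sc (4 * n) (fun p => r3 (lk p)) (2 * a + 1) (2 * b + 1) := by
  have p3 := (r3_pm (n := n)).comp H.iv.pm
  have p4 : Pm (4 * n) fun p => lk (r4 p) := H.iv.pm.comp Two.pm
  refine (sc_emb (g := fun p => lk (r4 p)) (e := fun d => 2 * d + 1) (Q := fun d => al (d / 2))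
    (fc_pm (tr_pm H) al).1 p4.1 (fun _ _ e => by dsimp only at e; omega) (fun _ _ => by omega)
    (fun d hd v => ?_) h u).trans ⟨sc_inv p3 p4 (fun d hd => ?_) (by omega),
      sc_inv p4 p3 (fun d hd => ?_) (by omega)⟩
  · have t := tr_al H (ed_lt al hd) (by rwa [ed_div])
    exact ⟨t.2.2.2, by rw [r4_odd, ← ed_pos v]; exact t.2.1⟩
  · rw [(H.iv _ (Two.pm.1 d hd)).2]
    unfold r3 r4
    omega
  · rw [show r4 (r3 (lk d)) = lk d by unfold r3 r4; omega, (H.iv d hd).2]

theorem po_cn (H : PL.Ok n al lk) (u : al (a / 2)) :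
    Conn (2 * n) (tr lk) (ed al) a b ↔ Conn (4 * n) r4 lk (2 * a) (2 * b) := by
  constructor
  · intro k
    clear u
    induction k with
    | refl => exact .refl _ _ _ _
    | symm _ _ _ ih => exact ih.symm
    | trans _ _ _ _ _ i1 i2 => exact i1.trans i2
    | rel x y s =>
      by_cases v : al (x / 2)
      · have t := tr_al H s.1 v
        rcases s with ⟨s, rfl | rfl⟩
        · refine (Conn.gam r4 lk (by omega)).trans (Conn.symm ?_)
          rw [t.2.1, ← r4_even]
          exact Conn.rho r4 lk (by omega)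
        · rw [ed_pos v, ← r4_odd, ← r4_even]
          exact (Conn.rho r4 lk (by omega)).trans (Conn.rho r4 lk (Two.pm.1 _ (by omega)))
      · rw [show y = x by rcases s with ⟨s, rfl | rfl⟩; exacts [tr_dead H s v, ed_neg v]]
        exact .refl _ _ _ _
  · have key : ∀ p q, Conn (4 * n) r4 lk p q → (al (p / 4) ↔ al (q / 4)) ∧
        (al (p / 4) → Conn (2 * n) (tr lk) (ed al) (p / 2) (q / 2)) := fun p q k => by
      have ev : ∀ p < 4 * n, p % 2 = 0 → al (p / 4) →
          Conn (2 * n) (tr lk) (ed al) (p / 2) (lk p / 2) := fun p hp e v => by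
        obtain ⟨d, rfl⟩ : ∃ d, p = 2 * d := ⟨p / 2, by omega⟩
        have t := tr_al H (a := d) (by omega) (by rwa [show d / 2 = 2 * d / 4 by omega])
        rw [t.2.1, show 2 * d / 2 = d by omega, show (2 * tr lk d + 1) / 2 = tr lk d by omega]
        exact Conn.rho _ _ (by omega)
      induction k with
      | refl => exact ⟨Iff.rfl, fun _ => .refl _ _ _ _⟩
      | symm _ _ _ ih => exact ⟨ih.1.symm, fun v => (ih.2 (ih.1.2 v)).symm⟩
      | trans _ _ _ _ _ i1 i2 => exact ⟨i1.1.trans i2.1, fun v => (i1.2 v).trans (i2.2 (i1.1.1 v))⟩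
      | rel x y s =>
        rcases s with ⟨s, rfl | rfl⟩
        · refine ⟨by rw [show r4 x / 4 = x / 4 by unfold r4; omega], fun v => ?_⟩
          by_cases e : x % 2 = 0
          · rw [show r4 x / 2 = x / 2 by unfold r4; omega]
            exact .refl _ _ _ _
          · rw [show r4 x / 2 = ed al (x / 2) by
              rw [ed_pos (by rwa [show x / 2 / 2 = x / 4 by omega])]
              unfold r4 fl
              split_ifs <;> omega]
            exact Conn.gam _ _ (by omega)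
        · have i := H.iv x s
          refine ⟨⟨H.alive s, fun v => i.2 ▸ H.alive i.1 v⟩, fun v => ?_⟩
          by_cases e : x % 2 = 0
          · exact ev x s e v
          · have := H.par x s v
            simpa only [i.2] using (ev _ i.1 (by omega) (H.alive s v)).symm
    intro k
    have := (key _ _ k).2 (by rwa [show 2 * a / 4 = a / 2 by omega])
    rwa [show 2 * a / 2 = a by omega, show 2 * b / 2 = b by omega] at this

theorem poI (med : ∀ {n al lk}, PL.Ok n al lk → gen (4 * n) r4 lk = gn n (tr lk) al) : PoK :=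
  ⟨po_lv, fun _ d _ => po_lam d, po_rc, po_cyc, po_vx, po_fa, fun H _ => po_cn H, med⟩

end Pool.Agent.MP_1a6d78_lc.GN
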