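import Pool.Agent.MP_1a6d78_lc.GN.Spec

/-! PROJECT GN, row PTR: the pointers. -/

namespace Pool.Agent.MP_1a6d78_lc.GN

open Classical ED PR PL

namespace Ptr

variable {Q : Pt} {σ : ℕ → ℕ} {l l' : List ℕ} {x : ℕ}

def Iw (Q : Pt) (σ : ℕ → ℕ) (l : List ℕ) : Prop :=
  ∀ e < Q.J, ∀ j < Q.R, gt l e ≤ j → Q.w e j < 2 * Q.n ∧ Rc Q.n σ Q.A Q.s (Q.w e j)

theorem src_ok (h : Q.Ok σ) (i : Iw Q σ l) (u : Q.src l x) :
    x < 2 * Q.n ∧ Rc Q.n σ Q.A Q.s x := by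
  rcases u with u | ⟨e, he, j, hj, k, u⟩
  · exact h.bl _ h.s _ u
  · obtain ⟨a, b⟩ := i e he j hj k
    exact (h.bl _ a _ u).imp_right b.trans

theorem hit_ok (h : Q.Ok σ) (i : Iw Q σ l) (u : Q.hit l x) :
    x < 2 * Q.n ∧ Rc Q.n σ Q.A Q.s x := by
  rcases u with u | ⟨c, hc, a, u, v⟩
  · exact src_ok h i u
  · refine (h.bl _ (by omega) _ u).imp_right (Relation.ReflTransGen.trans
      (Relation.ReflTransGen.trans ?_ (Rc.edge hc a)))
    rcases v with v | ⟨e, he, b, v, w⟩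
    · exact (src_ok h i v).2
    · exact ((src_ok h i v).2.trans (Rc.edge he b)).trans (h.bb _ (by omega) _ (by omega) w)

theorem upd_spec (Q : Pt) (l : List ℕ) {e : ℕ} (he : e < Q.J) : gt (Q.upd l) e < Q.R + 1 ∧
    (gt (Q.upd l) e = Q.R ∨ Q.hit l (Q.w e (gt (Q.upd l) e))) := by
  rw [Pt.upd, SC.gt_tab _ he]
  exact lst_spec (P := fun j => j = Q.R ∨ Q.hit l (Q.w e j)) ⟨_, Q.R.lt_succ_self, Or.inl rfl⟩

theorem upd_le {e j : ℕ} (he : e < Q.J) (hj : j < Q.R + 1) (u : j = Q.R ∨ Q.hit l (Q.w e j)) :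
    gt (Q.upd l) e ≤ j := by
  rw [Pt.upd, SC.gt_tab _ he]
  exact lst_le hj u

theorem upd_ok (h : Q.Ok σ) (i : Iw Q σ l) : Iw Q σ (Q.upd l) := fun e he j hj k => by
  have u := hit_ok h i ((upd_spec Q l he).2.resolve_left (by omega))
  clear hj
  induction j, k using Nat.le_induction with
  | base => exact u
  | succ j _ ih => exact (h.w e j ih.1).imp_right ih.2.trans

noncomputable def sq (Q : Pt) (k : ℕ) : List ℕ := itr (fun _ l => Q.upd l) (tab Q.J fun _ => Q.R) k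

theorem sq_ok (h : Q.Ok σ) : ∀ k, Iw Q σ (sq Q k)
  | 0 => fun e he j hj k => by
    rw [sq, itr, SC.gt_tab _ he] at k
    omega
  | k + 1 => upd_ok h (sq_ok h k)

def Le (Q : Pt) (l l' : List ℕ) : Prop := ∀ e < Q.J, gt l e ≤ gt l' e

theorem src_mono (h : Le Q l l') (u : Q.src l' x) : Q.src l x :=
  u.imp_right fun ⟨e, he, j, hj, k, v⟩ => ⟨e, he, j, hj, (h e he).trans k, v⟩

theorem upd_mono (h : Le Q l l') : Le Q (Q.upd l) (Q.upd l') := fun e he =>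
  upd_le he (upd_spec Q l' he).1 ((upd_spec Q l' he).2.imp_right
    (Or.imp (src_mono h) fun ⟨c, hc, a, u, v⟩ => ⟨c, hc, a, u, v.imp (src_mono h)
      fun ⟨e, he, b, v, w⟩ => ⟨e, he, b, src_mono h v, w⟩⟩))

theorem sq_dec (Q : Pt) : ∀ k, Le Q (Q.upd (sq Q k)) (sq Q k)
  | 0 => fun e he => by
    have := (upd_spec Q (sq Q 0) he).1
    rw [show gt (sq Q 0) e = Q.R from SC.gt_tab _ he]
    omega
  | k + 1 => upd_mono (sq_dec Q k)

theorem sq_fix (Q : Pt) : ∀ k, Le Q (sq Q k) (Q.upd (sq Q k)) ∨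
    ∑ e ∈ Finset.range Q.J, gt (sq Q k) e + k ≤ Q.J * Q.R
  | 0 => Or.inr (by
    rw [Finset.sum_congr rfl fun e he => show gt (sq Q 0) e = Q.R from
      SC.gt_tab _ (Finset.mem_range.1 he)]
    simp)
  | k + 1 => by
    by_cases u : Le Q (sq Q k) (Q.upd (sq Q k))
    · exact Or.inl (upd_mono u)
    · have v := (sq_fix Q k).resolve_left u
      simp only [Le, not_forall, not_le] at u
      obtain ⟨e, he, u⟩ := u
      have : ∑ e ∈ Finset.range Q.J, gt (sq Q (k + 1)) e < ∑ e ∈ Finset.range Q.J, gt (sq Q k) e :=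
        Finset.sum_lt_sum (fun e he => sq_dec Q k e (Finset.mem_range.1 he))
          ⟨e, Finset.mem_range.2 he, u⟩
      omega

end Ptr

open Ptr in
theorem ptS : PtS := fun Q σ h => by
  have i : Iw Q σ Q.fin := sq_ok h _
  refine ⟨fun t u => (src_ok h i u).2, fun G U eq hσ hG hU hw hb hs t ht r => ?_⟩
  have fx : Le Q Q.fin (Q.upd Q.fin) := (sq_fix Q (Q.J * Q.R + 1)).resolve_right (by omega)
  suffices k : (U t → Q.src Q.fin t) ∧ (¬U t → ∃ e < Q.n, Q.A e ∧ Q.src Q.fin (2 * e) ∧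
      Rc Q.n σ (fun c => G c ∧ ¬U (2 * c) ∧ ¬U (2 * c + 1)) (2 * e + 1) t) from k.1 ht
  clear ht
  induction r with
  | refl => exact ⟨fun _ => Or.inl (eq.1 _ h.s), fun u => absurd hs u⟩
  | @tail a b _ v ih =>
    rcases v with ⟨ha, rfl | ⟨ev, g, rfl⟩⟩
    · rw [hU a ha]
      have hb := h.pm.1 a ha
      refine ⟨fun u => (ih.1 u).imp (fun v => eq.2.2 _ h.s _ ha _ hb v (hσ a ha))
        fun ⟨e, he, j, hj, k, v⟩ => ⟨e, he, j, hj, k,
          eq.2.2 _ (i e he j hj k).1 _ ha _ hb v (hσ a ha)⟩, fun u => ?_⟩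
      obtain ⟨e, he, b, v, w⟩ := ih.2 u
      exact ⟨e, he, b, v, w.tail ⟨ha, Or.inl rfl⟩⟩
    · obtain ⟨c, rfl⟩ : ∃ c, a = 2 * c := ⟨a / 2, by omega⟩
      rw [show 2 * c / 2 = c by omega] at g
      have hc : c < Q.n := by omega
      refine ⟨fun u => ?_, fun u => ?_⟩
      · obtain ⟨e, he, j, hj, k, v⟩ := hw _ (by omega) u
        refine Or.inr ⟨e, he, j, hj, (fx e he).trans (upd_le he (by omega) (Or.inr (Or.inr
          ⟨c, hc, hG c g, eq.2.1 _ k _ (by omega) v, ?_⟩))), v⟩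
        by_cases w : U (2 * c)
        · exact Or.inl (ih.1 w)
        · obtain ⟨e, he, b, v, w⟩ := ih.2 w
          exact Or.inr ⟨e, he, b, v, hb _ (by omega) _ ha w⟩
      · by_cases w : U (2 * c)
        · exact ⟨c, hc, hG c g, ih.1 w, .refl⟩
        · obtain ⟨e, he, b, v, w'⟩ := ih.2 w
          exact ⟨e, he, b, v, w'.tail ⟨ha, Or.inr ⟨ev, by
            rw [show 2 * c / 2 = c by omega]; exact ⟨g, w, u⟩, rfl⟩⟩⟩

end Pool.Agent.MP_1a6d78_lc.GN
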